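import Mathlib

set_option autoImplicit false
open MeasureTheory Filter Topology
open scoped ENNReal InnerProductSpace

namespace Pool.Agent.Helper209.CLT

section hlt
variable {H : Type*} [NormedAddCommGroup H] [InnerProductSpace ℂ H]
variable {E : Type*} [AddCommGroup E] [MeasurableSpace E] [MeasurableAdd₂ E]

/-- the quadratic form of the averaged rank one operators -/
noncomputable def QF (v : E → H) (ν : Measure E) (f : H) : ℝ≥0∞ := ∫⁻ ξ, ‖⟪v ξ, f⟫_ℂ‖ₑ ^ 2 ∂ν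

lemma bessel_sum (T : ℝ) (v : E → H) (hv : ∀ ξ, ‖v ξ‖ ^ 2 ≤ T) (hmeas : ∀ f, Measurable (fun ξ => ⟪v ξ, f⟫_ℂ))
    (ν : Measure E) [IsProbabilityMeasure ν] (m : ℕ) (f : Fin m → H) (hf : Orthonormal ℂ f) :
    ∑ i, QF v ν (f i) ≤ ENNReal.ofReal T := by
  unfold QF
  rw [← lintegral_finsetSum]
  · have h1 : ∀ ξ, ∑ i, ‖⟪v ξ, f i⟫_ℂ‖ₑ ^ 2 ≤ ENNReal.ofReal T := by
      intro ξ
      have h2 : ∑ i, ‖⟪f i, v ξ⟫_ℂ‖ ^ 2 ≤ ‖v ξ‖ ^ 2 := by
        have := hf.sum_inner_products_le (x := v ξ) (s := Finset.univ)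
        simpa using this
      have h3 : ∑ i, ‖⟪v ξ, f i⟫_ℂ‖ₑ ^ 2 = ENNReal.ofReal (∑ i, ‖⟪f i, v ξ⟫_ℂ‖ ^ 2) := by
        rw [ENNReal.ofReal_sum_of_nonneg (fun i _ => by positivity)]
        congr 1
        ext i
        rw [norm_inner_symm, ENNReal.ofReal_pow (norm_nonneg _), ofReal_norm]
      rw [h3]
      exact ENNReal.ofReal_le_ofReal (h2.trans (hv ξ))
    calc ∫⁻ ξ, ∑ i, ‖⟪v ξ, f i⟫_ℂ‖ₑ ^ 2 ∂ν ≤ ∫⁻ ξ, ENNReal.ofReal T ∂ν := lintegral_mono h1
      _ = ENNReal.ofReal T := by simp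
  · intro i _
    exact (hmeas (f i)).enorm.pow_const 2

lemma extend_orthonormal (m : ℕ) (f : Fin m → H) (hf : Orthonormal ℂ f) (g : H) (hg : ‖g‖ = 1)
    (hfg : ∀ i, ⟪f i, g⟫_ℂ = 0) : Orthonormal ℂ (Fin.snoc f g : Fin (m + 1) → H) := by
  constructor
  · intro i
    refine Fin.lastCases ?_ (fun j => ?_) i
    · simpa using hg
    · simpa using hf.1 j
  · intro i
    refine Fin.lastCases ?_ (fun j => ?_) i
    · intro k
      refine Fin.lastCases ?_ (fun l => ?_) k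
      · intro h; exact absurd rfl h
      · intro _
        simp only [Fin.snoc_last, Fin.snoc_castSucc]
        rw [← inner_conj_symm, hfg l, map_zero]
    · intro k
      refine Fin.lastCases ?_ (fun l => ?_) k
      · intro _
        simp only [Fin.snoc_last, Fin.snoc_castSucc]
        exact hfg j
      · intro h
        simp only [Fin.snoc_castSucc]
        apply hf.2
        intro hjl
        apply h
        rw [hjl]

/-- Hundertmark-Lieb-Thomas type summation lemma -/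
theorem hlt (T : ℝ) (v : E → H) (hv : ∀ ξ, ‖v ξ‖ ^ 2 ≤ T) (hmeas : ∀ f, Measurable (fun ξ => ⟪v ξ, f⟫_ℂ))
    (U : E → H → H) (hU1 : ∀ η f g, ⟪U η f, U η g⟫_ℂ = ⟪f, g⟫_ℂ) (hU2 : ∀ ξ η f, ⟪v (η + ξ), f⟫_ℂ = ⟪v ξ, U η f⟫_ℂ)
    (N : ℕ) (ν μ : ℕ → Measure E) (hνp : ∀ j, IsProbabilityMeasure (ν j)) (hμp : ∀ j, IsProbabilityMeasure (μ j))
    (hν : ∀ j, j + 1 < N → ν j = (μ j).conv (ν (j + 1)))
    (t : ℕ → ℝ≥0∞)
    (ht : ∀ j, j < N → ∀ g : Fin j → H, ∃ f : H, ‖f‖ = 1 ∧ (∀ i, ⟪g i, f⟫_ℂ = 0) ∧ t j ≤ QF v (ν j) f) :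
    ∑ j ∈ Finset.range N, t j ≤ ENNReal.ofReal T := by
  -- extension step
  have hext : ∀ m, m < N → (∃ f : Fin m → H, Orthonormal ℂ f ∧ ∑ j ∈ Finset.range m, t j ≤ ∑ i, QF v (ν m) (f i)) →
      ∃ f : Fin (m + 1) → H, Orthonormal ℂ f ∧ ∑ j ∈ Finset.range (m + 1), t j ≤ ∑ i, QF v (ν m) (f i) := by
    rintro m hm ⟨f, hf, hsum⟩
    obtain ⟨g, hg1, hg2, hg3⟩ := ht m hm f
    refine ⟨Fin.snoc f g, extend_orthonormal m f hf g hg1 hg2, ?_⟩
    rw [Finset.sum_range_succ, Fin.sum_univ_castSucc]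
    simp only [Fin.snoc_last, Fin.snoc_castSucc]
    exact add_le_add hsum hg3
  -- shift step
  have hshift : ∀ m, m + 1 < N → (∃ f : Fin (m + 1) → H, Orthonormal ℂ f ∧ ∑ j ∈ Finset.range (m + 1), t j ≤ ∑ i, QF v (ν m) (f i)) →
      ∃ f : Fin (m + 1) → H, Orthonormal ℂ f ∧ ∑ j ∈ Finset.range (m + 1), t j ≤ ∑ i, QF v (ν (m + 1)) (f i) := by
    rintro m hm ⟨f, hf, hsum⟩
    have := hνp m
    have := hνp (m + 1)
    have := hμp m
    have hbes := bessel_sum T v hv hmeas (ν m) (m + 1) f hf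
    have hconv : ∑ i, QF v (ν m) (f i) = ∫⁻ η, ∑ i, QF v (ν (m + 1)) (U η (f i)) ∂(μ m) := by
      rw [lintegral_finsetSum']
      · congr 1
        ext i
        unfold QF
        rw [hν m hm, Measure.lintegral_conv]
        · simp only [hU2]
        · exact (hmeas (f i)).enorm.pow_const 2
      · intro i _
        have : (fun η => QF v (ν (m + 1)) (U η (f i))) = fun η => ∫⁻ ξ, ‖⟪v (η + ξ), f i⟫_ℂ‖ₑ ^ 2 ∂(ν (m + 1)) := by
          ext η
          unfold QF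
          simp only [hU2]
        rw [this]
        apply Measurable.aemeasurable
        apply Measurable.lintegral_prod_right'
          (f := fun p : E × E => ‖⟪v (p.1 + p.2), f i⟫_ℂ‖ₑ ^ 2)
        exact ((hmeas (f i)).comp measurable_add).enorm.pow_const 2
    rw [hconv] at hsum hbes
    obtain ⟨η, hη⟩ := exists_lintegral_le (μ := μ m) (f := fun η => ∑ i, QF v (ν (m + 1)) (U η (f i)))
      (ne_top_of_le_ne_top ENNReal.ofReal_ne_top hbes)
    refine ⟨fun i => U η (f i), ?_, hsum.trans hη⟩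
    rw [orthonormal_iff_ite] at hf ⊢
    intro i j
    rw [hU1]
    exact hf i j
  -- induction
  have hind : ∀ m, m < N → ∃ f : Fin (m + 1) → H, Orthonormal ℂ f ∧ ∑ j ∈ Finset.range (m + 1), t j ≤ ∑ i, QF v (ν m) (f i) := by
    intro m
    induction m with
    | zero =>
      intro h0
      apply hext 0 h0
      refine ⟨Fin.elim0, ⟨fun i => i.elim0, fun i => i.elim0⟩, by simp⟩
    | succ m ih =>
      intro hm
      exact hext (m + 1) hm (hshift m hm (ih (by omega)))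
  rcases Nat.eq_zero_or_pos N with h0 | hpos
  · subst h0; simp
  · obtain ⟨f, hf, hsum⟩ := hind (N - 1) (by omega)
    have := hνp (N - 1)
    have hbes := bessel_sum T v hv hmeas (ν (N - 1)) (N - 1 + 1) f hf
    have : N - 1 + 1 = N := by omega
    have hb := hsum.trans hbes
    rwa [this] at hb

end hlt

end Pool.Agent.Helper209.CLT
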