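import Mathlib

set_option autoImplicit false
open scoped FourierTransform SchwartzMap
open MeasureTheory Real Filter Topology

namespace Pool.Agent.Helper209.FLT

/-- the symbol -/
noncomputable def sym (s ξ : ℝ) : ℝ := (2 * π * |ξ|) ^ (2 * s)

lemma sym_nonneg (s ξ : ℝ) : 0 ≤ sym s ξ := by
  unfold sym; positivity

lemma sym_neg (s ξ : ℝ) : sym s (-ξ) = sym s ξ := by
  unfold sym; rw [abs_neg]

lemma sym_cont (s : ℝ) (hs : 0 ≤ s) : Continuous (sym s) := by
  unfold sym
  apply Continuous.rpow_const (by fun_prop)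
  intro x; right; linarith

lemma sym_scale (s : ℝ) (κ ξ : ℝ) (hκ : 0 ≤ κ) : sym s (κ * ξ) = κ ^ (2 * s) * sym s ξ := by
  unfold sym
  rw [abs_mul, abs_of_nonneg hκ, ← Real.mul_rpow hκ (by positivity)]
  congr 1; ring

/-- the resolvent density -/
noncomputable def den (s κ ξ : ℝ) : ℝ := 1 / (sym s ξ + κ ^ (2 * s))

lemma den_pos (s κ ξ : ℝ) (hκ : 0 < κ) : 0 < den s κ ξ := by
  unfold den
  have := sym_nonneg s ξ
  positivity

lemma den_cont (s κ : ℝ) (hs : 0 ≤ s) (hκ : 0 < κ) : Continuous (den s κ) := by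
  unfold den
  apply Continuous.div continuous_const ((sym_cont s hs).add continuous_const)
  intro x
  have := sym_nonneg s x
  have h2 : 0 < κ ^ (2 * s) := by positivity
  exact (by linarith : 0 < sym s x + κ ^ (2 * s)).ne'

lemma den_neg (s κ ξ : ℝ) : den s κ (-ξ) = den s κ ξ := by
  unfold den; rw [sym_neg]

lemma den_integrable (s κ : ℝ) (hs : 1 / 2 < s) (hκ : 0 < κ) : Integrable (den s κ) := by
  have h1 : Integrable (fun x : ℝ => (1 + ‖x‖) ^ (-(2 * s))) := by
    apply integrable_one_add_norm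
    simp; linarith
  set C : ℝ := max 1 (2 ^ (2 * s) / κ ^ (2 * s)) with hC
  have hκs : 0 < κ ^ (2 * s) := by positivity
  apply (h1.const_mul C).mono' (den_cont s κ (by linarith) hκ).aestronglyMeasurable
  refine Eventually.of_forall fun x => ?_
  have hd := den_pos s κ x hκ
  rw [Real.norm_of_nonneg hd.le]
  unfold den
  rw [Real.rpow_neg (by positivity), ← div_eq_mul_inv, div_le_div_iff₀ (by have := sym_nonneg s x; positivity) (by positivity)]
  have h2 : (1 + ‖x‖) ^ (2 * s) ≤ 2 ^ (2 * s) + sym s x := by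
    have hsy := sym_nonneg s x
    rcases le_total ‖x‖ 1 with h | h
    · have : (1 + ‖x‖) ^ (2 * s) ≤ 2 ^ (2 * s) := by
        apply Real.rpow_le_rpow (by positivity) (by linarith) (by linarith)
      linarith
    · have : (1 + ‖x‖) ^ (2 * s) ≤ sym s x := by
        unfold sym
        apply Real.rpow_le_rpow (by positivity) _ (by linarith)
        rw [Real.norm_eq_abs] at h ⊢
        nlinarith [Real.pi_gt_three]
      have : (0:ℝ) ≤ 2 ^ (2 * s) := by positivity
      linarith
  have h3 : (2:ℝ) ^ (2 * s) ≤ C * κ ^ (2 * s) := by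
    have : 2 ^ (2 * s) / κ ^ (2 * s) ≤ C := le_max_right _ _
    rwa [div_le_iff₀ hκs] at this
  have h4 : sym s x ≤ C * sym s x := by
    have : (1:ℝ) ≤ C := le_max_left _ _
    nlinarith [sym_nonneg s x]
  nlinarith

/-- the constant -/
noncomputable def c1 (s : ℝ) : ℝ := ∫ ξ, den s 1 ξ

lemma den_scale (s κ ξ : ℝ) (hκ : 0 < κ) : den s κ (κ * ξ) = κ ^ (-(2 * s)) * den s 1 ξ := by
  unfold den
  rw [sym_scale s κ ξ hκ.le, Real.one_rpow, Real.rpow_neg hκ.le]
  have := sym_nonneg s ξ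
  have h2 : 0 < κ ^ (2 * s) := by positivity
  field_simp

lemma integral_den_mul (s κ : ℝ) (hκ : 0 < κ) (w : ℝ → ℝ) :
    ∫ ξ, w ξ * den s κ ξ = κ ^ (1 - 2 * s) * ∫ ξ, w (κ * ξ) * den s 1 ξ := by
  have h := MeasureTheory.Measure.integral_comp_mul_left (fun ξ => w ξ * den s κ ξ) κ
  simp only [den_scale s κ _ hκ] at h
  rw [abs_of_pos (inv_pos.mpr hκ), smul_eq_mul] at h
  have h2 : ∫ ξ, w ξ * den s κ ξ = κ * ∫ ξ, w (κ * ξ) * (κ ^ (-(2 * s)) * den s 1 ξ) := by
    rw [h]; field_simp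
  rw [h2, sub_eq_add_neg, Real.rpow_add hκ, Real.rpow_one]
  rw [mul_assoc]
  congr 1
  rw [← integral_const_mul]
  apply integral_congr_ae
  refine Eventually.of_forall fun ξ => ?_
  simp only
  ring

lemma integral_den (s κ : ℝ) (hκ : 0 < κ) :
    ∫ ξ, den s κ ξ = κ ^ (1 - 2 * s) * c1 s := by
  have := integral_den_mul s κ hκ (fun _ => 1)
  simpa [c1] using this

lemma c1_pos (s : ℝ) (hs : 1 / 2 < s) : 0 < c1 s := by
  unfold c1
  rw [integral_pos_iff_support_of_nonneg (fun x => (den_pos s 1 x one_pos).le) (den_integrable s 1 hs one_pos)]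
  have : Function.support (fun ξ => den s 1 ξ) = Set.univ := by
    ext x; simp [(den_pos s 1 x one_pos).ne']
  rw [this]; simp

/-- Gc is the cosine transform of den s 1 -/
noncomputable def Gc (s r : ℝ) : ℝ := ∫ ξ, cos (2 * π * (r * ξ)) * den s 1 ξ

lemma Gc_zero (s : ℝ) : Gc s 0 = c1 s := by
  unfold Gc c1; simp

lemma cos_den_integrable (s κ : ℝ) (hs : 1 / 2 < s) (hκ : 0 < κ) (w : ℝ → ℝ) (hw : Continuous w) (M : ℝ)
    (hb : ∀ x, |w x| ≤ M) :
    Integrable (fun ξ => w ξ * den s κ ξ) := by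
  have := (den_integrable s κ hs hκ)
  apply (this.const_mul M).mono' (hw.mul (den_cont s κ (by linarith) hκ)).aestronglyMeasurable
  refine Eventually.of_forall fun x => ?_
  show ‖w x * den s κ x‖ ≤ _
  rw [norm_mul, Real.norm_eq_abs, Real.norm_of_nonneg (den_pos s κ x hκ).le]
  exact mul_le_mul_of_nonneg_right (hb x) (den_pos s κ x hκ).le

lemma Gc_cont (s : ℝ) (hs : 1 / 2 < s) : Continuous (Gc s) := by
  unfold Gc
  apply continuous_of_dominated (bound := fun ξ => den s 1 ξ)
  · intro r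
    exact (Continuous.mul (by fun_prop) (den_cont s 1 (by linarith) one_pos)).aestronglyMeasurable
  · intro r
    refine Eventually.of_forall fun x => ?_
    rw [norm_mul, Real.norm_of_nonneg (den_pos s 1 x one_pos).le]
    calc _ ≤ 1 * den s 1 x := mul_le_mul_of_nonneg_right (abs_cos_le_one _) (den_pos s 1 x one_pos).le
      _ = _ := one_mul _
  · exact den_integrable s 1 hs one_pos
  · refine Eventually.of_forall fun x => ?_
    fun_prop

end Pool.Agent.Helper209.FLT
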