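import Pool.Agent.Helper209.FLT1

set_option autoImplicit false
open scoped FourierTransform SchwartzMap
open MeasureTheory Real Filter Topology

namespace Pool.Agent.Helper209.FLT

lemma gauss_cos (a ξ : ℝ) (ha : 0 < a) :
    ∫ r : ℝ, cos (2 * π * (r * ξ)) * exp (-(π * a) * r ^ 2) = (√a)⁻¹ * exp (-π * ξ ^ 2 / a) := by
  have hb : 0 < ((π * a : ℝ) : ℂ).re := by
    rw [Complex.ofReal_re]; positivity
  have h := fourierIntegral_gaussian hb ((2 * π * ξ : ℝ) : ℂ)
  have h1 := congrArg Complex.re h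
  have hint : Integrable (fun x : ℝ => Complex.exp (Complex.I * ((2 * π * ξ : ℝ) : ℂ) * x) * Complex.exp (-((π * a : ℝ) : ℂ) * x ^ 2)) := by
    have := (integrable_cexp_quadratic hb (Complex.I * ((2 * π * ξ : ℝ) : ℂ)) 0)
    refine this.congr (Eventually.of_forall fun x => ?_)
    simp only
    rw [← Complex.exp_add]
    congr 1; ring
  have h2 := Complex.reCLM.integral_comp_comm hint
  simp only [Complex.reCLM_apply] at h2
  rw [← h2] at h1
  have h3 : ∀ x : ℝ, (Complex.exp (Complex.I * ((2 * π * ξ : ℝ) : ℂ) * x) * Complex.exp (-((π * a : ℝ) : ℂ) * x ^ 2)).re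
      = cos (2 * π * (x * ξ)) * exp (-(π * a) * x ^ 2) := by
    intro x
    have e1 : Complex.I * ((2 * π * ξ : ℝ) : ℂ) * x = ((2 * π * (x * ξ) : ℝ) : ℂ) * Complex.I := by
      push_cast; ring
    have e2 : -((π * a : ℝ) : ℂ) * (x:ℂ) ^ 2 = ((-(π * a) * x ^ 2 : ℝ) : ℂ) := by
      push_cast; ring
    rw [e1, e2, ← Complex.ofReal_exp, Complex.re_mul_ofReal, Complex.exp_ofReal_mul_I_re]
  simp only [h3] at h1
  rw [h1]
  have e3 : ((π : ℂ) / ((π * a : ℝ) : ℂ)) = ((a⁻¹ : ℝ) : ℂ) := by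
    push_cast
    have : (π : ℂ) ≠ 0 := by exact_mod_cast Real.pi_ne_zero
    have : (a : ℂ) ≠ 0 := by exact_mod_cast ha.ne'
    field_simp
  have e4 : (-((2 * π * ξ : ℝ) : ℂ) ^ 2 / (4 * ((π * a : ℝ) : ℂ))) = ((-π * ξ ^ 2 / a : ℝ) : ℂ) := by
    push_cast
    have : (π : ℂ) ≠ 0 := by exact_mod_cast Real.pi_ne_zero
    have : (a : ℂ) ≠ 0 := by exact_mod_cast ha.ne'
    field_simp
    ring
  rw [e3, e4, ← Complex.ofReal_exp, show ((1:ℂ)/2) = (((1/2 : ℝ)) : ℂ) by push_cast; ring,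
    ← Complex.ofReal_cpow (by positivity), ← Complex.ofReal_mul, Complex.ofReal_re]
  rw [← Real.sqrt_eq_rpow, Real.sqrt_inv]

lemma gauss_integrable (b : ℝ) (hb : 0 < b) : Integrable (fun r : ℝ => exp (-b * r ^ 2)) :=
  integrable_exp_neg_mul_sq hb

/-- pairing of Gc with a Gaussian -/
lemma Gc_gauss (s a : ℝ) (hs : 1 / 2 < s) (ha : 0 < a) :
    ∫ r : ℝ, Gc s r * exp (-(π * a) * r ^ 2) = ∫ η : ℝ, den s 1 (√a * η) * exp (-π * η ^ 2) := by
  have hden := den_integrable s 1 hs one_pos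
  have hg := gauss_integrable (π * a) (by positivity)
  have hsa : 0 < √a := Real.sqrt_pos.mpr ha
  -- Fubini
  have hprod : Integrable (fun p : ℝ × ℝ => den s 1 p.2 * (cos (2 * π * (p.1 * p.2)) * exp (-(π * a) * p.1 ^ 2)))
      ((volume : Measure ℝ).prod (volume : Measure ℝ)) := by
    have h0 : Integrable (fun p : ℝ × ℝ => exp (-(π * a) * p.1 ^ 2) * den s 1 p.2) ((volume : Measure ℝ).prod (volume : Measure ℝ)) :=
      hg.mul_prod hden
    refine h0.mono' ?_ ?_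
    · apply Continuous.aestronglyMeasurable
      apply Continuous.mul
      · exact (den_cont s 1 (by linarith) one_pos).comp continuous_snd
      · fun_prop
    · refine Eventually.of_forall fun p => ?_
      rw [norm_mul, norm_mul, Real.norm_of_nonneg (den_pos s 1 p.2 one_pos).le, Real.norm_of_nonneg (exp_pos _).le, Real.norm_eq_abs]
      have h1 := abs_cos_le_one (2 * π * (p.1 * p.2))
      have h2 := (den_pos s 1 p.2 one_pos).le
      have h3 := (exp_pos (-(π * a) * p.1 ^ 2)).le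
      calc den s 1 p.2 * (|cos (2 * π * (p.1 * p.2))| * exp (-(π * a) * p.1 ^ 2))
          ≤ den s 1 p.2 * (1 * exp (-(π * a) * p.1 ^ 2)) := by gcongr
        _ = _ := by ring
  have h1 : ∫ r : ℝ, Gc s r * exp (-(π * a) * r ^ 2)
      = ∫ r : ℝ, ∫ ξ : ℝ, den s 1 ξ * (cos (2 * π * (r * ξ)) * exp (-(π * a) * r ^ 2)) := by
    congr 1
    ext r
    unfold Gc
    rw [← integral_mul_const]
    congr 1
    ext ξ
    ring
  rw [h1, integral_integral_swap hprod]
  have h2 : ∀ ξ : ℝ, ∫ r : ℝ, den s 1 ξ * (cos (2 * π * (r * ξ)) * exp (-(π * a) * r ^ 2)) =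
      den s 1 ξ * ((√a)⁻¹ * exp (-π * ξ ^ 2 / a)) := by
    intro ξ
    rw [integral_const_mul, gauss_cos a ξ ha]
  simp only [h2]
  have h3 := MeasureTheory.Measure.integral_comp_mul_left (fun ξ => den s 1 ξ * ((√a)⁻¹ * exp (-π * ξ ^ 2 / a))) (√a)
  rw [abs_of_pos (inv_pos.mpr hsa), smul_eq_mul] at h3
  have h4 : ∫ y, den s 1 y * ((√a)⁻¹ * exp (-π * y ^ 2 / a)) = √a * ∫ x, den s 1 (√a * x) * ((√a)⁻¹ * exp (-π * (√a * x) ^ 2 / a)) := by
    rw [h3]; field_simp
  rw [h4, ← integral_const_mul]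
  congr 1
  ext η
  rw [mul_pow, Real.sq_sqrt ha.le]
  have : -π * (a * η ^ 2) / a = -π * η ^ 2 := by field_simp
  rw [this]
  field_simp

end Pool.Agent.Helper209.FLT
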