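import Pool.Agent.Helper209.FLT2

set_option autoImplicit false
open scoped FourierTransform SchwartzMap
open MeasureTheory Real Filter Topology

namespace Pool.Agent.Helper209.FLT

lemma Gc_even (s r : ℝ) : Gc s (-r) = Gc s r := by
  unfold Gc
  congr 1
  ext ξ
  rw [show 2 * π * (-r * ξ) = -(2 * π * (r * ξ)) by ring, cos_neg]

lemma Gc_abs_le (s r : ℝ) (hs : 1 / 2 < s) : |Gc s r| ≤ c1 s := by
  unfold Gc c1
  rw [← Real.norm_eq_abs]
  refine (norm_integral_le_integral_norm _).trans ?_
  apply integral_mono_of_nonneg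
  · exact Eventually.of_forall fun _ => norm_nonneg _
  · exact den_integrable s 1 hs one_pos
  · refine Eventually.of_forall fun x => ?_
    simp only
    rw [norm_mul, Real.norm_of_nonneg (den_pos s 1 x one_pos).le]
    calc _ ≤ 1 * den s 1 x := mul_le_mul_of_nonneg_right (abs_cos_le_one _) (den_pos s 1 x one_pos).le
      _ = _ := one_mul _

lemma Gc_gauss_integrable (s b : ℝ) (hs : 1 / 2 < s) (hb : 0 < b) :
    Integrable (fun r => Gc s r * exp (-b * r ^ 2)) := by
  have hg := gauss_integrable b hb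
  refine (hg.const_mul (c1 s)).mono' ?_ ?_
  · exact ((Gc_cont s hs).mul (by fun_prop)).aestronglyMeasurable
  · refine Eventually.of_forall fun x => ?_
    rw [norm_mul, Real.norm_of_nonneg (exp_pos _).le, Real.norm_eq_abs]
    exact mul_le_mul_of_nonneg_right (Gc_abs_le s x hs) (exp_pos _).le

lemma sym_gauss_integrable (s : ℝ) (hs : 0 < s) :
    Integrable (fun η => sym s η * exp (-π * η ^ 2)) := by
  have h1 := integrable_rpow_mul_exp_neg_mul_sq (b := π) Real.pi_pos (s := 2 * s) (by linarith)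
  -- use evenness: bound by absolute value
  have h2 : Integrable (fun η : ℝ => (2 * π) ^ (2 * s) * ‖η ^ (2 * s) * exp (-π * η ^ 2)‖) := h1.norm.const_mul _
  have h3 : Integrable (fun η : ℝ => (2 * π) ^ (2 * s) * ‖(-η) ^ (2 * s) * exp (-π * (-η) ^ 2)‖) :=
    h2.comp_neg
  refine (h2.add h3).mono' ?_ ?_
  · exact ((sym_cont s hs.le).mul (by fun_prop)).aestronglyMeasurable
  · refine Eventually.of_forall fun η => ?_
    rw [Real.norm_of_nonneg (mul_nonneg (sym_nonneg s η) (exp_pos _).le)]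
    simp only [Pi.add_apply]
    have hs1 : sym s η = (2 * π) ^ (2 * s) * |η| ^ (2 * s) := by
      unfold sym; rw [Real.mul_rpow (by positivity) (by positivity)]
    rw [hs1]
    rcases le_total 0 η with h | h
    · rw [abs_of_nonneg h]
      have : ‖η ^ (2 * s) * exp (-π * η ^ 2)‖ = η ^ (2 * s) * exp (-π * η ^ 2) :=
        Real.norm_of_nonneg (by positivity)
      rw [this]
      have : 0 ≤ (2 * π) ^ (2 * s) * ‖(-η) ^ (2 * s) * exp (-π * (-η) ^ 2)‖ := by positivity
      linarith
    · rw [abs_of_nonpos h]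
      have h' : 0 ≤ -η := by linarith
      have : ‖(-η) ^ (2 * s) * exp (-π * (-η) ^ 2)‖ = (-η) ^ (2 * s) * exp (-π * (-η) ^ 2) :=
        Real.norm_of_nonneg (by positivity)
      rw [this]
      have : 0 ≤ (2 * π) ^ (2 * s) * ‖η ^ (2 * s) * exp (-π * η ^ 2)‖ := by positivity
      have e : (-η) ^ 2 = η ^ 2 := by ring
      rw [e]
      linarith

lemma den_le_one (s ξ : ℝ) : den s 1 ξ ≤ 1 := by
  unfold den
  rw [Real.one_rpow, div_le_one (by have := sym_nonneg s ξ; linarith)]
  have := sym_nonneg s ξ; linarith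

lemma one_sub_sym_le_den (s ξ : ℝ) : 1 - sym s ξ ≤ den s 1 ξ := by
  unfold den
  have := sym_nonneg s ξ
  rw [Real.one_rpow, le_div_iff₀ (by linarith)]
  nlinarith

/-- upper bound on the Gaussian difference -/
lemma Gc_gauss_diff_le (s ε : ℝ) (hs : 1 / 2 < s) (hε : 0 < ε) :
    (∫ r : ℝ, Gc s r * exp (-(π * ε) * r ^ 2)) - ∫ r : ℝ, Gc s r * exp (-(π * (2 * ε)) * r ^ 2)
      ≤ (2 * ε) ^ s * ∫ η, sym s η * exp (-π * η ^ 2) := by
  rw [Gc_gauss s ε hs hε, Gc_gauss s (2 * ε) hs (by linarith)]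
  have hg : Integrable (fun η : ℝ => exp (-π * η ^ 2)) := gauss_integrable π Real.pi_pos
  have hdc : Continuous (den s 1) := den_cont s 1 (by linarith) one_pos
  have hI : ∀ a : ℝ, Integrable (fun η : ℝ => den s 1 (a * η) * exp (-π * η ^ 2)) := by
    intro a
    refine hg.mono' ?_ ?_
    · exact ((hdc.comp (continuous_const.mul continuous_id)).mul (by fun_prop)).aestronglyMeasurable
    · refine Eventually.of_forall fun x => ?_
      rw [norm_mul, Real.norm_of_nonneg (exp_pos _).le, Real.norm_of_nonneg (den_pos s 1 _ one_pos).le]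
      calc _ ≤ 1 * exp (-π * x ^ 2) := mul_le_mul_of_nonneg_right (den_le_one s _) (exp_pos _).le
        _ = _ := one_mul _
  have hM := sym_gauss_integrable s (by linarith)
  have h1 : ∫ η : ℝ, den s 1 (√ε * η) * exp (-π * η ^ 2) ≤ ∫ η : ℝ, exp (-π * η ^ 2) := by
    apply integral_mono (hI _) hg
    intro x
    simp only
    calc _ ≤ 1 * exp (-π * x ^ 2) := mul_le_mul_of_nonneg_right (den_le_one s _) (exp_pos _).le
      _ = _ := one_mul _
  have h2 : (∫ η : ℝ, exp (-π * η ^ 2)) - (2 * ε) ^ s * ∫ η, sym s η * exp (-π * η ^ 2)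
      ≤ ∫ η : ℝ, den s 1 (√(2 * ε) * η) * exp (-π * η ^ 2) := by
    rw [← integral_const_mul, ← integral_sub hg (hM.const_mul _)]
    apply integral_mono (hg.sub (hM.const_mul _)) (hI _)
    intro x
    simp only
    have h3 := one_sub_sym_le_den s (√(2 * ε) * x)
    rw [sym_scale s _ x (Real.sqrt_nonneg _)] at h3
    have h4 : (√(2 * ε)) ^ (2 * s) = (2 * ε) ^ s := by
      rw [Real.sqrt_eq_rpow, ← Real.rpow_mul (by linarith)]
      congr 1; ring
    rw [h4] at h3
    have h5 := (exp_pos (-π * x ^ 2))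
    simp only [Pi.sub_apply]
    nlinarith
  linarith

lemma Gc_neg (s : ℝ) (hs : 1 < s) : ∃ r, 0 < r ∧ Gc s r < 0 := by
  by_contra hcon
  push Not at hcon
  have hs' : 1 / 2 < s := by linarith
  have hc1 := c1_pos s hs'
  have hnn : ∀ r, 0 ≤ Gc s r := by
    intro r
    rcases lt_trichotomy r 0 with h | h | h
    · rw [← Gc_even]; exact hcon _ (by linarith)
    · rw [h, Gc_zero]; exact hc1.le
    · exact hcon r h
  -- continuity at 0
  have hcont := (Gc_cont s hs').tendsto 0
  rw [Gc_zero] at hcont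
  have hev : ∀ᶠ r in 𝓝 (0:ℝ), c1 s / 2 < Gc s r := hcont.eventually (lt_mem_nhds (by linarith))
  obtain ⟨δ₀, hδ₀, hball⟩ := Metric.eventually_nhds_iff.mp hev
  set δ : ℝ := min (δ₀ / 2) 1 with hδ
  have hδpos : 0 < δ := by rw [hδ]; positivity
  have hδ1 : δ ≤ 1 := min_le_right _ _
  have hδ2 : δ < δ₀ := by
    have : δ ≤ δ₀ / 2 := min_le_left _ _
    linarith
  set M := ∫ η, sym s η * exp (-π * η ^ 2) with hM
  -- lower bound
  set c' : ℝ := (c1 s / 2) * (π * (δ ^ 2 / 4) * exp (-(2 * π))) * (δ / 2) with hc'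
  have hc'pos : 0 < c' := by rw [hc']; positivity
  have hlow : ∀ ε : ℝ, 0 < ε → ε ≤ 1 → c' * ε ≤ (2 * ε) ^ s * M := by
    intro ε hε hε1
    refine le_trans ?_ (Gc_gauss_diff_le s ε hs' hε)
    rw [← integral_sub (Gc_gauss_integrable s _ hs' (by positivity)) (Gc_gauss_integrable s _ hs' (by positivity))]
    have hint : Integrable (fun r => Gc s r * exp (-(π * ε) * r ^ 2) - Gc s r * exp (-(π * (2 * ε)) * r ^ 2)) :=
      (Gc_gauss_integrable s _ hs' (by positivity)).sub (Gc_gauss_integrable s _ hs' (by positivity))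
    have hge : ∀ r, 0 ≤ Gc s r * exp (-(π * ε) * r ^ 2) - Gc s r * exp (-(π * (2 * ε)) * r ^ 2) := by
      intro r
      rw [← mul_sub]
      apply mul_nonneg (hnn r)
      rw [sub_nonneg]
      apply Real.exp_le_exp.mpr
      have : 0 ≤ π * ε * r ^ 2 := by positivity
      nlinarith
    have h1 : ∫ r in Set.Icc (δ / 2) δ, (Gc s r * exp (-(π * ε) * r ^ 2) - Gc s r * exp (-(π * (2 * ε)) * r ^ 2))
        ≤ ∫ r, (Gc s r * exp (-(π * ε) * r ^ 2) - Gc s r * exp (-(π * (2 * ε)) * r ^ 2)) :=
      setIntegral_le_integral hint (Eventually.of_forall hge)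
    refine le_trans ?_ h1
    have h2 : ∫ r in Set.Icc (δ / 2) δ, ((c1 s / 2) * (π * (δ ^ 2 / 4) * exp (-(2 * π))) * ε) ≤
        ∫ r in Set.Icc (δ / 2) δ, (Gc s r * exp (-(π * ε) * r ^ 2) - Gc s r * exp (-(π * (2 * ε)) * r ^ 2)) := by
      apply setIntegral_mono_on
      · exact integrableOn_const (by simp)
      · exact hint.integrableOn
      · exact measurableSet_Icc
      · intro r hr
        obtain ⟨hr1, hr2⟩ := hr
        have hG : c1 s / 2 < Gc s r := by
          apply hball
          rw [Real.dist_eq, sub_zero, abs_of_nonneg (by linarith)]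
          linarith
        rw [← mul_sub]
        have hu : exp (-(π * ε) * r ^ 2) - exp (-(π * (2 * ε)) * r ^ 2) ≥ π * (δ ^ 2 / 4) * exp (-(2 * π)) * ε := by
          set u := π * ε * r ^ 2 with hu
          have e1 : -(π * ε) * r ^ 2 = -u := by rw [hu]; ring
          have e2 : -(π * (2 * ε)) * r ^ 2 = -u + -u := by rw [hu]; ring
          rw [e1, e2, Real.exp_add]
          have hu0 : 0 ≤ u := by positivity
          have h3 : u + 1 ≤ exp u := Real.add_one_le_exp u
          have h4 : exp u * exp (-u) = 1 := by rw [← Real.exp_add]; simp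
          have h5 : 0 < exp (-u) := exp_pos _
          have h6 : u * exp (-u) ≤ 1 - exp (-u) := by nlinarith
          have h7 : exp (-u) - exp (-u) * exp (-u) ≥ u * (exp (-u) * exp (-u)) := by nlinarith
          have h8 : exp (-(2 * π)) ≤ exp (-u) * exp (-u) := by
            rw [← Real.exp_add]
            apply Real.exp_le_exp.mpr
            have : u ≤ π := by
              have hr3 : r ^ 2 ≤ 1 := by nlinarith
              have : ε * r ^ 2 ≤ 1 := by nlinarith [sq_nonneg r]
              rw [hu, mul_assoc]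
              nlinarith [Real.pi_pos]
            linarith
          have h9 : π * (δ ^ 2 / 4) * ε ≤ u := by
            rw [hu]
            have : δ ^ 2 / 4 ≤ r ^ 2 := by nlinarith
            have : π * ε * (δ ^ 2 / 4) ≤ π * ε * r ^ 2 := by gcongr
            linarith
          have h10 : π * (δ ^ 2 / 4) * ε * exp (-(2 * π)) ≤ u * (exp (-u) * exp (-u)) := by
            gcongr
          linarith
        have h11 : 0 < π * (δ ^ 2 / 4) * exp (-(2 * π)) * ε := by positivity
        calc (c1 s / 2) * (π * (δ ^ 2 / 4) * exp (-(2 * π))) * ε = (c1 s / 2) * (π * (δ ^ 2 / 4) * exp (-(2 * π)) * ε) := by ring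
          _ ≤ Gc s r * (exp (-(π * ε) * r ^ 2) - exp (-(π * (2 * ε)) * r ^ 2)) := by
            apply mul_le_mul hG.le hu h11.le (hnn r)
    refine le_trans (le_of_eq ?_) h2
    rw [setIntegral_const]
    simp only [smul_eq_mul, Measure.real, Real.volume_Icc]
    rw [ENNReal.toReal_ofReal (by linarith)]
    rw [hc']; ring
  -- contradiction as ε → 0
  have hlow2 : ∀ ε : ℝ, 0 < ε → ε ≤ 1 → c' ≤ 2 ^ s * M * ε ^ (s - 1) := by
    intro ε hε hε1
    have h := hlow ε hε hε1
    rw [Real.mul_rpow (by norm_num) hε.le] at h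
    have h2 : ε ^ s = ε ^ (s - 1) * ε := by
      rw [Real.rpow_sub_one hε.ne']; field_simp
    rw [h2] at h
    have h3 : c' * ε ≤ (2 ^ s * M * ε ^ (s - 1)) * ε := by linarith
    exact le_of_mul_le_mul_right h3 hε
  have htend : Tendsto (fun ε : ℝ => 2 ^ s * M * ε ^ (s - 1)) (𝓝[>] 0) (𝓝 (2 ^ s * M * 0)) := by
    apply Tendsto.const_mul
    have h1 : ContinuousAt (fun ε : ℝ => ε ^ (s - 1)) 0 := by
      apply Real.continuousAt_rpow_const
      right; linarith
    have h2 := h1.tendsto
    rw [Real.zero_rpow (by linarith)] at h2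
    exact h2.mono_left nhdsWithin_le_nhds
  rw [mul_zero] at htend
  have := ge_of_tendsto htend (b := c') ?_
  · linarith
  · have : ∀ᶠ ε in 𝓝[>] (0:ℝ), ε ≤ 1 ∧ 0 < ε := by
      filter_upwards [Ioo_mem_nhdsGT (show (0:ℝ) < 1 by norm_num)] with ε hε
      exact ⟨hε.2.le, hε.1⟩
    filter_upwards [this] with ε hε
    exact hlow2 ε hε.2 hε.1

end Pool.Agent.Helper209.FLT
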