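import Pool.Agent.Helper209.FLT3

set_option autoImplicit false
open scoped FourierTransform SchwartzMap
open MeasureTheory Real Filter Topology

namespace Pool.Agent.Helper209.FLT

/-- soft lemma: choice of the two decay rates -/
lemma soft (p : ℝ) (hp : 0 < p) (g : ℝ → ℝ) (hg : Continuous g) (hg0 : g 0 = 1)
    (hneg : ∃ r, 0 < r ∧ g r < 0) :
    ∃ x y lam : ℝ, 0 < x ∧ x < y ∧ 0 < lam ∧ x ^ p = lam * (1 + g x) ∧ y ^ p = lam * (1 - g y) ∧
      2 * lam < x ^ p + y ^ p := by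
  obtain ⟨r0, hr0, hgr0⟩ := hneg
  set S : Set ℝ := {t | 0 ≤ t ∧ g t ≤ g r0} with hS
  have hSc : IsClosed S := by
    apply IsClosed.inter (isClosed_le continuous_const continuous_id) (isClosed_le hg continuous_const)
  have hSne : S.Nonempty := ⟨r0, hr0.le, le_rfl⟩
  have hSb : BddBelow S := ⟨0, fun t ht => ht.1⟩
  set y := sInf S with hy
  have hyS : y ∈ S := hSc.csInf_mem hSne hSb
  have hy0 : 0 < y := by
    rcases hyS.1.lt_or_eq with h | h
    · exact h
    · exfalso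
      have := hyS.2
      rw [← h, hg0] at this
      linarith
  have hlt : ∀ t, 0 ≤ t → t < y → g y < g t := by
    intro t ht hty
    have : t ∉ S := fun h => absurd (csInf_le hSb h) (not_le.mpr hty)
    have h2 : ¬ (g t ≤ g r0) := fun h => this ⟨ht, h⟩
    push Not at h2
    exact lt_of_le_of_lt hyS.2 h2
  have hgy : g y < 0 := lt_of_le_of_lt hyS.2 hgr0
  set lam := y ^ p / (1 - g y) with hlam
  have h1 : 0 < 1 - g y := by linarith
  have hyp : 0 < y ^ p := by positivity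
  have hlam0 : 0 < lam := by positivity
  have hyeq : y ^ p = lam * (1 - g y) := by rw [hlam]; field_simp
  -- IVT
  have hF : Continuous (fun t : ℝ => lam * (1 + g t) - t ^ p) := by
    apply Continuous.sub (by fun_prop)
    exact Continuous.rpow_const continuous_id (fun x => Or.inr hp.le)
  have hF0 : 0 < lam * (1 + g 0) - (0:ℝ) ^ p := by
    rw [hg0, Real.zero_rpow hp.ne']; linarith
  have hFy : lam * (1 + g y) - y ^ p < 0 := by
    rw [hyeq]; nlinarith
  have hivt := intermediate_value_Icc' hy0.le hF.continuousOn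
  have h0 : (0:ℝ) ∈ Set.Icc (lam * (1 + g y) - y ^ p) (lam * (1 + g 0) - (0:ℝ) ^ p) := ⟨hFy.le, hF0.le⟩
  obtain ⟨x, hx, hxe⟩ := hivt h0
  simp only at hxe
  have hx0 : 0 < x := by
    rcases hx.1.lt_or_eq with h | h
    · exact h
    · exfalso; rw [← h] at hxe; linarith
  have hxy : x < y := by
    rcases hx.2.lt_or_eq with h | h
    · exact h
    · exfalso; rw [h] at hxe; linarith
  refine ⟨x, y, lam, hx0, hxy, hlam0, by linarith, hyeq, ?_⟩
  have := hlt x hx0.le hxy
  have h3 : x ^ p = lam * (1 + g x) := by linarith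
  rw [h3, hyeq]
  nlinarith

/-- the two numbers entering the trial states -/
noncomputable def Bc (s κ : ℝ) : ℝ := ∫ ξ, (2 * cos (π * ξ) ^ 2) * den s κ ξ
noncomputable def Bs (s κ : ℝ) : ℝ := ∫ ξ, (2 * sin (π * ξ) ^ 2) * den s κ ξ

lemma Bc_eq (s κ : ℝ) (hs : 1 / 2 < s) (hκ : 0 < κ) :
    Bc s κ = κ ^ (1 - 2 * s) * (c1 s + Gc s κ) := by
  have h1 : Bc s κ = ∫ ξ, (1 + cos (2 * π * ξ)) * den s κ ξ := by
    unfold Bc
    congr 1
    ext ξ
    rw [show 2 * π * ξ = 2 * (π * ξ) by ring, Real.cos_two_mul]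
    ring
  rw [h1, integral_den_mul s κ hκ (fun ξ => 1 + cos (2 * π * ξ))]
  congr 1
  unfold c1 Gc
  rw [← integral_add (den_integrable s 1 hs one_pos)]
  · congr 1
    ext ξ
    ring
  · exact cos_den_integrable s 1 hs one_pos (fun ξ => cos (2 * π * (κ * ξ))) (by fun_prop) 1 (fun x => abs_cos_le_one _)

lemma Bs_eq (s κ : ℝ) (hs : 1 / 2 < s) (hκ : 0 < κ) :
    Bs s κ = κ ^ (1 - 2 * s) * (c1 s - Gc s κ) := by
  have h1 : Bs s κ = ∫ ξ, (1 - cos (2 * π * ξ)) * den s κ ξ := by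
    unfold Bs
    congr 1
    ext ξ
    rw [show 2 * π * ξ = 2 * (π * ξ) by ring, Real.cos_two_mul, Real.sin_sq]
    ring
  rw [h1, integral_den_mul s κ hκ (fun ξ => 1 - cos (2 * π * ξ))]
  congr 1
  unfold c1 Gc
  rw [← integral_sub (den_integrable s 1 hs one_pos)]
  · congr 1
    ext ξ
    ring
  · exact cos_den_integrable s 1 hs one_pos (fun ξ => cos (2 * π * (κ * ξ))) (by fun_prop) 1 (fun x => abs_cos_le_one _)

/-- existence of parameters: strengths and rates -/
lemma params (s : ℝ) (hs : 1 < s) :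
    ∃ x y α : ℝ, 0 < x ∧ x < y ∧ 0 < α ∧ 1 < α * Bc s x ∧ 1 < α * Bs s y ∧
      c1 s * (2 * α) < x ^ (2 * s - 1) + y ^ (2 * s - 1) := by
  have hs' : 1 / 2 < s := by linarith
  have hc1 := c1_pos s hs'
  obtain ⟨r, hr, hGr⟩ := Gc_neg s hs
  obtain ⟨x, y, lam, hx, hxy, hlam, hxe, hye, hsum⟩ := soft (2 * s - 1) (by linarith) (fun r => Gc s r / c1 s)
    ((Gc_cont s hs').div_const _) (by rw [Gc_zero]; field_simp) ⟨r, hr, div_neg_of_neg_of_pos hGr hc1⟩
  have hy : 0 < y := hx.trans hxy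
  -- choose α slightly larger than lam / c1
  set α : ℝ := (lam + (x ^ (2 * s - 1) + y ^ (2 * s - 1)) / 2) / 2 / c1 s with hα
  have hα0 : lam < α * c1 s := by
    rw [hα]; field_simp; linarith
  have hα1 : 2 * (α * c1 s) < x ^ (2 * s - 1) + y ^ (2 * s - 1) := by
    rw [hα]; field_simp; linarith
  have hαpos : 0 < α := by
    have : 0 < α * c1 s := by linarith
    exact (pos_iff_pos_of_mul_pos this).mpr hc1
  refine ⟨x, y, α, hx, hxy, hαpos, ?_, ?_, by linarith⟩
  · rw [Bc_eq s x hs' hx]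
    have hxp : 0 < x ^ (2 * s - 1) := by positivity
    have e : x ^ (1 - 2 * s) = (x ^ (2 * s - 1))⁻¹ := by
      rw [← Real.rpow_neg hx.le]; congr 1; ring
    rw [e]
    have h1 : c1 s + Gc s x = c1 s * (1 + Gc s x / c1 s) := by field_simp
    have h2 : 0 < 1 + Gc s x / c1 s := by
      have : 0 < lam * (1 + Gc s x / c1 s) := by rw [← hxe]; exact hxp
      exact (pos_iff_pos_of_mul_pos this).mp hlam
    rw [h1]
    have h3 : x ^ (2 * s - 1) < α * c1 s * (1 + Gc s x / c1 s) := by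
      rw [hxe]; exact mul_lt_mul_of_pos_right hα0 h2
    have h4 : α * ((x ^ (2 * s - 1))⁻¹ * (c1 s * (1 + Gc s x / c1 s))) = (α * c1 s * (1 + Gc s x / c1 s)) / x ^ (2 * s - 1) := by
      field_simp
    rw [h4, lt_div_iff₀ hxp]; linarith
  · rw [Bs_eq s y hs' hy]
    have hyp : 0 < y ^ (2 * s - 1) := by positivity
    have e : y ^ (1 - 2 * s) = (y ^ (2 * s - 1))⁻¹ := by
      rw [← Real.rpow_neg hy.le]; congr 1; ring
    rw [e]
    have h1 : c1 s - Gc s y = c1 s * (1 - Gc s y / c1 s) := by field_simp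
    have h2 : 0 < 1 - Gc s y / c1 s := by
      have : 0 < lam * (1 - Gc s y / c1 s) := by rw [← hye]; exact hyp
      exact (pos_iff_pos_of_mul_pos this).mp hlam
    rw [h1]
    have h3 : y ^ (2 * s - 1) < α * c1 s * (1 - Gc s y / c1 s) := by
      rw [hye]; exact mul_lt_mul_of_pos_right hα0 h2
    have h4 : α * ((y ^ (2 * s - 1))⁻¹ * (c1 s * (1 - Gc s y / c1 s))) = (α * c1 s * (1 - Gc s y / c1 s)) / y ^ (2 * s - 1) := by
      field_simp
    rw [h4, lt_div_iff₀ hyp]; linarith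

end Pool.Agent.Helper209.FLT
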