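import Pool.Agent.Helper209.FLT4

set_option autoImplicit false
open scoped FourierTransform SchwartzMap ContDiff
open MeasureTheory Real Filter Topology

namespace Pool.Agent.Helper209.FLT

noncomputable def bmp (n : ℕ) : ContDiffBump (0:ℝ) := ⟨n + 1, n + 2, by positivity, by linarith⟩

noncomputable def phi (s κ : ℝ) (n : ℕ) (ξ : ℝ) : ℝ :=
  bmp n ξ * ((4 * π ^ 2 * ξ ^ 2 + 1 / ((n:ℝ) + 1)) ^ s + κ ^ (2 * s))⁻¹

lemma sym_eq (s ξ : ℝ) : sym s ξ = (4 * π ^ 2 * ξ ^ 2) ^ s := by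
  unfold sym
  rw [Real.rpow_mul (by positivity)]
  congr 1
  rw [Real.rpow_two, mul_pow, sq_abs]; ring

lemma phi_aux_pos (s κ : ℝ) (n : ℕ) (ξ : ℝ) (hκ : 0 < κ) :
    0 < (4 * π ^ 2 * ξ ^ 2 + 1 / ((n:ℝ) + 1)) ^ s + κ ^ (2 * s) := by
  have : 0 < 4 * π ^ 2 * ξ ^ 2 + 1 / ((n:ℝ) + 1) := by positivity
  positivity

lemma phi_contDiff (s κ : ℝ) (n : ℕ) (hκ : 0 < κ) : ContDiff ℝ ∞ (phi s κ n) := by
  unfold phi
  apply ContDiff.mul
  · exact (bmp n).contDiff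
  · apply ContDiff.inv
    · apply ContDiff.add _ contDiff_const
      apply ContDiff.rpow_const_of_ne
      · fun_prop
      · intro x
        have : 0 < 4 * π ^ 2 * x ^ 2 + 1 / ((n:ℝ) + 1) := by positivity
        exact this.ne'
    · intro x
      exact (phi_aux_pos s κ n x hκ).ne'

lemma phi_compact (s κ : ℝ) (n : ℕ) : HasCompactSupport (phi s κ n) := by
  unfold phi
  exact (bmp n).hasCompactSupport.mul_right

lemma phi_neg (s κ : ℝ) (n : ℕ) (ξ : ℝ) : phi s κ n (-ξ) = phi s κ n ξ := by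
  unfold phi
  rw [(bmp n).neg, neg_sq]

lemma phi_nonneg (s κ : ℝ) (n : ℕ) (ξ : ℝ) (hκ : 0 < κ) : 0 ≤ phi s κ n ξ := by
  unfold phi
  exact mul_nonneg (bmp n).nonneg (inv_nonneg.mpr (phi_aux_pos s κ n ξ hκ).le)

lemma phi_le (s κ : ℝ) (n : ℕ) (ξ : ℝ) (hs : 0 ≤ s) (hκ : 0 < κ) : phi s κ n ξ ≤ den s κ ξ := by
  unfold phi den
  have h1 : sym s ξ ≤ (4 * π ^ 2 * ξ ^ 2 + 1 / ((n:ℝ) + 1)) ^ s := by
    rw [sym_eq]
    apply Real.rpow_le_rpow (by positivity) _ hs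
    have : 0 < 1 / ((n:ℝ) + 1) := by positivity
    linarith
  have h2 : 0 < sym s ξ + κ ^ (2 * s) := by
    have := sym_nonneg s ξ
    positivity
  calc bmp n ξ * ((4 * π ^ 2 * ξ ^ 2 + 1 / ((n:ℝ) + 1)) ^ s + κ ^ (2 * s))⁻¹
      ≤ 1 * ((4 * π ^ 2 * ξ ^ 2 + 1 / ((n:ℝ) + 1)) ^ s + κ ^ (2 * s))⁻¹ := by
        apply mul_le_mul_of_nonneg_right (bmp n).le_one
        exact inv_nonneg.mpr (phi_aux_pos s κ n ξ hκ).le
    _ = ((4 * π ^ 2 * ξ ^ 2 + 1 / ((n:ℝ) + 1)) ^ s + κ ^ (2 * s))⁻¹ := one_mul _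
    _ ≤ (sym s ξ + κ ^ (2 * s))⁻¹ := by
        apply inv_anti₀ h2; linarith
    _ = _ := by rw [one_div]

lemma phi_tendsto (s κ : ℝ) (ξ : ℝ) (hs : 0 ≤ s) (hκ : 0 < κ) :
    Tendsto (fun n => phi s κ n ξ) atTop (𝓝 (den s κ ξ)) := by
  have h1 : Tendsto (fun n : ℕ => (bmp n ξ : ℝ)) atTop (𝓝 1) := by
    apply tendsto_const_nhds.congr'
    filter_upwards [eventually_ge_atTop (Nat.ceil |ξ|)] with n hn
    symm
    apply (bmp n).one_of_mem_closedBall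
    rw [mem_closedBall_zero_iff, Real.norm_eq_abs]
    have h2 : |ξ| ≤ n := (Nat.le_ceil _).trans (by exact_mod_cast hn)
    show |ξ| ≤ (n:ℝ) + 1
    linarith
  have h2 : Tendsto (fun n : ℕ => 4 * π ^ 2 * ξ ^ 2 + 1 / ((n:ℝ) + 1)) atTop (𝓝 (4 * π ^ 2 * ξ ^ 2 + 0)) :=
    tendsto_const_nhds.add tendsto_one_div_add_atTop_nhds_zero_nat
  rw [add_zero] at h2
  have h3 : Tendsto (fun n : ℕ => (4 * π ^ 2 * ξ ^ 2 + 1 / ((n:ℝ) + 1)) ^ s) atTop (𝓝 ((4 * π ^ 2 * ξ ^ 2) ^ s)) := by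
    rcases hs.lt_or_eq with h | h
    · exact h2.rpow_const (Or.inr h.le)
    · subst h; simp
  rw [← sym_eq] at h3
  have h4 : sym s ξ + κ ^ (2 * s) ≠ 0 := by
    have := sym_nonneg s ξ
    positivity
  have h5 := h1.mul ((h3.add_const (κ ^ (2 * s))).inv₀ h4)
  rw [one_mul, ← one_div] at h5
  exact h5

lemma approx (s κ : ℝ) (hs : 1 / 2 < s) (hκ : 0 < κ) (w : ℝ → ℝ) (hw : Continuous w)
    (hwb : ∀ x, |w x| ≤ 2) (θ : ℝ) (hθ : θ < ∫ ξ, w ξ * den s κ ξ) :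
    ∃ φ : ℝ → ℝ, ContDiff ℝ ∞ φ ∧ HasCompactSupport φ ∧ (∀ ξ, φ (-ξ) = φ ξ) ∧ (∀ ξ, 0 ≤ φ ξ) ∧
      (∀ ξ, φ ξ ≤ den s κ ξ) ∧ θ < ∫ ξ, w ξ * φ ξ := by
  have hlim : Tendsto (fun n => ∫ ξ, w ξ * phi s κ n ξ) atTop (𝓝 (∫ ξ, w ξ * den s κ ξ)) := by
    apply tendsto_integral_of_dominated_convergence (fun ξ => 2 * den s κ ξ)
    · intro n
      exact (hw.mul (phi_contDiff s κ n hκ).continuous).aestronglyMeasurable
    · exact (den_integrable s κ hs hκ).const_mul 2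
    · intro n
      refine Eventually.of_forall fun ξ => ?_
      rw [norm_mul, Real.norm_eq_abs, Real.norm_of_nonneg (phi_nonneg s κ n ξ hκ)]
      exact mul_le_mul (hwb ξ) (phi_le s κ n ξ (by linarith) hκ) (phi_nonneg s κ n ξ hκ) (by norm_num)
    · refine Eventually.of_forall fun ξ => ?_
      exact (phi_tendsto s κ ξ (by linarith) hκ).const_mul _
  obtain ⟨n, hn⟩ := (hlim.eventually (lt_mem_nhds hθ)).exists
  exact ⟨phi s κ n, phi_contDiff s κ n hκ, phi_compact s κ n, phi_neg s κ n,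
    fun ξ => phi_nonneg s κ n ξ hκ, fun ξ => phi_le s κ n ξ (by linarith) hκ, hn⟩

end Pool.Agent.Helper209.FLT
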