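import Pool.Agent.Helper209.FLT5

set_option autoImplicit false
open scoped FourierTransform SchwartzMap ContDiff
open MeasureTheory Real Filter Topology

namespace Pool.Agent.Helper209.FLT

lemma inv_apply (F : 𝓢(ℝ, ℂ)) (x : ℝ) :
    (𝓕⁻ F) x = ∫ v : ℝ, Complex.exp ((2 * π * (v * x) : ℝ) * Complex.I) * F v := by
  rw [SchwartzMap.fourierInv_coe, Real.fourierInv_eq']
  congr 1
  ext v
  simp only [smul_eq_mul, RCLike.inner_apply, conj_trivial]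
  congr 3
  push_cast; ring

lemma inv_parity (F : 𝓢(ℝ, ℂ)) (σ : ℂ) (hF : ∀ ξ, F (-ξ) = σ * F ξ) (x : ℝ) :
    (𝓕⁻ F) (-x) = σ * (𝓕⁻ F) x := by
  rw [inv_apply, inv_apply, ← integral_const_mul, ← integral_neg_eq_self]
  congr 1
  ext v
  rw [hF]
  have : (2 * π * (-v * -x) : ℝ) = (2 * π * (v * x) : ℝ) := by ring
  rw [this]; ring

/-- general trial function -/
lemma trial (s κ α : ℝ) (σ : ℝ) (hs : 1 / 2 < s) (hκ : 0 < κ) (hα : 0 < α)
    (u : ℝ → ℝ) (hu : ContDiff ℝ ∞ u) (hub : ∀ x, |u x| ≤ 1) (hσ : ∀ x, u (-x) = σ * u x)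
    (pr : ℂ →L[ℝ] ℝ) (hpr : ∀ z : ℂ, |pr z| ≤ ‖z‖)
    (hpru : ∀ ξ : ℝ, pr (Complex.exp ((2 * π * (ξ * (1 / 2)) : ℝ) * Complex.I)) = u ξ)
    (hB : 1 < α * ∫ ξ, (2 * u ξ ^ 2) * den s κ ξ) :
    ∃ (f : 𝓢(ℝ, ℂ)) (D : ℝ), (∀ x, f (-x) = (σ : ℂ) * f x) ∧ (∀ ξ, (𝓕 f) (-ξ) = (σ : ℂ) * (𝓕 f) ξ) ∧ 0 < D ∧
      ∫ ξ, (sym s ξ + κ ^ (2 * s)) * ‖(𝓕 f) ξ‖ ^ 2 ≤ 2 * α * D ∧ D < ‖f (1 / 2)‖ ^ 2 := by
  have hθ : 1 / α < ∫ ξ, (2 * u ξ ^ 2) * den s κ ξ := by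
    rw [div_lt_iff₀ hα]; linarith
  have hu1 : ∀ x, u x ^ 2 ≤ 1 := fun x => by
    have := hub x
    rw [← sq_abs]; nlinarith [abs_nonneg (u x)]
  obtain ⟨φ, hφ, hφc, hφe, hφ0, hφd, hφB⟩ := approx s κ hs hκ (fun ξ => 2 * u ξ ^ 2) (by have := hu.continuous; fun_prop)
    (fun x => by rw [abs_of_nonneg (by positivity)]; have := hu1 x; linarith) (1 / α) hθ
  set B := ∫ ξ, (2 * u ξ ^ 2) * φ ξ with hBdef
  have hBpos : 0 < B := lt_trans (by positivity) hφB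
  -- the Schwartz function in Fourier space
  set Fr : ℝ → ℂ := fun ξ => ((2 * u ξ * φ ξ : ℝ) : ℂ) with hFr
  have hFrsmooth : ContDiff ℝ ∞ Fr := by
    rw [hFr]
    apply Complex.ofRealCLM.contDiff.comp
    exact (contDiff_const.mul hu).mul hφ
  have hFrc : HasCompactSupport Fr := by
    apply hφc.mono'
    intro x hx
    apply subset_tsupport
    intro h0
    apply hx
    show ((2 * u x * φ x : ℝ) : ℂ) = 0
    rw [h0]; simp
  set F : 𝓢(ℝ, ℂ) := hFrc.toSchwartzMap hFrsmooth with hF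
  have hFapp : ∀ ξ, F ξ = ((2 * u ξ * φ ξ : ℝ) : ℂ) := fun ξ => rfl
  have hFpar : ∀ ξ, F (-ξ) = (σ : ℂ) * F ξ := by
    intro ξ
    rw [hFapp, hFapp, hφe, hσ]; push_cast; ring
  have hFF : 𝓕 (𝓕⁻ F) = F := FourierTransform.fourier_fourierInv_eq F
  refine ⟨𝓕⁻ F, B / α, ?_, ?_, by positivity, ?_, ?_⟩
  · exact inv_parity F σ hFpar
  · rw [hFF]; exact hFpar
  · rw [hFF]
    have e : 2 * α * (B / α) = 2 * B := by field_simp
    rw [e, hBdef, ← integral_const_mul]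
    have hint1 : Integrable (fun ξ => 2 * ((2 * u ξ ^ 2) * φ ξ)) := by
      have h1 := cos_den_integrable s κ hs hκ (fun ξ => 2 * (2 * u ξ ^ 2)) (by have := hu.continuous; fun_prop) 4
        (fun x => by rw [abs_of_nonneg (by positivity)]; have := hu1 x; linarith)
      refine h1.mono' ?_ ?_
      · apply Continuous.aestronglyMeasurable
        have := hu.continuous
        have := hφ.continuous
        fun_prop
      · refine Eventually.of_forall fun ξ => ?_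
        rw [Real.norm_of_nonneg (by have := hφ0 ξ; positivity)]
        have := hφd ξ
        have h2 : 0 ≤ 2 * (2 * u ξ ^ 2) := by positivity
        nlinarith
    apply integral_mono_of_nonneg
    · refine Eventually.of_forall fun ξ => ?_
      have := sym_nonneg s ξ
      positivity
    · exact hint1
    · refine Eventually.of_forall fun ξ => ?_
      simp only
      rw [hFapp, Complex.norm_real, Real.norm_eq_abs, sq_abs]
      have h1 := sym_nonneg s ξ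
      have h2 : 0 < sym s ξ + κ ^ (2 * s) := by positivity
      have h3 : (sym s ξ + κ ^ (2 * s)) * φ ξ ≤ 1 := by
        have := hφd ξ
        unfold den at this
        rw [le_div_iff₀ h2] at this
        linarith
      have h4 := hφ0 ξ
      have h5 : 0 ≤ 4 * u ξ ^ 2 * φ ξ := by positivity
      calc (sym s ξ + κ ^ (2 * s)) * (2 * u ξ * φ ξ) ^ 2 = (4 * u ξ ^ 2 * φ ξ) * ((sym s ξ + κ ^ (2 * s)) * φ ξ) := by ring
        _ ≤ (4 * u ξ ^ 2 * φ ξ) * 1 := mul_le_mul_of_nonneg_left h3 h5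
        _ = _ := by ring
  · -- value at 1/2
    have hint2 : Integrable (fun v : ℝ => Complex.exp ((2 * π * (v * (1 / 2)) : ℝ) * Complex.I) * F v) := by
      have hFi : Integrable F := F.integrable
      refine hFi.norm.mono' ?_ ?_
      · apply Continuous.aestronglyMeasurable
        have := F.continuous
        fun_prop
      · refine Eventually.of_forall fun v => ?_
        rw [norm_mul, Complex.norm_exp_ofReal_mul_I, one_mul]
    have hval : pr ((𝓕⁻ F) (1 / 2)) = B := by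
      rw [inv_apply, ← pr.integral_comp_comm hint2, hBdef]
      congr 1
      ext ξ
      rw [hFapp]
      have : Complex.exp ((2 * π * (ξ * (1 / 2)) : ℝ) * Complex.I) * ((2 * u ξ * φ ξ : ℝ) : ℂ)
          = (2 * u ξ * φ ξ : ℝ) • Complex.exp ((2 * π * (ξ * (1 / 2)) : ℝ) * Complex.I) := by
        rw [Complex.real_smul]; ring
      rw [this, map_smul, hpru, smul_eq_mul]; ring
    have h1 := hpr ((𝓕⁻ F) (1 / 2))
    rw [hval, abs_of_pos hBpos] at h1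
    have h2 : B ^ 2 ≤ ‖(𝓕⁻ F) (1 / 2)‖ ^ 2 := by
      apply pow_le_pow_left₀ hBpos.le h1
    refine lt_of_lt_of_le ?_ h2
    have : B / α = B * (1 / α) := by ring
    rw [this, sq]
    exact mul_lt_mul_of_pos_left hφB hBpos

lemma trial_even (s κ α : ℝ) (hs : 1 / 2 < s) (hκ : 0 < κ) (hα : 0 < α) (hB : 1 < α * Bc s κ) :
    ∃ (f : 𝓢(ℝ, ℂ)) (D : ℝ), (∀ x, f (-x) = f x) ∧ (∀ ξ, (𝓕 f) (-ξ) = (𝓕 f) ξ) ∧ 0 < D ∧
      ∫ ξ, (sym s ξ + κ ^ (2 * s)) * ‖(𝓕 f) ξ‖ ^ 2 ≤ 2 * α * D ∧ D < ‖f (1 / 2)‖ ^ 2 := by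
  obtain ⟨f, D, h1, h2, h3, h4, h5⟩ := trial s κ α 1 hs hκ hα (fun ξ => cos (π * ξ)) (by fun_prop)
    (fun x => abs_cos_le_one _) (fun x => by rw [mul_neg, cos_neg, one_mul]) Complex.reCLM
    (fun z => Complex.abs_re_le_norm z)
    (fun ξ => by rw [Complex.reCLM_apply, Complex.exp_ofReal_mul_I_re]; congr 1; ring) hB
  exact ⟨f, D, by simpa using h1, by simpa using h2, h3, h4, h5⟩

lemma trial_odd (s κ α : ℝ) (hs : 1 / 2 < s) (hκ : 0 < κ) (hα : 0 < α) (hB : 1 < α * Bs s κ) :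
    ∃ (f : 𝓢(ℝ, ℂ)) (D : ℝ), (∀ x, f (-x) = - f x) ∧ (∀ ξ, (𝓕 f) (-ξ) = - (𝓕 f) ξ) ∧ 0 < D ∧
      ∫ ξ, (sym s ξ + κ ^ (2 * s)) * ‖(𝓕 f) ξ‖ ^ 2 ≤ 2 * α * D ∧ D < ‖f (1 / 2)‖ ^ 2 := by
  obtain ⟨f, D, h1, h2, h3, h4, h5⟩ := trial s κ α (-1) hs hκ hα (fun ξ => sin (π * ξ)) (by fun_prop)
    (fun x => abs_sin_le_one _) (fun x => by rw [mul_neg, sin_neg]; ring) Complex.imCLM
    (fun z => Complex.abs_im_le_norm z)
    (fun ξ => by rw [Complex.imCLM_apply, Complex.exp_ofReal_mul_I_im]; congr 1; ring) hB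
  exact ⟨f, D, by simpa using h1, by simpa using h2, h3, h4, h5⟩

end Pool.Agent.Helper209.FLT
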