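import Pool.Agent.Helper209.FLT6

set_option autoImplicit false
open scoped FourierTransform SchwartzMap ContDiff
open MeasureTheory Real Filter Topology

namespace Pool.Agent.Helper209.FLT

/-- integrability of symbol times square of Schwartz function -/
lemma sym_sq_integrable (s : ℝ) (hs : 0 ≤ s) (h : 𝓢(ℝ, ℂ)) :
    Integrable (fun ξ => sym s ξ * ‖h ξ‖ ^ 2) := by
  obtain ⟨k, hk⟩ := exists_nat_ge (2 * s)
  set M := (SchwartzMap.seminorm ℂ 0 0) h with hM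
  have hMb : ∀ x, ‖h x‖ ≤ M := fun x => SchwartzMap.norm_le_seminorm ℂ h x
  have h1 := (h.integrable_pow_mul volume k)
  have h0 := h.integrable (μ := volume)
  have h2 : Integrable (fun ξ => M * (‖h ξ‖ + (2 * π) ^ k * (‖ξ‖ ^ k * ‖h ξ‖))) :=
    (h0.norm.add (h1.const_mul _)).const_mul _
  refine h2.mono' ?_ ?_
  · apply Continuous.aestronglyMeasurable
    have := h.continuous
    have := sym_cont s hs
    fun_prop
  · refine Eventually.of_forall fun ξ => ?_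
    have hsy := sym_nonneg s ξ
    rw [Real.norm_of_nonneg (by positivity)]
    have h3 : sym s ξ ≤ 1 + (2 * π) ^ k * ‖ξ‖ ^ k := by
      unfold sym
      rw [← mul_pow, Real.norm_eq_abs]
      rcases le_total (2 * π * |ξ|) 1 with h' | h'
      · have : (2 * π * |ξ|) ^ (2 * s) ≤ 1 := Real.rpow_le_one (by positivity) h' (by linarith)
        have : 0 ≤ (2 * π * |ξ|) ^ k := by positivity
        linarith
      · have : (2 * π * |ξ|) ^ (2 * s) ≤ (2 * π * |ξ|) ^ (k:ℝ) := Real.rpow_le_rpow_of_exponent_le h' hk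
        rw [Real.rpow_natCast] at this
        linarith
    have h4 := hMb ξ
    have h5 : 0 ≤ ‖h ξ‖ := norm_nonneg _
    have hM0 : 0 ≤ M := h5.trans h4
    calc sym s ξ * ‖h ξ‖ ^ 2 = (sym s ξ * ‖h ξ‖) * ‖h ξ‖ := by ring
      _ ≤ ((1 + (2 * π) ^ k * ‖ξ‖ ^ k) * ‖h ξ‖) * M := by gcongr
      _ = _ := by ring

lemma sq_integrable (h : 𝓢(ℝ, ℂ)) : Integrable (fun ξ => ‖h ξ‖ ^ 2) := by
  have := sym_sq_integrable 0 le_rfl h
  simpa [sym] using this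

lemma W_integrable (W : ℝ → ℝ) (hW : Integrable W) (h : 𝓢(ℝ, ℂ)) :
    Integrable (fun ξ => W ξ * ‖h ξ‖ ^ 2) := by
  set M := (SchwartzMap.seminorm ℂ 0 0) h with hM
  have hMb : ∀ x, ‖h x‖ ≤ M := fun x => SchwartzMap.norm_le_seminorm ℂ h x
  apply hW.mul_bdd (c := M ^ 2)
  · apply Continuous.aestronglyMeasurable
    have := h.continuous
    fun_prop
  · refine Eventually.of_forall fun ξ => ?_
    rw [Real.norm_of_nonneg (by positivity)]
    exact pow_le_pow_left₀ (norm_nonneg _) (hMb ξ) 2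

/-- kinetic energy -/
noncomputable def T (s : ℝ) (f : 𝓢(ℝ, ℂ)) : ℝ := ∫ ξ : ℝ, sym s ξ * ‖(𝓕 f) ξ‖ ^ 2

lemma T_add (s κ : ℝ) (hs : 0 ≤ s) (f : 𝓢(ℝ, ℂ)) :
    ∫ ξ, (sym s ξ + κ ^ (2 * s)) * ‖(𝓕 f) ξ‖ ^ 2 = T s f + κ ^ (2 * s) * ∫ x, ‖f x‖ ^ 2 := by
  have h1 : ∫ ξ, (sym s ξ + κ ^ (2 * s)) * ‖(𝓕 f) ξ‖ ^ 2
      = ∫ ξ, (sym s ξ * ‖(𝓕 f) ξ‖ ^ 2 + κ ^ (2 * s) * ‖(𝓕 f) ξ‖ ^ 2) := by
    congr 1; ext ξ; ring
  rw [h1, integral_add (sym_sq_integrable s hs _) ((sq_integrable _).const_mul _), integral_const_mul,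
    SchwartzMap.integral_norm_sq_fourier]
  rfl

lemma T_nonneg (s : ℝ) (f : 𝓢(ℝ, ℂ)) : 0 ≤ T s f := by
  unfold T
  apply integral_nonneg
  intro ξ
  have := sym_nonneg s ξ
  simp only [Pi.zero_apply]
  positivity

/-- Sobolev type inequality -/
lemma sup_bound (s κ : ℝ) (hs : 1 / 2 < s) (hκ : 0 < κ) (f : 𝓢(ℝ, ℂ)) (hf : ∫ x, ‖f x‖ ^ 2 = 1) (x : ℝ) :
    ‖f x‖ ^ 2 ≤ (T s f + κ ^ (2 * s)) * (κ ^ (1 - 2 * s) * c1 s) := by
  set P := T s f + κ ^ (2 * s) with hP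
  set Q := κ ^ (1 - 2 * s) * c1 s with hQ
  have hPpos : 0 < P := by
    have := T_nonneg s f
    have : 0 < κ ^ (2 * s) := by positivity
    linarith
  have hQpos : 0 < Q := by
    have := c1_pos s hs
    positivity
  have hPe : ∫ ξ, (sym s ξ + κ ^ (2 * s)) * ‖(𝓕 f) ξ‖ ^ 2 = P := by
    rw [T_add s κ (by linarith), hf, mul_one]
  have hQe : ∫ ξ, den s κ ξ = Q := integral_den s κ hκ
  have hfx : f x = (𝓕⁻ (𝓕 f)) x := by rw [FourierTransform.fourierInv_fourier_eq]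
  have h1 : ‖f x‖ ≤ ∫ ξ, ‖(𝓕 f) ξ‖ := by
    rw [hfx, inv_apply]
    refine (norm_integral_le_integral_norm _).trans (le_of_eq ?_)
    congr 1
    ext ξ
    rw [norm_mul, Complex.norm_exp_ofReal_mul_I, one_mul]
  set r := √(P * Q) with hr
  have hrpos : 0 < r := Real.sqrt_pos.mpr (by positivity)
  have hr2 : r ^ 2 = P * Q := Real.sq_sqrt (by positivity)
  set t := r / P with ht
  have htpos : 0 < t := by positivity
  have hintP : Integrable (fun ξ => (sym s ξ + κ ^ (2 * s)) * ‖(𝓕 f) ξ‖ ^ 2) := by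
    have := (sym_sq_integrable s (by linarith) (𝓕 f)).add ((sq_integrable (𝓕 f)).const_mul (κ ^ (2 * s)))
    refine this.congr (Eventually.of_forall fun ξ => ?_)
    simp only [Pi.add_apply]; ring
  have hintQ := den_integrable s κ hs hκ
  have h2 : ∫ ξ, ‖(𝓕 f) ξ‖ ≤ ∫ ξ, (t / 2 * ((sym s ξ + κ ^ (2 * s)) * ‖(𝓕 f) ξ‖ ^ 2) + 1 / (2 * t) * den s κ ξ) := by
    apply integral_mono ((𝓕 f).integrable.norm) ((hintP.const_mul _).add (hintQ.const_mul _))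
    intro ξ
    simp only
    have hm : 0 < sym s ξ + κ ^ (2 * s) := by
      have := sym_nonneg s ξ
      positivity
    unfold den
    set m := sym s ξ + κ ^ (2 * s) with hm'
    set v := ‖(𝓕 f) ξ‖ with hv
    have h3 : t / 2 * (m * v ^ 2) + 1 / (2 * t) * (1 / m) - v = (t * m * v - 1) ^ 2 / (2 * t * m) := by
      field_simp
      ring
    have h4 : 0 ≤ (t * m * v - 1) ^ 2 / (2 * t * m) := by positivity
    show v ≤ t / 2 * (m * v ^ 2) + 1 / (2 * t) * (1 / m)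
    linarith
  rw [integral_add (hintP.const_mul _) (hintQ.const_mul _), integral_const_mul, integral_const_mul, hPe, hQe] at h2
  have h5 : t / 2 * P + 1 / (2 * t) * Q = r := by
    rw [ht]
    field_simp
    rw [← hr2]; ring
  rw [h5] at h2
  calc ‖f x‖ ^ 2 ≤ r ^ 2 := by
        apply pow_le_pow_left₀ (norm_nonneg _) (h1.trans h2)
    _ = P * Q := hr2

/-- one-particle bound -/
lemma one_particle (s κ : ℝ) (hs : 1 / 2 < s) (hκ : 0 < κ) (W : ℝ → ℝ) (hW0 : ∀ x, 0 ≤ W x) (hW : Integrable W)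
    (hκW : c1 s * ∫ x, W x ≤ κ ^ (2 * s - 1)) (f : 𝓢(ℝ, ℂ)) (hf : ∫ x, ‖f x‖ ^ 2 = 1) :
    -κ ^ (2 * s) ≤ T s f - ∫ x, W x * ‖f x‖ ^ 2 := by
  set P := T s f + κ ^ (2 * s) with hP
  have hPpos : 0 < P := by
    have := T_nonneg s f
    have : 0 < κ ^ (2 * s) := by positivity
    linarith
  have h1 : ∫ x, W x * ‖f x‖ ^ 2 ≤ ∫ x, W x * (P * (κ ^ (1 - 2 * s) * c1 s)) := by
    apply integral_mono (W_integrable W hW f) (hW.mul_const _)
    intro x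
    simp only
    exact mul_le_mul_of_nonneg_left (sup_bound s κ hs hκ f hf x) (hW0 x)
  rw [integral_mul_const] at h1
  have h2 : κ ^ (1 - 2 * s) * κ ^ (2 * s - 1) = 1 := by
    rw [← Real.rpow_add hκ]
    simp
  have h3 : (∫ x, W x) * (P * (κ ^ (1 - 2 * s) * c1 s)) ≤ P := by
    have h4 : 0 < κ ^ (1 - 2 * s) := by positivity
    calc (∫ x, W x) * (P * (κ ^ (1 - 2 * s) * c1 s)) = P * κ ^ (1 - 2 * s) * (c1 s * ∫ x, W x) := by ring
      _ ≤ P * κ ^ (1 - 2 * s) * κ ^ (2 * s - 1) := by gcongr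
      _ = P * (κ ^ (1 - 2 * s) * κ ^ (2 * s - 1)) := by ring
      _ = P := by rw [h2, mul_one]
  linarith

/-- parallelogram splitting -/
lemma split (ρ : ℝ → ℝ) (hρ : ∀ x, ρ (-x) = ρ x) (u v : ℝ → ℂ) (hu : ∀ x, u (-x) = u x) (hv : ∀ x, v (-x) = - v x)
    (a b : ℂ) (hiu : Integrable (fun x => ρ x * ‖u x‖ ^ 2)) (hiv : Integrable (fun x => ρ x * ‖v x‖ ^ 2))
    (hiuv : Integrable (fun x => ρ x * ‖a * u x + b * v x‖ ^ 2)) :
    ∫ x, ρ x * ‖a * u x + b * v x‖ ^ 2 = ‖a‖ ^ 2 * (∫ x, ρ x * ‖u x‖ ^ 2) + ‖b‖ ^ 2 * ∫ x, ρ x * ‖v x‖ ^ 2 := by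
  have h1 : ∫ x, ρ x * ‖a * u x + b * v x‖ ^ 2 = ∫ x, ρ x * ‖a * u x - b * v x‖ ^ 2 := by
    rw [← integral_neg_eq_self]
    congr 1
    ext x
    rw [hρ, hu, hv]
    congr 3
    ring
  have hiuv' : Integrable (fun x => ρ x * ‖a * u x - b * v x‖ ^ 2) := by
    have := hiuv.comp_neg
    refine this.congr (Eventually.of_forall fun x => ?_)
    simp only
    rw [hρ, hu, hv]
    congr 3
    ring
  have h2 : (∫ x, ρ x * ‖a * u x + b * v x‖ ^ 2) + ∫ x, ρ x * ‖a * u x - b * v x‖ ^ 2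
      = ∫ x, (2 * ‖a‖ ^ 2 * (ρ x * ‖u x‖ ^ 2) + 2 * ‖b‖ ^ 2 * (ρ x * ‖v x‖ ^ 2)) := by
    rw [← integral_add hiuv hiuv']
    congr 1
    ext x
    have := parallelogram_law_with_norm ℝ (a * u x) (b * v x)
    have e1 : ‖a * u x‖ = ‖a‖ * ‖u x‖ := norm_mul _ _
    have e2 : ‖b * v x‖ = ‖b‖ * ‖v x‖ := norm_mul _ _
    rw [e1, e2] at this
    have e3 : ρ x * ‖a * u x + b * v x‖ ^ 2 + ρ x * ‖a * u x - b * v x‖ ^ 2 =
      ρ x * (‖a * u x + b * v x‖ ^ 2 + ‖a * u x - b * v x‖ ^ 2) := by ring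
    rw [e3, this]; ring
  rw [integral_add (hiu.const_mul _) (hiv.const_mul _), integral_const_mul, integral_const_mul, ← h1] at h2
  linarith

end Pool.Agent.Helper209.FLT
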