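import Pool.Agent.Helper209.FLT7

set_option autoImplicit false
open scoped FourierTransform SchwartzMap ContDiff
open MeasureTheory Real Filter Topology

namespace Pool.Agent.Helper209.FLT

/-- the set of Rayleigh quotient values on a subspace -/
def RQ (s : ℝ) (W : ℝ → ℝ) (V : Submodule ℂ 𝓢(ℝ, ℂ)) : Set ℝ :=
  {u : ℝ | ∃ f ∈ V, (∫ x, ‖f x‖ ^ 2) = 1 ∧ u = (∫ ξ : ℝ, (2 * Real.pi * |ξ|) ^ (2 * s) * ‖𝓕 (fun x : ℝ => f x) ξ‖ ^ 2)
                    - ∫ x, W x * ‖f x‖ ^ 2}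

/-- the min-max values -/
noncomputable def lamk (s : ℝ) (W : ℝ → ℝ) (k : ℕ) : ℝ :=
  sInf {t : ℝ | ∃ V : Submodule ℂ 𝓢(ℝ, ℂ), Module.finrank ℂ V = k ∧ t = sSup (RQ s W V)}

lemma sSup_ge (S : Set ℝ) (b : ℝ) (hb : b ≤ 0) (h : ∀ u ∈ S, b ≤ u) : b ≤ sSup S := by
  by_cases hS : BddAbove S
  · rcases S.eq_empty_or_nonempty with h0 | ⟨u, hu⟩
    · rw [h0, Real.sSup_empty]; exact hb
    · exact (h u hu).trans (le_csSup hS hu)
  · rw [Real.sSup_of_not_bddAbove hS]; exact hb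

lemma sInf_ge (S : Set ℝ) (b : ℝ) (hb : b ≤ 0) (h : ∀ u ∈ S, b ≤ u) : b ≤ sInf S := by
  rcases S.eq_empty_or_nonempty with h0 | h0
  · rw [h0, Real.sInf_empty]; exact hb
  · exact le_csInf h0 h

lemma RQ_ge (s κ : ℝ) (hs : 1 / 2 < s) (hκ : 0 < κ) (W : ℝ → ℝ) (hW0 : ∀ x, 0 ≤ W x) (hW : Integrable W)
    (hκW : c1 s * ∫ x, W x ≤ κ ^ (2 * s - 1)) (V : Submodule ℂ 𝓢(ℝ, ℂ)) :
    ∀ u ∈ RQ s W V, -κ ^ (2 * s) ≤ u := by
  rintro u ⟨f, -, hf, rfl⟩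
  exact one_particle s κ hs hκ W hW0 hW hκW f hf

lemma minmax_ge (s κ : ℝ) (hs : 1 / 2 < s) (hκ : 0 < κ) (W : ℝ → ℝ) (hW0 : ∀ x, 0 ≤ W x) (hW : Integrable W)
    (hκW : c1 s * ∫ x, W x ≤ κ ^ (2 * s - 1)) (k : ℕ) :
    ∀ t ∈ {t : ℝ | ∃ V : Submodule ℂ 𝓢(ℝ, ℂ), Module.finrank ℂ V = k ∧ t = sSup (RQ s W V)}, -κ ^ (2 * s) ≤ t := by
  rintro t ⟨V, -, rfl⟩
  apply sSup_ge
  · have : 0 < κ ^ (2 * s) := by positivity
    linarith
  · exact RQ_ge s κ hs hκ W hW0 hW hκW V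

lemma rpow_id (s κ : ℝ) (hs : 1 / 2 < s) (hκ : 0 < κ) : (κ ^ (2 * s)) ^ (1 - 1 / (2 * s)) = κ ^ (2 * s - 1) := by
  rw [← Real.rpow_mul hκ.le]
  congr 1
  field_simp

/-- the hypothesis of the claim holds with c = c1 -/
lemma hyp_holds (s : ℝ) (hs : 1 / 2 < s) (W : ℝ → ℝ) (hW0 : ∀ x, 0 ≤ W x) (hW : Integrable W) (k : ℕ) :
    (max 0 (-(lamk s W k))) ^ (1 - 1 / (2 * s)) ≤ c1 s * ∫ x, W x := by
  have hc1 := c1_pos s hs
  have hWi : 0 ≤ ∫ x, W x := integral_nonneg hW0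
  apply le_of_forall_gt_imp_ge_of_dense
  intro b hb
  have hb0 : 0 < b := lt_of_le_of_lt (by positivity) hb
  have h2s : 0 < 2 * s - 1 := by linarith
  set κ := b ^ (1 / (2 * s - 1)) with hκd
  have hκ : 0 < κ := by positivity
  have hκb : κ ^ (2 * s - 1) = b := by
    rw [hκd, ← Real.rpow_mul hb0.le]
    have : 1 / (2 * s - 1) * (2 * s - 1) = 1 := by field_simp
    rw [this, Real.rpow_one]
  have h1 : -κ ^ (2 * s) ≤ lamk s W k := by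
    apply sInf_ge
    · have : 0 < κ ^ (2 * s) := by positivity
      linarith
    · exact minmax_ge s κ hs hκ W hW0 hW (by rw [hκb]; exact hb.le) k
  have h2 : max 0 (-(lamk s W k)) ≤ κ ^ (2 * s) := by
    apply max_le (by positivity); linarith
  calc (max 0 (-(lamk s W k))) ^ (1 - 1 / (2 * s)) ≤ (κ ^ (2 * s)) ^ (1 - 1 / (2 * s)) := by
        apply Real.rpow_le_rpow (le_max_left _ _) h2
        rw [sub_nonneg, div_le_one (by linarith)]; linarith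
    _ = b := by rw [rpow_id s κ hs hκ, hκb]

/-- upper bound for min-max values from trial spaces -/
lemma lamk_le (s κ : ℝ) (hs : 1 / 2 < s) (W : ℝ → ℝ) (hW0 : ∀ x, 0 ≤ W x) (hW : Integrable W)
    (k : ℕ) (V : Submodule ℂ 𝓢(ℝ, ℂ)) (hV : Module.finrank ℂ V = k) (hne : ∃ f ∈ V, (∫ x, ‖f x‖ ^ 2) ≠ 0)
    (hle : ∀ f ∈ V, T s f - ∫ x, W x * ‖f x‖ ^ 2 ≤ -κ ^ (2 * s) * ∫ x, ‖f x‖ ^ 2) :
    lamk s W k ≤ -κ ^ (2 * s) := by
  have hc1 := c1_pos s hs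
  have hWi : 0 ≤ ∫ x, W x := integral_nonneg hW0
  -- bounded below
  have hbdd : BddBelow {t : ℝ | ∃ V : Submodule ℂ 𝓢(ℝ, ℂ), Module.finrank ℂ V = k ∧ t = sSup (RQ s W V)} := by
    set b : ℝ := c1 s * (∫ x, W x) + 1 with hb
    have hb0 : 0 < b := by positivity
    have h2s : 0 < 2 * s - 1 := by linarith
    set κ' := b ^ (1 / (2 * s - 1)) with hκd
    have hκ' : 0 < κ' := by positivity
    have hκb : κ' ^ (2 * s - 1) = b := by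
      rw [hκd, ← Real.rpow_mul hb0.le]
      have : 1 / (2 * s - 1) * (2 * s - 1) = 1 := by field_simp
      rw [this, Real.rpow_one]
    exact ⟨-κ' ^ (2 * s), fun t ht => minmax_ge s κ' hs hκ' W hW0 hW (by rw [hκb]; linarith) k t ht⟩
  refine (csInf_le hbdd ⟨V, hV, rfl⟩).trans ?_
  obtain ⟨f, hfV, hf⟩ := hne
  apply csSup_le
  · -- normalise
    have hfn : 0 ≤ ∫ x, ‖f x‖ ^ 2 := integral_nonneg (fun x => by positivity)
    have hfpos : 0 < ∫ x, ‖f x‖ ^ 2 := lt_of_le_of_ne hfn (Ne.symm hf)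
    set N := ∫ x, ‖f x‖ ^ 2 with hN
    refine ⟨_, (((√N)⁻¹ : ℝ) : ℂ) • f, V.smul_mem _ hfV, ?_, rfl⟩
    have : ∀ x, ‖((((√N)⁻¹ : ℝ) : ℂ) • f) x‖ ^ 2 = N⁻¹ * ‖f x‖ ^ 2 := by
      intro x
      rw [smul_apply, norm_smul, Complex.norm_real, Real.norm_of_nonneg (by positivity), mul_pow,
        inv_pow, Real.sq_sqrt hfn]
    simp only [this]
    rw [integral_const_mul, ← hN]
    field_simp
  · rintro u ⟨g, hgV, hg, rfl⟩
    have := hle g hgV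
    rw [hg, mul_one] at this
    exact this

end Pool.Agent.Helper209.FLT
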