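import Pool.Agent.Helper209.FLT8

set_option autoImplicit false
open scoped FourierTransform SchwartzMap ContDiff
open MeasureTheory Real Filter Topology

namespace Pool.Agent.Helper209.FLT

/-- two narrow wells at distance one -/
noncomputable def Wp (α ε : ℝ) (z : ℝ) : ℝ :=
  α / (2 * ε) * (Set.indicator (Set.Icc (1 / 2 - ε) (1 / 2 + ε)) (fun _ => (1:ℝ)) z
    + Set.indicator (Set.Icc (-(1 / 2) - ε) (-(1 / 2) + ε)) (fun _ => (1:ℝ)) z)

lemma Wp_nonneg (α ε z : ℝ) (hα : 0 < α) (hε : 0 < ε) : 0 ≤ Wp α ε z := by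
  unfold Wp
  apply mul_nonneg (by positivity)
  apply add_nonneg <;> exact Set.indicator_nonneg (fun _ _ => zero_le_one) _

lemma Wp_even (α ε z : ℝ) : Wp α ε (-z) = Wp α ε z := by
  unfold Wp
  rw [add_comm]
  congr 2
  · by_cases h : z ∈ Set.Icc (1 / 2 - ε) (1 / 2 + ε)
    · have h' : -z ∈ Set.Icc (-(1 / 2) - ε) (-(1 / 2) + ε) := by
        constructor <;> linarith [h.1, h.2]
      rw [Set.indicator_of_mem h, Set.indicator_of_mem h']
    · have h' : -z ∉ Set.Icc (-(1 / 2) - ε) (-(1 / 2) + ε) := by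
        intro h2
        apply h
        constructor <;> linarith [h2.1, h2.2]
      rw [Set.indicator_of_notMem h, Set.indicator_of_notMem h']
  · by_cases h : z ∈ Set.Icc (-(1 / 2) - ε) (-(1 / 2) + ε)
    · have h' : -z ∈ Set.Icc (1 / 2 - ε) (1 / 2 + ε) := by
        constructor <;> linarith [h.1, h.2]
      rw [Set.indicator_of_mem h, Set.indicator_of_mem h']
    · have h' : -z ∉ Set.Icc (1 / 2 - ε) (1 / 2 + ε) := by
        intro h2
        apply h
        constructor <;> linarith [h2.1, h2.2]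
      rw [Set.indicator_of_notMem h, Set.indicator_of_notMem h']

lemma ind_integrable (a b : ℝ) (F : ℝ → ℝ) (hF : Continuous F) :
    Integrable (fun z => Set.indicator (Set.Icc a b) (fun _ => (1:ℝ)) z * F z) := by
  have : (fun z => Set.indicator (Set.Icc a b) (fun _ => (1:ℝ)) z * F z) = Set.indicator (Set.Icc a b) F := by
    ext z
    by_cases h : z ∈ Set.Icc a b
    · rw [Set.indicator_of_mem h, Set.indicator_of_mem h, one_mul]
    · rw [Set.indicator_of_notMem h, Set.indicator_of_notMem h, zero_mul]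
  rw [this, integrable_indicator_iff measurableSet_Icc]
  exact hF.continuousOn.integrableOn_Icc

lemma ind_integral (a b : ℝ) (F : ℝ → ℝ) :
    ∫ z, Set.indicator (Set.Icc a b) (fun _ => (1:ℝ)) z * F z = ∫ z in Set.Icc a b, F z := by
  have : (fun z => Set.indicator (Set.Icc a b) (fun _ => (1:ℝ)) z * F z) = Set.indicator (Set.Icc a b) F := by
    ext z
    by_cases h : z ∈ Set.Icc a b
    · rw [Set.indicator_of_mem h, Set.indicator_of_mem h, one_mul]
    · rw [Set.indicator_of_notMem h, Set.indicator_of_notMem h, zero_mul]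
  rw [this, integral_indicator measurableSet_Icc]

lemma Wp_integral_mul (α ε : ℝ) (F : ℝ → ℝ) (hF : Continuous F) :
    ∫ z, Wp α ε z * F z = α / (2 * ε) * ((∫ z in Set.Icc (1 / 2 - ε) (1 / 2 + ε), F z)
      + ∫ z in Set.Icc (-(1 / 2) - ε) (-(1 / 2) + ε), F z) := by
  unfold Wp
  rw [← ind_integral, ← ind_integral, ← integral_add (ind_integrable _ _ F hF) (ind_integrable _ _ F hF),
    ← integral_const_mul]
  congr 1
  ext z
  ring

lemma Wp_integrable (α ε : ℝ) : Integrable (Wp α ε) := by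
  have h1 := ind_integrable (1 / 2 - ε) (1 / 2 + ε) (fun _ => 1) continuous_const
  have h2 := ind_integrable (-(1 / 2) - ε) (-(1 / 2) + ε) (fun _ => 1) continuous_const
  have := (h1.add h2).const_mul (α / (2 * ε))
  refine this.congr (Eventually.of_forall fun z => ?_)
  simp [Wp]

lemma Wp_integral (α ε : ℝ) (hε : 0 < ε) : ∫ z, Wp α ε z = 2 * α := by
  have h := Wp_integral_mul α ε (fun _ => 1) continuous_const
  simp only [mul_one] at h
  rw [h]
  simp only [setIntegral_const, smul_eq_mul, mul_one, Measure.real, Real.volume_Icc]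
  rw [ENNReal.toReal_ofReal (by linarith), ENNReal.toReal_ofReal (by linarith)]
  field_simp
  ring

lemma Wp_lower (α ε D : ℝ) (hα : 0 < α) (hε : 0 < ε) (F : ℝ → ℝ) (hF : Continuous F) (hFe : ∀ x, F (-x) = F x)
    (hD : ∀ z, |z - 1 / 2| ≤ ε → D ≤ F z) : 2 * α * D ≤ ∫ z, Wp α ε z * F z := by
  rw [Wp_integral_mul α ε F hF]
  have h1 : 2 * ε * D ≤ ∫ z in Set.Icc (1 / 2 - ε) (1 / 2 + ε), F z := by
    have : ∫ z in Set.Icc (1 / 2 - ε) (1 / 2 + ε), D ≤ ∫ z in Set.Icc (1 / 2 - ε) (1 / 2 + ε), F z := by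
      apply setIntegral_mono_on
      · exact integrableOn_const (by simp)
      · exact hF.continuousOn.integrableOn_Icc
      · exact measurableSet_Icc
      · intro z hz
        apply hD
        rw [abs_le]
        constructor <;> linarith [hz.1, hz.2]
    refine le_trans (le_of_eq ?_) this
    simp only [setIntegral_const, smul_eq_mul, Measure.real, Real.volume_Icc]
    rw [ENNReal.toReal_ofReal (by linarith)]
    ring
  have h2 : 2 * ε * D ≤ ∫ z in Set.Icc (-(1 / 2) - ε) (-(1 / 2) + ε), F z := by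
    have : ∫ z in Set.Icc (-(1 / 2) - ε) (-(1 / 2) + ε), D ≤ ∫ z in Set.Icc (-(1 / 2) - ε) (-(1 / 2) + ε), F z := by
      apply setIntegral_mono_on
      · exact integrableOn_const (by simp)
      · exact hF.continuousOn.integrableOn_Icc
      · exact measurableSet_Icc
      · intro z hz
        rw [← hFe]
        apply hD
        rw [abs_le]
        constructor <;> linarith [hz.1, hz.2]
    refine le_trans (le_of_eq ?_) this
    simp only [setIntegral_const, smul_eq_mul, Measure.real, Real.volume_Icc]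
    rw [ENNReal.toReal_ofReal (by linarith)]
    ring
  calc 2 * α * D = α / (2 * ε) * (2 * ε * D + 2 * ε * D) := by field_simp; ring
    _ ≤ _ := by
      apply mul_le_mul_of_nonneg_left (add_le_add h1 h2) (by positivity)

lemma T_split (s : ℝ) (hs : 0 ≤ s) (fp fm : 𝓢(ℝ, ℂ)) (hfp : ∀ ξ, (𝓕 fp) (-ξ) = (𝓕 fp) ξ)
    (hfm : ∀ ξ, (𝓕 fm) (-ξ) = - (𝓕 fm) ξ) (a b : ℂ) :
    T s (a • fp + b • fm) = ‖a‖ ^ 2 * T s fp + ‖b‖ ^ 2 * T s fm := by
  have hE0 : 𝓕 (a • fp + b • fm) = a • 𝓕 fp + b • 𝓕 fm := by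
    rw [FourierTransform.fourier_add, FourierTransform.fourier_smul, FourierTransform.fourier_smul]
  unfold T
  rw [hE0]
  generalize 𝓕 fp = A at *
  generalize 𝓕 fm = B at *
  have hI := sym_sq_integrable s hs (a • A + b • B)
  have hE : ∀ ξ, (a • A + b • B) ξ = a * A ξ + b * B ξ := fun ξ => rfl
  simp only [hE] at hI ⊢
  exact split (sym s) (sym_neg s) (fun x => A x) (fun x => B x) hfp hfm a b
    (sym_sq_integrable s hs _) (sym_sq_integrable s hs _) hI

lemma W_split (W : ℝ → ℝ) (hW : Integrable W) (hWe : ∀ x, W (-x) = W x) (fp fm : 𝓢(ℝ, ℂ))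
    (hfp : ∀ x, fp (-x) = fp x) (hfm : ∀ x, fm (-x) = - fm x) (a b : ℂ) :
    ∫ z, W z * ‖(a • fp + b • fm) z‖ ^ 2 =
      ‖a‖ ^ 2 * (∫ z, W z * ‖fp z‖ ^ 2) + ‖b‖ ^ 2 * ∫ z, W z * ‖fm z‖ ^ 2 := by
  have hE : ∀ z, (a • fp + b • fm) z = a * fp z + b * fm z := fun z => rfl
  have hI := W_integrable W hW (a • fp + b • fm)
  simp only [hE] at hI ⊢
  exact split W hWe fp fm hfp hfm a b (W_integrable W hW _) (W_integrable W hW _) hI

lemma N_split (fp fm : 𝓢(ℝ, ℂ))
    (hfp : ∀ x, fp (-x) = fp x) (hfm : ∀ x, fm (-x) = - fm x) (a b : ℂ) :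
    ∫ z, ‖(a • fp + b • fm) z‖ ^ 2 =
      ‖a‖ ^ 2 * (∫ z, ‖fp z‖ ^ 2) + ‖b‖ ^ 2 * ∫ z, ‖fm z‖ ^ 2 := by
  have hE : ∀ z, (a • fp + b • fm) z = a * fp z + b * fm z := fun z => rfl
  have hI := sq_integrable (a • fp + b • fm)
  have h1 := sq_integrable fp
  have h2 := sq_integrable fm
  simp only [hE] at hI ⊢
  have := split (fun _ => 1) (fun _ => rfl) fp fm hfp hfm a b (by simpa only [one_mul] using h1)
    (by simpa only [one_mul] using h2) (by simpa only [one_mul] using hI)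
  simpa only [one_mul] using this

lemma scal (s : ℝ) (W : ℝ → ℝ) (a : ℂ) (fm : 𝓢(ℝ, ℂ)) : T s (a • fm) = ‖a‖ ^ 2 * T s fm ∧
    ∫ z, W z * ‖(a • fm) z‖ ^ 2 = ‖a‖ ^ 2 * (∫ z, W z * ‖fm z‖ ^ 2) ∧
    ∫ z, ‖(a • fm) z‖ ^ 2 = ‖a‖ ^ 2 * ∫ z, ‖fm z‖ ^ 2 := by
  refine ⟨?_, ?_, ?_⟩
  · unfold T
    rw [← integral_const_mul]
    congr 1
    ext ξ
    rw [FourierTransform.fourier_smul, smul_apply, norm_smul]; ring
  · rw [← integral_const_mul]
    congr 1
    ext ξ
    rw [smul_apply, norm_smul]; ring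
  · rw [← integral_const_mul]
    congr 1
    ext ξ
    rw [smul_apply, norm_smul]; ring

lemma norm_ne (f : 𝓢(ℝ, ℂ)) (hf : f ≠ 0) : (∫ x, ‖f x‖ ^ 2) ≠ 0 := by
  intro h0
  apply hf
  have h1 := (integral_eq_zero_iff_of_nonneg (fun x => by positivity) (sq_integrable f)).mp h0
  have h2 : Continuous (fun x => ‖f x‖ ^ 2) := by have := f.continuous; fun_prop
  have h3 := (h2.ae_eq_iff_eq volume continuous_const).mp h1
  ext z
  have h4 : ‖f z‖ ^ 2 = 0 := congrFun h3 z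
  have h5 : ‖f z‖ = 0 := by
    rcases pow_eq_zero_iff (two_ne_zero) |>.mp h4 with h
    exact h
  exact norm_eq_zero.mp h5

lemma lin_indep (fp fm : 𝓢(ℝ, ℂ)) (hfp : ∀ x, fp (-x) = fp x) (hfm : ∀ x, fm (-x) = - fm x)
    (hfpv : fp (1 / 2) ≠ 0) (hfmv : fm (1 / 2) ≠ 0) : LinearIndependent ℂ ![fp, fm] := by
  rw [LinearIndependent.pair_iff]
  intro a b hab
  have h1 : a * fp (1 / 2) + b * fm (1 / 2) = 0 := by
    have := congrArg (fun f : 𝓢(ℝ, ℂ) => f (1 / 2)) hab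
    exact this
  have h2 : a * fp (1 / 2) - b * fm (1 / 2) = 0 := by
    have h3 : a * fp (-(1 / 2)) + b * fm (-(1 / 2)) = 0 := congrArg (fun f : 𝓢(ℝ, ℂ) => f (-(1 / 2))) hab
    rw [hfp, hfm] at h3
    linear_combination h3
  constructor
  · have : a * fp (1 / 2) = 0 := by linear_combination (h1 + h2) / 2
    exact (mul_eq_zero.mp this).resolve_right hfpv
  · have : b * fm (1 / 2) = 0 := by linear_combination (h1 - h2) / 2
    exact (mul_eq_zero.mp this).resolve_right hfmv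

lemma fin_two (fp fm : 𝓢(ℝ, ℂ)) (h : LinearIndependent ℂ ![fp, fm]) :
    Module.finrank ℂ (Submodule.span ℂ ({fp, fm} : Set 𝓢(ℝ, ℂ))) = 2 := by
  have h1 := finrank_span_eq_card h
  have h2 : Set.range ![fp, fm] = {fp, fm} := by
    ext z
    constructor
    · rintro ⟨i, rfl⟩
      fin_cases i <;> simp
    · rintro (h | h)
      · exact ⟨0, h.symm⟩
      · exact ⟨1, h.symm⟩
  rw [h2] at h1
  simpa using h1

theorem strict (s : ℝ) (hs : 1 < s) : ∃ W : ℝ → ℝ, (∀ x, 0 ≤ W x) ∧ Integrable W ∧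
    c1 s * ∫ x, W x < ∑ k ∈ Finset.range 2, (max 0 (-(lamk s W (k + 1)))) ^ (1 - 1 / (2 * s)) := by
  have hs' : 1 / 2 < s := by linarith
  obtain ⟨x, y, α, hx, hxy, hα, hBx, hBy, hsum⟩ := params s hs
  have hy : 0 < y := hx.trans hxy
  obtain ⟨fp, Dp, hfp1, hfp2, hDp, hfp3, hfp4⟩ := trial_even s x α hs' hx hα hBx
  obtain ⟨fm, Dm, hfm1, hfm2, hDm, hfm3, hfm4⟩ := trial_odd s y α hs' hy hα hBy
  -- choose ε
  have hcp : Continuous (fun z => ‖fp z‖ ^ 2) := by have := fp.continuous; fun_prop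
  have hcm : Continuous (fun z => ‖fm z‖ ^ 2) := by have := fm.continuous; fun_prop
  have hev : ∀ᶠ z in 𝓝 (1 / 2 : ℝ), Dp < ‖fp z‖ ^ 2 ∧ Dm < ‖fm z‖ ^ 2 :=
    ((hcp.tendsto _).eventually (lt_mem_nhds hfp4)).and ((hcm.tendsto _).eventually (lt_mem_nhds hfm4))
  obtain ⟨ε₀, hε₀, hball⟩ := Metric.eventually_nhds_iff.mp hev
  set ε : ℝ := ε₀ / 2 with hεd
  have hε : 0 < ε := by positivity
  have hloc : ∀ z, |z - 1 / 2| ≤ ε → Dp < ‖fp z‖ ^ 2 ∧ Dm < ‖fm z‖ ^ 2 := by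
    intro z hz
    apply hball
    rw [Real.dist_eq]; linarith
  set W := Wp α ε with hW
  have hW0 : ∀ x, 0 ≤ W x := fun x => Wp_nonneg α ε x hα hε
  have hWi : Integrable W := Wp_integrable α ε
  have hWe : ∀ x, W (-x) = W x := fun x => Wp_even α ε x
  -- form bounds
  have hqp : T s fp - ∫ z, W z * ‖fp z‖ ^ 2 ≤ -x ^ (2 * s) * ∫ z, ‖fp z‖ ^ 2 := by
    have h1 := Wp_lower α ε Dp hα hε (fun z => ‖fp z‖ ^ 2) hcp (fun z => by simp only [hfp1]) (fun z hz => (hloc z hz).1.le)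
    rw [T_add s x (by linarith)] at hfp3
    linarith
  have hqm : T s fm - ∫ z, W z * ‖fm z‖ ^ 2 ≤ -y ^ (2 * s) * ∫ z, ‖fm z‖ ^ 2 := by
    have h1 := Wp_lower α ε Dm hα hε (fun z => ‖fm z‖ ^ 2) hcm (fun z => by simp only [hfm1, norm_neg]) (fun z hz => (hloc z hz).2.le)
    rw [T_add s y (by linarith)] at hfm3
    linarith
  -- nonvanishing
  have hfpv : fp (1 / 2) ≠ 0 := by
    intro h; rw [h] at hfp4; simp at hfp4; linarith
  have hfmv : fm (1 / 2) ≠ 0 := by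
    intro h; rw [h] at hfm4; simp at hfm4; linarith
  have hfp0 : fp ≠ 0 := by
    rintro rfl
    exact hfpv rfl
  have hfm0 : fm ≠ 0 := by
    rintro rfl
    exact hfmv rfl
  -- first min-max value
  have hl1 : lamk s W 1 ≤ -y ^ (2 * s) := by
    apply lamk_le s y hs' W hW0 hWi 1 (ℂ ∙ fm) (finrank_span_singleton hfm0)
    · exact ⟨fm, Submodule.mem_span_singleton_self fm, norm_ne fm hfm0⟩
    · intro f hf
      obtain ⟨a, rfl⟩ := Submodule.mem_span_singleton.mp hf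
      obtain ⟨e1, e2, e3⟩ := scal s W a fm
      rw [e1, e2, e3]
      have h0 : 0 ≤ ‖a‖ ^ 2 := by positivity
      have h1 := mul_le_mul_of_nonneg_left hqm h0
      linarith
  -- second min-max value
  have hl2 : lamk s W 2 ≤ -x ^ (2 * s) := by
    apply lamk_le s x hs' W hW0 hWi 2 (Submodule.span ℂ {fp, fm}) (fin_two fp fm (lin_indep fp fm hfp1 hfm1 hfpv hfmv))
    · exact ⟨fp, Submodule.subset_span (by simp), norm_ne fp hfp0⟩
    · intro f hf
      obtain ⟨a, b, rfl⟩ := Submodule.mem_span_pair.mp hf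
      rw [T_split s (by linarith) fp fm hfp2 hfm2 a b, W_split W hWi hWe fp fm hfp1 hfm1 a b,
        N_split fp fm hfp1 hfm1 a b]
      have hxy2 : x ^ (2 * s) ≤ y ^ (2 * s) := Real.rpow_le_rpow hx.le hxy.le (by linarith)
      have ha : 0 ≤ ‖a‖ ^ 2 := by positivity
      have hb : 0 ≤ ‖b‖ ^ 2 := by positivity
      have hNm : 0 ≤ ∫ z, ‖fm z‖ ^ 2 := integral_nonneg (fun z => by positivity)
      have h3 : ‖a‖ ^ 2 * (T s fp - ∫ z, W z * ‖fp z‖ ^ 2) ≤ ‖a‖ ^ 2 * (-x ^ (2 * s) * ∫ z, ‖fp z‖ ^ 2) :=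
        mul_le_mul_of_nonneg_left hqp ha
      have h4 : ‖b‖ ^ 2 * (T s fm - ∫ z, W z * ‖fm z‖ ^ 2) ≤ ‖b‖ ^ 2 * (-y ^ (2 * s) * ∫ z, ‖fm z‖ ^ 2) :=
        mul_le_mul_of_nonneg_left hqm hb
      have h5 : ‖b‖ ^ 2 * (-y ^ (2 * s) * ∫ z, ‖fm z‖ ^ 2) ≤ ‖b‖ ^ 2 * (-x ^ (2 * s) * ∫ z, ‖fm z‖ ^ 2) := by
        apply mul_le_mul_of_nonneg_left _ hb
        apply mul_le_mul_of_nonneg_right _ hNm
        linarith
      linarith
  refine ⟨W, hW0, hWi, ?_⟩
  rw [Wp_integral α ε hε, Finset.sum_range_succ, Finset.sum_range_one]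
  have hγ : 0 ≤ 1 - 1 / (2 * s) := by
    rw [sub_nonneg, div_le_one (by linarith)]; linarith
  have h1 : y ^ (2 * s - 1) ≤ (max 0 (-(lamk s W (0 + 1)))) ^ (1 - 1 / (2 * s)) := by
    rw [← rpow_id s y hs' hy]
    apply Real.rpow_le_rpow (by positivity) _ hγ
    apply le_max_of_le_right
    rw [zero_add]; linarith
  have h2 : x ^ (2 * s - 1) ≤ (max 0 (-(lamk s W (1 + 1)))) ^ (1 - 1 / (2 * s)) := by
    rw [← rpow_id s x hs' hx]
    apply Real.rpow_le_rpow (by positivity) _ hγ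
    apply le_max_of_le_right
    have : (1 + 1 : ℕ) = 2 := rfl
    rw [this]; linarith
  linarith

end Pool.Agent.Helper209.FLT
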