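import Pool.Agent.Helper209.CLT1

set_option autoImplicit false
set_option linter.unusedSectionVars false
set_option linter.unusedVariables false
open MeasureTheory Filter Topology Real
open scoped ENNReal InnerProductSpace

namespace Pool.Agent.Helper209.GLT

variable {E : Type} [NormedAddCommGroup E] [InnerProductSpace ℝ E] [FiniteDimensional ℝ E] [MeasurableSpace E] [BorelSpace E]

/-- the dimension as a real number -/
noncomputable abbrev dim (E : Type) [NormedAddCommGroup E] [InnerProductSpace ℝ E] : ℝ := (Module.finrank ℝ E : ℝ)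

noncomputable def sym {E : Type} [NormedAddCommGroup E] (s : ℝ) (ξ : E) : ℝ := (2 * π * ‖ξ‖) ^ (2 * s)

lemma sym_nonneg (s : ℝ) (ξ : E) : 0 ≤ sym s ξ := by
  unfold sym; positivity

lemma sym_cont (s : ℝ) (hs : 0 ≤ s) : Continuous (sym (E := E) s) := by
  unfold sym
  apply Continuous.rpow_const (by fun_prop)
  intro x; right; linarith

lemma sym_scale (s : ℝ) (κ : ℝ) (ξ : E) (hκ : 0 ≤ κ) : sym s (κ • ξ) = κ ^ (2 * s) * sym s ξ := by
  unfold sym
  rw [norm_smul, Real.norm_of_nonneg hκ, ← Real.mul_rpow hκ (by positivity)]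
  congr 1; ring

/-- the resolvent density -/
noncomputable def den (s κ : ℝ) (ξ : E) : ℝ := 1 / (sym s ξ + κ ^ (2 * s))

lemma den_pos (s κ : ℝ) (ξ : E) (hκ : 0 < κ) : 0 < den s κ ξ := by
  unfold den
  have := sym_nonneg s ξ
  positivity

lemma den_cont (s κ : ℝ) (hs : 0 ≤ s) (hκ : 0 < κ) : Continuous (den (E := E) s κ) := by
  unfold den
  apply Continuous.div continuous_const ((sym_cont s hs).add continuous_const)
  intro x
  have := sym_nonneg s x
  have h2 : 0 < κ ^ (2 * s) := by positivity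
  exact (by linarith : 0 < sym s x + κ ^ (2 * s)).ne'

lemma one_add_rpow_le (s : ℝ) (hs : 0 ≤ s) (x : E) : (1 + ‖x‖) ^ (2 * s) ≤ 2 ^ (2 * s) + sym s x := by
  have hsy := sym_nonneg s x
  rcases le_total ‖x‖ 1 with h | h
  · have : (1 + ‖x‖) ^ (2 * s) ≤ 2 ^ (2 * s) := by
      apply Real.rpow_le_rpow (by positivity) (by linarith) (by linarith)
    linarith
  · have : (1 + ‖x‖) ^ (2 * s) ≤ sym s x := by
      unfold sym
      apply Real.rpow_le_rpow (by positivity) _ (by linarith)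
      nlinarith [Real.pi_gt_three]
    have : (0:ℝ) ≤ 2 ^ (2 * s) := by positivity
    linarith

/-- bound of den by a Japanese bracket -/
lemma den_le (s κ : ℝ) (hs : 0 ≤ s) (hκ : 0 < κ) : ∃ C : ℝ, 0 < C ∧ ∀ x : E, den s κ x ≤ C * (1 + ‖x‖) ^ (-(2 * s)) := by
  refine ⟨max 1 (2 ^ (2 * s) / κ ^ (2 * s)), lt_of_lt_of_le one_pos (le_max_left _ _), fun x => ?_⟩
  set C : ℝ := max 1 (2 ^ (2 * s) / κ ^ (2 * s)) with hC
  have hκs : 0 < κ ^ (2 * s) := by positivity
  unfold den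
  have hsy := sym_nonneg s x
  rw [Real.rpow_neg (by positivity), ← div_eq_mul_inv, div_le_div_iff₀ (by positivity) (by positivity)]
  have h2 := one_add_rpow_le s hs x
  have h3 : (2:ℝ) ^ (2 * s) ≤ C * κ ^ (2 * s) := by
    have : 2 ^ (2 * s) / κ ^ (2 * s) ≤ C := le_max_right _ _
    rwa [div_le_iff₀ hκs] at this
  have h4 : sym s x ≤ C * sym s x := by
    have : (1:ℝ) ≤ C := le_max_left _ _
    nlinarith
  nlinarith

lemma pow_den_integrable (s κ q : ℝ) (hs : 0 ≤ s) (hq : 0 ≤ q) (hsq : dim E < 2 * s - q) (hκ : 0 < κ) :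
    Integrable (fun ξ : E => ‖ξ‖ ^ q * den s κ ξ) := by
  obtain ⟨C, hC, hb⟩ := den_le (E := E) s κ hs hκ
  have h1 : Integrable (fun x : E => (1 + ‖x‖) ^ (-(2 * s - q))) := by
    apply integrable_one_add_norm
    simpa using hsq
  apply (h1.const_mul C).mono'
  · apply Continuous.aestronglyMeasurable
    apply Continuous.mul _ (den_cont s κ hs hκ)
    exact Continuous.rpow_const continuous_norm (fun _ => Or.inr hq)
  · refine Eventually.of_forall fun x => ?_
    have hd := den_pos s κ x hκ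
    rw [Real.norm_of_nonneg (by positivity)]
    calc ‖x‖ ^ q * den s κ x ≤ (1 + ‖x‖) ^ q * (C * (1 + ‖x‖) ^ (-(2 * s))) := by
          apply mul_le_mul _ (hb x) hd.le (by positivity)
          apply Real.rpow_le_rpow (norm_nonneg _) (by linarith) hq
      _ = C * (1 + ‖x‖) ^ (-(2 * s - q)) := by
          have : -(2 * s - q) = q + -(2 * s) := by ring
          rw [this, Real.rpow_add (by positivity)]; ring

lemma den_integrable (s κ : ℝ) (hs : dim E / 2 < s) (hκ : 0 < κ) : Integrable (den (E := E) s κ) := by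
  have hn : (0:ℝ) ≤ dim E := Nat.cast_nonneg _
  have := pow_den_integrable (E := E) s κ 0 (by linarith) le_rfl (by linarith) hκ
  simpa using this

noncomputable def I1 (E : Type) [NormedAddCommGroup E] [InnerProductSpace ℝ E] [FiniteDimensional ℝ E] [MeasurableSpace E] [BorelSpace E] (s : ℝ) : ℝ := ∫ ξ : E, den s 1 ξ

lemma den_scale (s κ : ℝ) (ξ : E) (hκ : 0 < κ) : den s κ (κ • ξ) = κ ^ (-(2 * s)) * den s 1 ξ := by
  unfold den
  rw [sym_scale s κ ξ hκ.le, Real.one_rpow, Real.rpow_neg hκ.le]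
  have := sym_nonneg s ξ
  have h2 : 0 < κ ^ (2 * s) := by positivity
  field_simp

lemma integral_den_mul (s κ : ℝ) (hκ : 0 < κ) (w : E → ℝ) :
    ∫ ξ, w ξ * den s κ ξ = κ ^ (dim E - 2 * s) * ∫ ξ, w (κ • ξ) * den s 1 ξ := by
  have h := MeasureTheory.Measure.integral_comp_smul (volume : Measure E) (fun ξ => w ξ * den s κ ξ) κ
  simp only [den_scale s κ _ hκ] at h
  rw [abs_of_pos (by positivity), smul_eq_mul] at h
  have h2 : ∫ ξ, w ξ * den s κ ξ = κ ^ (Module.finrank ℝ E) * ∫ ξ, w (κ • ξ) * (κ ^ (-(2 * s)) * den s 1 ξ) := by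
    rw [h]; field_simp
  rw [h2, sub_eq_add_neg, Real.rpow_add hκ, Real.rpow_natCast]
  rw [mul_assoc]
  congr 1
  rw [← integral_const_mul]
  apply integral_congr_ae
  refine Eventually.of_forall fun ξ => ?_
  simp only
  ring

lemma I1_pos (s : ℝ) (hs : dim E / 2 < s) : 0 < I1 E s := by
  unfold I1
  rw [integral_pos_iff_support_of_nonneg (fun x => (den_pos s 1 x one_pos).le) (den_integrable s 1 hs one_pos)]
  have : Function.support (fun ξ : E => den s 1 ξ) = Set.univ := by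
    ext x; simp [(den_pos s 1 x one_pos).ne']
  rw [this]
  exact Measure.measure_univ_pos.mpr (NeZero.ne _)

/-- normalised density -/
noncomputable def D (E : Type) [NormedAddCommGroup E] [InnerProductSpace ℝ E] [FiniteDimensional ℝ E] [MeasurableSpace E] [BorelSpace E] (s κ : ℝ) (ξ : E) : ℝ := κ ^ (2 * s - dim E) / I1 E s * den s κ ξ

lemma D_pos (s κ : ℝ) (ξ : E) (hs : dim E / 2 < s) (hκ : 0 < κ) : 0 < D E s κ ξ := by
  unfold D
  have := den_pos s κ ξ hκ
  have := I1_pos (E := E) s hs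
  positivity

lemma D_cont (s κ : ℝ) (hs : dim E / 2 < s) (hκ : 0 < κ) : Continuous (D E s κ) := by
  unfold D
  have hn : (0:ℝ) ≤ dim E := Nat.cast_nonneg _
  exact continuous_const.mul (den_cont s κ (by linarith) hκ)

lemma D_integrable (s κ : ℝ) (hs : dim E / 2 < s) (hκ : 0 < κ) : Integrable (D E s κ) := by
  unfold D
  exact (den_integrable s κ hs hκ).const_mul _

lemma D_integral_mul (s κ : ℝ) (hκ : 0 < κ) (w : E → ℝ) :
    ∫ ξ, w ξ * D E s κ ξ = ∫ ξ, w (κ • ξ) * D E s 1 ξ := by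
  have h1 : ∫ ξ, w ξ * D E s κ ξ = κ ^ (2 * s - dim E) / I1 E s * ∫ ξ, w ξ * den s κ ξ := by
    rw [← integral_const_mul]
    congr 1; ext ξ; unfold D; ring
  have h2 : ∫ ξ, w (κ • ξ) * D E s 1 ξ = 1 / I1 E s * ∫ ξ, w (κ • ξ) * den s 1 ξ := by
    rw [← integral_const_mul]
    congr 1; ext ξ; unfold D; rw [Real.one_rpow]; ring
  rw [h1, h2, integral_den_mul s κ hκ]
  have h3 : κ ^ (2 * s - dim E) * κ ^ (dim E - 2 * s) = 1 := by
    rw [← Real.rpow_add hκ]; simp
  calc κ ^ (2 * s - dim E) / I1 E s * (κ ^ (dim E - 2 * s) * ∫ ξ, w (κ • ξ) * den s 1 ξ)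
      = (κ ^ (2 * s - dim E) * κ ^ (dim E - 2 * s)) / I1 E s * ∫ ξ, w (κ • ξ) * den s 1 ξ := by ring
    _ = _ := by rw [h3]

lemma D_integral (s κ : ℝ) (hs : dim E / 2 < s) (hκ : 0 < κ) : ∫ ξ, D E s κ ξ = 1 := by
  have h := D_integral_mul (E := E) s κ hκ (fun _ => 1)
  simp only [one_mul] at h
  rw [h]
  unfold D
  rw [integral_const_mul, Real.one_rpow]
  have : ∫ ξ : E, den s 1 ξ = I1 E s := rfl
  rw [this]
  have := I1_pos (E := E) s hs
  field_simp

/-- the probability measure with density D -/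
noncomputable def P (E : Type) [NormedAddCommGroup E] [InnerProductSpace ℝ E] [FiniteDimensional ℝ E] [MeasurableSpace E] [BorelSpace E] (s κ : ℝ) : Measure E := volume.withDensity (fun ξ => ENNReal.ofReal (D E s κ ξ))

lemma P_prob (s κ : ℝ) (hs : dim E / 2 < s) (hκ : 0 < κ) : IsProbabilityMeasure (P E s κ) := by
  constructor
  unfold P
  rw [withDensity_apply _ MeasurableSet.univ, Measure.restrict_univ,
    ← ofReal_integral_eq_lintegral_ofReal (D_integrable s κ hs hκ) (Eventually.of_forall fun x => (D_pos s κ x hs hκ).le),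
    D_integral s κ hs hκ]
  simp

lemma P_lintegral (s κ : ℝ) (hs : dim E / 2 < s) (hκ : 0 < κ) (g : E → ℝ≥0∞) (hg : Measurable g) :
    ∫⁻ ξ, g ξ ∂(P E s κ) = ∫⁻ ξ, ENNReal.ofReal (D E s κ ξ) * g ξ := by
  unfold P
  rw [lintegral_withDensity_eq_lintegral_mul _ (D_cont s κ hs hκ).measurable.ennreal_ofReal hg]
  rfl

/-- the q-moment -/
noncomputable def mom (q : ℝ) (μ : Measure E) : ℝ≥0∞ := ∫⁻ ξ, ENNReal.ofReal (‖ξ‖ ^ q) ∂μ

lemma norm_pow_meas (q : ℝ) : Measurable (fun ξ : E => ENNReal.ofReal (‖ξ‖ ^ q)) := by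
  exact (measurable_norm.pow_const q).ennreal_ofReal

noncomputable def C0 (E : Type) [NormedAddCommGroup E] [InnerProductSpace ℝ E] [FiniteDimensional ℝ E] [MeasurableSpace E] [BorelSpace E] (s q : ℝ) : ℝ := ∫ ξ : E, ‖ξ‖ ^ q * D E s 1 ξ

lemma C0_nonneg (s q : ℝ) (hs : dim E / 2 < s) : 0 ≤ C0 E s q := by
  unfold C0
  apply integral_nonneg
  intro ξ
  have := D_pos s 1 ξ hs one_pos
  simp only [Pi.zero_apply]
  positivity

lemma mom_P (s κ q : ℝ) (hs : dim E / 2 < s) (hq : 0 ≤ q) (hsq : dim E < 2 * s - q) (hκ : 0 < κ) :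
    mom q (P E s κ) = ENNReal.ofReal (κ ^ q * C0 E s q) := by
  have hn : (0:ℝ) ≤ dim E := Nat.cast_nonneg _
  unfold mom
  rw [P_lintegral s κ hs hκ _ (norm_pow_meas q)]
  have h1 : ∀ ξ : E, ENNReal.ofReal (D E s κ ξ) * ENNReal.ofReal (‖ξ‖ ^ q) = ENNReal.ofReal (‖ξ‖ ^ q * D E s κ ξ) := by
    intro ξ
    rw [← ENNReal.ofReal_mul (D_pos s κ ξ hs hκ).le, mul_comm]
  simp only [h1]
  have hint : Integrable (fun ξ : E => ‖ξ‖ ^ q * D E s κ ξ) := by
    have := (pow_den_integrable (E := E) s κ q (by linarith) hq hsq hκ).const_mul (κ ^ (2 * s - dim E) / I1 E s)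
    refine this.congr (Eventually.of_forall fun ξ => ?_)
    simp only
    unfold D; ring
  rw [← ofReal_integral_eq_lintegral_ofReal hint (Eventually.of_forall fun x => by
    have := D_pos s κ x hs hκ
    simp only [Pi.zero_apply]
    positivity)]
  congr 1
  rw [D_integral_mul s κ hκ (fun ξ => ‖ξ‖ ^ q)]
  unfold C0
  rw [← integral_const_mul]
  congr 1
  ext ξ
  rw [norm_smul, Real.norm_of_nonneg hκ.le, Real.mul_rpow hκ.le (norm_nonneg _)]
  ring

end Pool.Agent.Helper209.GLT
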