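import Pool.Agent.Helper209.GLT2

set_option autoImplicit false
set_option linter.unusedSectionVars false
set_option linter.unusedVariables false
open MeasureTheory Filter Topology Real
open scoped ENNReal InnerProductSpace

namespace Pool.Agent.Helper209.GLT

variable {E : Type} [NormedAddCommGroup E] [InnerProductSpace ℝ E] [FiniteDimensional ℝ E] [MeasurableSpace E] [BorelSpace E]

/-- half a point mass plus half of P -/
noncomputable def tau (E : Type) [NormedAddCommGroup E] [InnerProductSpace ℝ E] [FiniteDimensional ℝ E] [MeasurableSpace E] [BorelSpace E] (s κ : ℝ) : Measure E := (2⁻¹ : ℝ≥0∞) • Measure.dirac 0 + (2⁻¹ : ℝ≥0∞) • P E s κ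

lemma tau_prob (s κ : ℝ) (hs : dim E / 2 < s) (hκ : 0 < κ) : IsProbabilityMeasure (tau E s κ) := by
  constructor
  have := P_prob (E := E) s κ hs hκ
  unfold tau
  simp only [Measure.add_apply, Measure.smul_apply, smul_eq_mul, measure_univ, mul_one]
  exact ENNReal.inv_two_add_inv_two

lemma tau_lintegral (s κ : ℝ) (g : E → ℝ≥0∞) (hg : Measurable g) :
    ∫⁻ ξ, g ξ ∂(tau E s κ) = 2⁻¹ * g 0 + 2⁻¹ * ∫⁻ ξ, g ξ ∂(P E s κ) := by
  unfold tau
  rw [lintegral_add_measure, lintegral_smul_measure, lintegral_smul_measure, lintegral_dirac' _ hg]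
  rfl

/-- iterated convolutions over dyadic scales -/
noncomputable def L (E : Type) [NormedAddCommGroup E] [InnerProductSpace ℝ E] [FiniteDimensional ℝ E] [MeasurableSpace E] [BorelSpace E] (s lam : ℝ) : ℕ → Measure E
  | 0 => Measure.dirac 0
  | k + 1 => (L E s lam k).conv (tau E s (lam * 2 ^ k))

lemma L_prob (s lam : ℝ) (hs : dim E / 2 < s) (hl : 0 < lam) (k : ℕ) : IsProbabilityMeasure (L E s lam k) := by
  induction k with
  | zero => unfold L; infer_instance
  | succ k ih =>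
    unfold L
    have := tau_prob (E := E) s (lam * 2 ^ k) hs (by positivity)
    infer_instance

lemma mom_conv (q : ℝ) (hq : 0 ≤ q) (hq1 : q ≤ 1) (μ ν : Measure E) [IsProbabilityMeasure μ] [IsProbabilityMeasure ν] :
    mom q (μ.conv ν) ≤ mom q μ + mom q ν := by
  unfold mom
  rw [Measure.lintegral_conv (norm_pow_meas q)]
  calc ∫⁻ x, ∫⁻ y, ENNReal.ofReal (‖x + y‖ ^ q) ∂ν ∂μ
      ≤ ∫⁻ x, ∫⁻ y, (ENNReal.ofReal (‖x‖ ^ q) + ENNReal.ofReal (‖y‖ ^ q)) ∂ν ∂μ := by
        apply lintegral_mono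
        intro x
        apply lintegral_mono
        intro y
        simp only
        rw [← ENNReal.ofReal_add (by positivity) (by positivity)]
        apply ENNReal.ofReal_le_ofReal
        calc ‖x + y‖ ^ q ≤ (‖x‖ + ‖y‖) ^ q := Real.rpow_le_rpow (norm_nonneg _) (norm_add_le _ _) hq
          _ ≤ ‖x‖ ^ q + ‖y‖ ^ q := Real.rpow_add_le_add_rpow (norm_nonneg _) (norm_nonneg _) hq hq1
    _ = _ := by
        have h1 : ∀ x : E, ∫⁻ y, (ENNReal.ofReal (‖x‖ ^ q) + ENNReal.ofReal (‖y‖ ^ q)) ∂ν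
            = ENNReal.ofReal (‖x‖ ^ q) + ∫⁻ y, ENNReal.ofReal (‖y‖ ^ q) ∂ν := by
          intro x
          rw [lintegral_add_left measurable_const]
          simp
        simp only [h1]
        rw [lintegral_add_right _ measurable_const]
        simp

lemma mom_tau (s κ q : ℝ) (hs : dim E / 2 < s) (hq : 0 < q) (hsq : dim E < 2 * s - q) (hκ : 0 < κ) :
    mom q (tau E s κ) ≤ ENNReal.ofReal (κ ^ q * C0 E s q) := by
  unfold mom
  rw [tau_lintegral s κ _ (norm_pow_meas q)]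
  have h1 : ENNReal.ofReal (‖(0 : E)‖ ^ q) = 0 := by
    rw [norm_zero, Real.zero_rpow hq.ne']; simp
  rw [h1, mul_zero, zero_add]
  have h2 := mom_P (E := E) s κ q hs hq.le hsq hκ
  unfold mom at h2
  rw [h2]
  calc 2⁻¹ * ENNReal.ofReal (κ ^ q * C0 E s q) ≤ 1 * ENNReal.ofReal (κ ^ q * C0 E s q) := by
        gcongr
        exact ENNReal.inv_le_one.mpr (by norm_num)
    _ = _ := one_mul _

lemma mom_L (s lam q : ℝ) (hs : dim E / 2 < s) (hq : 0 < q) (hq1 : q ≤ 1) (hsq : dim E < 2 * s - q) (hl : 0 < lam) (k : ℕ) :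
    mom q (L E s lam k) ≤ ENNReal.ofReal (C0 E s q / (2 ^ q - 1) * (lam * 2 ^ k) ^ q) := by
  have h2q : 0 < (2:ℝ) ^ q - 1 := by
    have : (1:ℝ) < 2 ^ q := Real.one_lt_rpow (by norm_num) hq
    linarith
  have hC := C0_nonneg (E := E) s q hs
  induction k with
  | zero =>
    unfold L mom
    rw [lintegral_dirac' _ (norm_pow_meas q), norm_zero, Real.zero_rpow hq.ne']
    simp
  | succ k ih =>
    unfold L
    have := tau_prob (E := E) s (lam * 2 ^ k) hs (by positivity)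
    have := L_prob (E := E) s lam hs hl k
    refine (mom_conv q hq.le hq1 _ _).trans ?_
    refine (add_le_add ih (mom_tau s (lam * 2 ^ k) q hs hq hsq (by positivity))).trans ?_
    rw [← ENNReal.ofReal_add (by positivity) (by positivity)]
    apply ENNReal.ofReal_le_ofReal
    have h3 : (lam * 2 ^ (k + 1)) ^ q = 2 ^ q * (lam * 2 ^ k) ^ q := by
      rw [← Real.mul_rpow (by norm_num) (by positivity)]
      congr 1; ring
    rw [h3]
    apply le_of_eq
    field_simp
    ring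

/-- the bulk has mass at least one half -/
lemma bulk (s q : ℝ) (hs : dim E / 2 < s) (hq : 0 < q) (hq1 : q ≤ 1) (hsq : dim E < 2 * s - q) :
    ∃ R : ℝ, 0 < R ∧ ∀ lam : ℝ, 0 < lam → ∀ k : ℕ, 2⁻¹ ≤ L E s lam k {z | ‖z‖ < R * (lam * 2 ^ k)} := by
  have h2q : 0 < (2:ℝ) ^ q - 1 := by
    have : (1:ℝ) < 2 ^ q := Real.one_lt_rpow (by norm_num) hq
    linarith
  have hC := C0_nonneg (E := E) s q hs
  set A := C0 E s q / (2 ^ q - 1) with hA
  have hA0 : 0 ≤ A := by positivity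
  set R := (2 * A + 1) ^ (1 / q) with hR
  have hRpos : 0 < R := by positivity
  have hRq : R ^ q = 2 * A + 1 := by
    rw [hR, ← Real.rpow_mul (by positivity)]
    have : 1 / q * q = 1 := by field_simp
    rw [this, Real.rpow_one]
  refine ⟨R, hRpos, fun lam hl k => ?_⟩
  have := L_prob (E := E) s lam hs hl k
  set r := lam * 2 ^ k with hr
  have hrpos : 0 < r := by positivity
  have hmk := mul_meas_ge_le_lintegral (μ := L E s lam k) (norm_pow_meas (E := E) q) (ENNReal.ofReal ((R * r) ^ q))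
  have hmom := mom_L (E := E) s lam q hs hq hq1 hsq hl k
  unfold mom at hmom
  have h1 := hmk.trans hmom
  set B := {x : E | ENNReal.ofReal ((R * r) ^ q) ≤ ENNReal.ofReal (‖x‖ ^ q)} with hB
  have hBc : Bᶜ ⊆ {z | ‖z‖ < R * r} := by
    intro x hx
    simp only [hB, Set.mem_compl_iff, Set.mem_ofPred_eq, not_le] at hx ⊢
    by_contra hcon
    push Not at hcon
    have : (R * r) ^ q ≤ ‖x‖ ^ q := Real.rpow_le_rpow (by positivity) hcon hq.le
    exact absurd (ENNReal.ofReal_le_ofReal this) (not_le.mpr hx)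
  have hBm : MeasurableSet B := measurableSet_le measurable_const (norm_pow_meas q)
  -- measure of B at most 1/2
  have hBle : L E s lam k B ≤ 2⁻¹ := by
    have h3 : ENNReal.ofReal ((R * r) ^ q) = ENNReal.ofReal (2 * A + 1) * ENNReal.ofReal (r ^ q) := by
      rw [Real.mul_rpow hRpos.le hrpos.le, hRq, ENNReal.ofReal_mul (by positivity)]
    have h4 : ENNReal.ofReal (A * r ^ q) ≤ 2⁻¹ * ENNReal.ofReal ((R * r) ^ q) := by
      have e : (2⁻¹ : ℝ≥0∞) = ENNReal.ofReal (1 / 2) := by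
        rw [ENNReal.ofReal_div_of_pos (by norm_num)]; simp
      rw [e, ← ENNReal.ofReal_mul (by norm_num)]
      apply ENNReal.ofReal_le_ofReal
      rw [Real.mul_rpow hRpos.le hrpos.le, hRq]
      have : 0 ≤ r ^ q := by positivity
      nlinarith
    have h5 := h1.trans h4
    have hpos : ENNReal.ofReal ((R * r) ^ q) ≠ 0 := by
      rw [Ne, ENNReal.ofReal_eq_zero, not_le]; positivity
    rw [mul_comm] at h5
    exact (ENNReal.mul_le_mul_iff_left hpos ENNReal.ofReal_ne_top).mp h5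
  have h6 : L E s lam k Bᶜ = 1 - L E s lam k B := prob_compl_eq_one_sub hBm
  calc (2⁻¹ : ℝ≥0∞) = 1 - 2⁻¹ := ENNReal.one_sub_inv_two.symm
    _ ≤ 1 - L E s lam k B := tsub_le_tsub_left hBle 1
    _ = L E s lam k Bᶜ := h6.symm
    _ ≤ _ := measure_mono hBc

lemma sym_shift (s R r : ℝ) (hs : 0 ≤ s) (hR : 0 < R) (hr : 0 < r) (ξ z : E) (hz : ‖z‖ < R * r) :
    sym s (ξ - z) + r ^ (2 * s) ≤ (2 ^ (2 * s) * (1 + (2 * π * R) ^ (2 * s)) + 1) * (sym s ξ + r ^ (2 * s)) := by
  have h1 : sym s (ξ - z) ≤ 2 ^ (2 * s) * (sym s ξ + (2 * π * R) ^ (2 * s) * r ^ (2 * s)) := by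
    unfold sym
    have h2 : 2 * π * ‖ξ - z‖ ≤ 2 * max (2 * π * ‖ξ‖) (2 * π * R * r) := by
      have : ‖ξ - z‖ ≤ ‖ξ‖ + R * r := (norm_sub_le _ _).trans (by linarith)
      have h3 : 2 * π * ‖ξ - z‖ ≤ 2 * π * ‖ξ‖ + 2 * π * R * r := by
        have := mul_le_mul_of_nonneg_left this (show 0 ≤ 2 * π by positivity)
        linarith
      have h4 := le_max_left (2 * π * ‖ξ‖) (2 * π * R * r)
      have h5 := le_max_right (2 * π * ‖ξ‖) (2 * π * R * r)
      linarith
    calc (2 * π * ‖ξ - z‖) ^ (2 * s) ≤ (2 * max (2 * π * ‖ξ‖) (2 * π * R * r)) ^ (2 * s) :=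
          Real.rpow_le_rpow (by positivity) h2 (by linarith)
      _ = 2 ^ (2 * s) * (max (2 * π * ‖ξ‖) (2 * π * R * r)) ^ (2 * s) := by
          rw [Real.mul_rpow (by norm_num) (by positivity)]
      _ ≤ 2 ^ (2 * s) * ((2 * π * ‖ξ‖) ^ (2 * s) + (2 * π * R) ^ (2 * s) * r ^ (2 * s)) := by
          apply mul_le_mul_of_nonneg_left _ (by positivity)
          rw [← Real.mul_rpow (by positivity) hr.le]
          rcases max_cases (2 * π * ‖ξ‖) (2 * π * R * r) with ⟨h, -⟩ | ⟨h, -⟩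
          · rw [h]
            have : 0 ≤ (2 * π * R * r) ^ (2 * s) := by positivity
            linarith
          · rw [h]
            have : 0 ≤ (2 * π * ‖ξ‖) ^ (2 * s) := by positivity
            linarith
  have h3 := sym_nonneg s ξ
  have h4 : 0 < r ^ (2 * s) := by positivity
  have h5 : 0 ≤ (2:ℝ) ^ (2 * s) := by positivity
  have h6 : 0 ≤ (2 * π * R) ^ (2 * s) := by positivity
  have h7 : 0 ≤ 2 ^ (2 * s) * ((2 * π * R) ^ (2 * s) * sym s ξ) := by positivity
  have h8 : 0 ≤ 2 ^ (2 * s) * r ^ (2 * s) := by positivity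
  nlinarith

/-- lower bound of iterated convolution by P -/
lemma L_lower (s q : ℝ) (hs : dim E / 2 < s) (hq : 0 < q) (hq1 : q ≤ 1) (hsq : dim E < 2 * s - q) :
    ∃ c : ℝ, 0 < c ∧ ∀ lam : ℝ, 0 < lam → ∀ k : ℕ, ∀ g : E → ℝ≥0∞, Measurable g →
      ENNReal.ofReal c * ∫⁻ ξ, ENNReal.ofReal (D E s (lam * 2 ^ k) ξ) * g ξ ≤ ∫⁻ ξ, g ξ ∂(L E s lam (k + 1)) := by
  have hn : (0:ℝ) ≤ dim E := Nat.cast_nonneg _
  obtain ⟨R, hR, hbulk⟩ := bulk (E := E) s q hs hq hq1 hsq
  set K := (2:ℝ) ^ (2 * s) * (1 + (2 * π * R) ^ (2 * s)) + 1 with hK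
  have hKpos : 0 < K := by positivity
  refine ⟨1 / 4 * (1 / K), by positivity, fun lam hl k g hg => ?_⟩
  set r := lam * 2 ^ k with hr
  have hrpos : 0 < r := by positivity
  have hprob := L_prob (E := E) s lam hs hl k
  have hprobt := tau_prob (E := E) s r hs hrpos
  have hDm : Measurable (fun ξ => ENNReal.ofReal (D E s r ξ)) := (D_cont s r hs hrpos).measurable.ennreal_ofReal
  -- pointwise comparison
  have hcmp : ∀ z : E, ‖z‖ < R * r → ENNReal.ofReal (1 / K) * ∫⁻ ξ, ENNReal.ofReal (D E s r ξ) * g ξ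
      ≤ ∫⁻ ξ, g (z + ξ) ∂(P E s r) := by
    intro z hz
    have hgz : Measurable (fun ξ => g (z + ξ)) := hg.comp (measurable_const_add z)
    rw [P_lintegral s r hs hrpos _ hgz]
    have h1 : ∫⁻ ξ, ENNReal.ofReal (D E s r ξ) * g (z + ξ) = ∫⁻ ξ, ENNReal.ofReal (D E s r (ξ - z)) * g ξ := by
      rw [← lintegral_add_left_eq_self (fun ξ => ENNReal.ofReal (D E s r (ξ - z)) * g ξ) z]
      simp
    have hm2 : Measurable (fun ξ => ENNReal.ofReal (D E s r ξ) * g ξ) := hDm.mul hg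
    rw [h1, ← lintegral_const_mul _ hm2]
    apply lintegral_mono
    intro ξ
    simp only
    rw [← mul_assoc, ← ENNReal.ofReal_mul (by positivity)]
    gcongr
    unfold D den
    have h2 := sym_shift s R r (by linarith) hR hrpos ξ z hz
    have hI := I1_pos (E := E) s hs
    have h3 := sym_nonneg s ξ
    have h4 := sym_nonneg s (ξ - z)
    have h5 : 1 / K * (1 / (sym s ξ + r ^ (2 * s))) ≤ 1 / (sym s (ξ - z) + r ^ (2 * s)) := by
      rw [one_div_mul_one_div]
      apply one_div_le_one_div_of_le (by positivity) h2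
    calc 1 / K * (r ^ (2 * s - dim E) / I1 E s * (1 / (sym s ξ + r ^ (2 * s))))
        = r ^ (2 * s - dim E) / I1 E s * (1 / K * (1 / (sym s ξ + r ^ (2 * s)))) := by ring
      _ ≤ r ^ (2 * s - dim E) / I1 E s * (1 / (sym s (ξ - z) + r ^ (2 * s))) := by gcongr
  set X := ∫⁻ ξ, ENNReal.ofReal (D E s r ξ) * g ξ with hX
  have hS : MeasurableSet {z : E | ‖z‖ < R * r} := measurableSet_lt measurable_norm measurable_const
  have hstep : ∫⁻ ξ, g ξ ∂(L E s lam (k + 1)) = ∫⁻ z, ∫⁻ ξ, g (z + ξ) ∂(tau E s r) ∂(L E s lam k) := by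
    show ∫⁻ ξ, g ξ ∂((L E s lam k).conv (tau E s r)) = _
    rw [Measure.lintegral_conv hg]
  rw [hstep]
  calc ENNReal.ofReal (1 / 4 * (1 / K)) * X = 2⁻¹ * (2⁻¹ * (ENNReal.ofReal (1 / K) * X)) := by
        rw [ENNReal.ofReal_mul (by norm_num), ← mul_assoc, ← mul_assoc]
        congr 2
        have e : (2⁻¹ : ℝ≥0∞) = ENNReal.ofReal (1 / 2) := by
          rw [ENNReal.ofReal_div_of_pos (by norm_num)]; simp
        rw [e, ← ENNReal.ofReal_mul (by norm_num)]
        norm_num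
    _ ≤ (2⁻¹ * (ENNReal.ofReal (1 / K) * X)) * L E s lam k {z | ‖z‖ < R * r} := by
        rw [mul_comm]
        gcongr
        exact hbulk lam hl k
    _ = ∫⁻ z in {z | ‖z‖ < R * r}, (2⁻¹ * (ENNReal.ofReal (1 / K) * X)) ∂(L E s lam k) := by
        rw [setLIntegral_const]
    _ ≤ ∫⁻ z in {z | ‖z‖ < R * r}, ∫⁻ ξ, g (z + ξ) ∂(tau E s r) ∂(L E s lam k) := by
        apply setLIntegral_mono' hS
        intro z hz
        have hgz : Measurable (fun ξ => g (z + ξ)) := hg.comp (measurable_const_add z)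
        rw [tau_lintegral s r _ hgz]
        refine le_trans ?_ (le_add_left le_rfl)
        gcongr
        exact hcmp z hz
    _ ≤ _ := setLIntegral_le_lintegral _ _

lemma L_semigroup (s lam : ℝ) (hs : dim E / 2 < s) (hl : 0 < lam) (k l : ℕ) :
    ∃ X : Measure E, IsProbabilityMeasure X ∧ L E s lam (k + l) = X.conv (L E s lam k) := by
  induction l with
  | zero =>
    have := L_prob (E := E) s lam hs hl k
    refine ⟨Measure.dirac 0, inferInstance, ?_⟩
    simp
  | succ l ih =>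
    obtain ⟨X, hX, hXe⟩ := ih
    have := L_prob (E := E) s lam hs hl k
    have := L_prob (E := E) s lam hs hl (k + l)
    have := tau_prob (E := E) s (lam * 2 ^ (k + l)) hs (by positivity)
    refine ⟨X.conv (tau E s (lam * 2 ^ (k + l))), inferInstance, ?_⟩
    show (L E s lam (k + l)).conv (tau E s (lam * 2 ^ (k + l))) = _
    rw [hXe, Measure.conv_assoc, Measure.conv_comm (L E s lam k), ← Measure.conv_assoc]

/-- comparison of D at comparable scales -/
lemma D_compare (s κ r : ℝ) (hs : dim E / 2 < s) (hr : 0 < r) (h1 : r ≤ κ) (h2 : κ ≤ 2 * r) (ξ : E) :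
    (1 / 2 ^ (2 * s - dim E)) * D E s κ ξ ≤ D E s r ξ := by
  have hn : (0:ℝ) ≤ dim E := Nat.cast_nonneg _
  have hκ : 0 < κ := lt_of_lt_of_le hr h1
  have hI := I1_pos (E := E) s hs
  have hsy := sym_nonneg s ξ
  unfold D den
  have h3 : κ ^ (2 * s - dim E) ≤ 2 ^ (2 * s - dim E) * r ^ (2 * s - dim E) := by
    rw [← Real.mul_rpow (by norm_num) hr.le]
    exact Real.rpow_le_rpow hκ.le h2 (by linarith)
  have h4 : 1 / (sym s ξ + κ ^ (2 * s)) ≤ 1 / (sym s ξ + r ^ (2 * s)) := by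
    apply one_div_le_one_div_of_le (by positivity)
    have : r ^ (2 * s) ≤ κ ^ (2 * s) := Real.rpow_le_rpow hr.le h1 (by linarith)
    linarith
  have h5 : 0 < (2:ℝ) ^ (2 * s - dim E) := by positivity
  calc (1 / 2 ^ (2 * s - dim E)) * (κ ^ (2 * s - dim E) / I1 E s * (1 / (sym s ξ + κ ^ (2 * s))))
      ≤ (1 / 2 ^ (2 * s - dim E)) * ((2 ^ (2 * s - dim E) * r ^ (2 * s - dim E)) / I1 E s * (1 / (sym s ξ + r ^ (2 * s)))) := by
        gcongr
    _ = _ := by field_simp

/-- the dominating family of measures -/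
theorem dom (s : ℝ) (hs : dim E / 2 < s) : ∃ c : ℝ, 0 < c ∧ ∀ (κ : ℕ → ℝ) (lam : ℝ), 0 < lam → Antitone κ →
    (∀ j, lam ≤ κ j) → ∃ ν μ : ℕ → Measure E, (∀ j, IsProbabilityMeasure (ν j)) ∧ (∀ j, IsProbabilityMeasure (μ j)) ∧
      (∀ j, ν j = (μ j).conv (ν (j + 1))) ∧
      ∀ j (g : E → ℝ≥0∞), Measurable g → ENNReal.ofReal c * ∫⁻ ξ, ENNReal.ofReal (D E s (κ j) ξ) * g ξ ≤ ∫⁻ ξ, g ξ ∂(ν j) := by
  have hn : (0:ℝ) ≤ dim E := Nat.cast_nonneg _
  set q : ℝ := min 1 ((2 * s - dim E) / 2) with hq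
  have hq0 : 0 < q := lt_min one_pos (by linarith)
  have hq1 : q ≤ 1 := min_le_left _ _
  have hq2 : q ≤ (2 * s - dim E) / 2 := min_le_right _ _
  obtain ⟨c, hc, hlow⟩ := L_lower (E := E) s q hs hq0 hq1 (by linarith)
  refine ⟨c * (1 / 2 ^ (2 * s - dim E)), by positivity, fun κ lam hl hanti hge => ?_⟩
  set i : ℕ → ℕ := fun j => ⌊Real.logb 2 (κ j / lam)⌋₊ with hi
  have hκpos : ∀ j, 0 < κ j := fun j => lt_of_lt_of_le hl (hge j)
  have hlog0 : ∀ j, 0 ≤ Real.logb 2 (κ j / lam) := by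
    intro j
    apply Real.logb_nonneg (by norm_num)
    rw [le_div_iff₀ hl]; linarith [hge j]
  have hlow1 : ∀ j, lam * 2 ^ (i j) ≤ κ j := by
    intro j
    have h1 : ((i j : ℕ) : ℝ) ≤ Real.logb 2 (κ j / lam) := Nat.floor_le (hlog0 j)
    have h2 : (2:ℝ) ^ ((i j : ℕ) : ℝ) ≤ κ j / lam := by
      rw [← Real.le_logb_iff_rpow_le (by norm_num) (by have := hκpos j; positivity)]
      exact h1
    rw [Real.rpow_natCast, le_div_iff₀ hl] at h2
    linarith
  have hup1 : ∀ j, κ j ≤ 2 * (lam * 2 ^ (i j)) := by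
    intro j
    have h1 : Real.logb 2 (κ j / lam) < (i j : ℝ) + 1 := Nat.lt_floor_add_one _
    have h2 : κ j / lam < (2:ℝ) ^ ((i j : ℝ) + 1) := by
      rw [← Real.logb_lt_iff_lt_rpow (by norm_num) (by have := hκpos j; positivity)]
      exact h1
    rw [Real.rpow_add (by norm_num), Real.rpow_natCast, Real.rpow_one, div_lt_iff₀ hl] at h2
    linarith
  have hmono : ∀ j, i (j + 1) ≤ i j := by
    intro j
    apply Nat.floor_le_floor
    apply Real.logb_le_logb_of_le (by norm_num) (by have := hκpos (j + 1); positivity)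
    have := hanti (Nat.le_succ j)
    gcongr
  have hsem : ∀ j, ∃ X : Measure E, IsProbabilityMeasure X ∧ L E s lam (i j + 1) = X.conv (L E s lam (i (j + 1) + 1)) := by
    intro j
    obtain ⟨X, hX, hXe⟩ := L_semigroup (E := E) s lam hs hl (i (j + 1) + 1) (i j - i (j + 1))
    refine ⟨X, hX, ?_⟩
    rw [← hXe]
    congr 1
    have := hmono j
    omega
  choose μ hμ1 hμ2 using hsem
  refine ⟨fun j => L E s lam (i j + 1), μ, fun j => L_prob s lam hs hl _, hμ1, hμ2, ?_⟩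
  intro j g hg
  refine le_trans ?_ (hlow lam hl (i j) g hg)
  have hκm : Measurable (fun ξ => ENNReal.ofReal (D E s (κ j) ξ)) := (D_cont s (κ j) hs (hκpos j)).measurable.ennreal_ofReal
  rw [ENNReal.ofReal_mul hc.le, mul_assoc]
  gcongr
  have hm2 : Measurable (fun ξ => ENNReal.ofReal (D E s (κ j) ξ) * g ξ) := hκm.mul hg
  rw [← lintegral_const_mul _ hm2]
  apply lintegral_mono
  intro ξ
  simp only
  rw [← mul_assoc, ← ENNReal.ofReal_mul (by positivity)]
  gcongr
  exact D_compare s (κ j) (lam * 2 ^ (i j)) hs (by positivity) (hlow1 j) (hup1 j) ξ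

end Pool.Agent.Helper209.GLT
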