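import Pool.Agent.Helper209.GLT3

set_option autoImplicit false
set_option linter.unusedSectionVars false
set_option linter.unusedVariables false
open MeasureTheory Filter Topology Real
open scoped ENNReal InnerProductSpace FourierTransform SchwartzMap ContDiff

namespace Pool.Agent.Helper209.GLT

variable {E : Type} [NormedAddCommGroup E] [InnerProductSpace ℝ E] [FiniteDimensional ℝ E] [MeasurableSpace E] [BorelSpace E]

/-- square integrable functions -/
noncomputable abbrev L2 (E : Type) [NormedAddCommGroup E] [InnerProductSpace ℝ E] [FiniteDimensional ℝ E] [MeasurableSpace E] [BorelSpace E] := Lp ℂ 2 (volume : Measure E)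

/-- inverse Fourier integral written out -/
lemma fInv_apply (h : E → ℂ) (x : E) :
    (𝓕⁻ h) x = ∫ ξ, Complex.exp ((2 * π * ⟪ξ, x⟫_ℝ : ℝ) * Complex.I) * h ξ := by
  rw [Real.fourierInv_eq']
  congr 1

lemma fInv_cont (h : E → ℂ) (hh : Integrable h) : Continuous (𝓕⁻ h) := by
  have : 𝓕⁻ h = fun x => ∫ ξ, Complex.exp ((2 * π * ⟪ξ, x⟫_ℝ : ℝ) * Complex.I) * h ξ := by
    ext x; exact fInv_apply h x
  rw [this]
  apply continuous_of_dominated (bound := fun ξ => ‖h ξ‖)
  · intro x
    apply AEStronglyMeasurable.mul _ hh.aestronglyMeasurable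
    apply Continuous.aestronglyMeasurable
    fun_prop
  · intro x
    refine Eventually.of_forall fun ξ => ?_
    rw [norm_mul, Complex.norm_exp_ofReal_mul_I, one_mul]
  · exact hh.norm
  · refine Eventually.of_forall fun ξ => ?_
    fun_prop

/-- pointwise Fourier inversion for L2 functions with integrable transform -/
lemma L2_inversion (u : L2 E) (hh : Integrable (fun ξ => (𝓕 u : L2 E) ξ)) :
    ∀ᵐ x, u x = (𝓕⁻ (fun ξ => (𝓕 u : L2 E) ξ)) x := by
  set h : E → ℂ := fun ξ => (𝓕 u : L2 E) ξ with hhd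
  have hu : LocallyIntegrable (fun x => u x) := (Lp.memLp u).locallyIntegrable (by norm_num)
  have hw : LocallyIntegrable (𝓕⁻ h) := (fInv_cont h hh).locallyIntegrable
  apply ae_eq_of_integral_contDiff_smul_eq hu hw
  intro g hg hgc
  -- complexify
  set gc : E → ℂ := fun x => (g x : ℂ) with hgcd
  have hgs : ContDiff ℝ ∞ gc := Complex.ofRealCLM.contDiff.comp hg
  have hgcc : HasCompactSupport gc := by
    apply hgc.mono'
    intro x hx
    apply subset_tsupport
    intro h0
    apply hx
    simp only [hgcd]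
    rw [h0]; simp
  set φ : 𝓢(E, ℂ) := hgcc.toSchwartzMap hgs with hφ
  have hφx : ∀ x, φ x = (g x : ℂ) := fun x => rfl
  -- left side as inner product
  have h1 : ∫ x, g x • u x = ⟪φ.toLp 2 volume, u⟫_ℂ := by
    rw [L2.inner_def]
    apply integral_congr_ae
    filter_upwards [φ.coeFn_toLp 2 volume] with x hx
    rw [hx, hφx]
    simp [Complex.real_smul, mul_comm]
  have h2 : ⟪φ.toLp 2 volume, u⟫_ℂ = ⟪(𝓕 φ).toLp 2 volume, 𝓕 u⟫_ℂ := by
    rw [← SchwartzMap.toLp_fourier_eq, Lp.inner_fourier_eq]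
  have h3 : ⟪(𝓕 φ).toLp 2 volume, 𝓕 u⟫_ℂ = ∫ ξ, (starRingEnd ℂ) ((𝓕 φ) ξ) * h ξ := by
    rw [L2.inner_def]
    apply integral_congr_ae
    filter_upwards [(𝓕 φ).coeFn_toLp 2 volume] with x hx
    rw [hx]
    simp [hhd, mul_comm]
  have h4 : ∫ ξ, (starRingEnd ℂ) ((𝓕 φ) ξ) * h ξ = ∫ x, (starRingEnd ℂ) (φ x) * (𝓕⁻ h) x := by
    have := VectorFourier.integral_sesq_fourierIntegral_eq_neg_flip (innerSL ℂ (E := ℂ)) (L := innerₗ (E))
      (μ := volume) (ν := volume) Real.continuous_fourierChar continuous_inner φ.integrable hh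
    have e1 : ∀ ξ, VectorFourier.fourierIntegral Real.fourierChar volume (innerₗ (E)) (⇑φ) ξ = (𝓕 φ) ξ := fun ξ => rfl
    have e2 : ∀ x, VectorFourier.fourierIntegral Real.fourierChar volume (-(innerₗ (E)).flip) h x = (𝓕⁻ h) x := by
      intro x
      rw [Real.fourierInv_eq]
      unfold VectorFourier.fourierIntegral
      congr 1
      ext v
      congr 2
      simp
    simp only [e1, e2] at this
    have e3 : ∀ a b : ℂ, (innerSL ℂ a) b = (starRingEnd ℂ) a * b := by
      intro a b
      rw [innerSL_apply_apply, RCLike.inner_apply, mul_comm]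
    simp only [e3] at this
    exact this
  have h5 : ∫ x, (starRingEnd ℂ) (φ x) * (𝓕⁻ h) x = ∫ x, g x • (𝓕⁻ h) x := by
    congr 1
    ext x
    rw [hφx, Complex.conj_ofReal, Complex.real_smul]
  rw [h1, h2, h3, h4, h5]

end Pool.Agent.Helper209.GLT
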