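import Pool.Agent.Helper209.GLT4

set_option autoImplicit false
set_option linter.unusedSectionVars false
set_option linter.unusedVariables false
open MeasureTheory Filter Topology Real
open scoped ENNReal InnerProductSpace FourierTransform SchwartzMap ContDiff

namespace Pool.Agent.Helper209.GLT

variable {E : Type} [NormedAddCommGroup E] [InnerProductSpace ℝ E] [FiniteDimensional ℝ E] [MeasurableSpace E] [BorelSpace E]

lemma L2_sq_integrable (u : L2 E) : Integrable (fun x => ‖u x‖ ^ 2) :=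
  (memLp_two_iff_integrable_sq_norm (Lp.aestronglyMeasurable u)).mp (Lp.memLp u)

lemma L2_norm_sq (u : L2 E) : ‖u‖ ^ 2 = ∫ x, ‖u x‖ ^ 2 := by
  have h := L2.inner_def (𝕜 := ℂ) u u
  have h1 : ⟪u, u⟫_ℂ = ((‖u‖ ^ 2 : ℝ) : ℂ) := by
    rw [inner_self_eq_norm_sq_to_K]; push_cast; rfl
  have h2 : ∫ x, ⟪u x, u x⟫_ℂ = ((∫ x, ‖u x‖ ^ 2 : ℝ) : ℂ) := by
    rw [← integral_complex_ofReal]
    congr 1
    ext x
    rw [inner_self_eq_norm_sq_to_K]; push_cast; rfl
  rw [h1, h2] at h
  exact_mod_cast h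

/-- the transform of a function with finite kinetic energy is integrable -/
lemma F_integrable (s : ℝ) (hs : dim E / 2 < s) (u : L2 E) (hk : Integrable (fun ξ => sym s ξ * ‖(𝓕 u : L2 E) ξ‖ ^ 2)) :
    Integrable (fun ξ => (𝓕 u : L2 E) ξ) := by
  have h1 : Integrable (fun ξ => sym s ξ * ‖(𝓕 u : L2 E) ξ‖ ^ 2 + ‖(𝓕 u : L2 E) ξ‖ ^ 2 + den s 1 ξ) :=
    (hk.add (L2_sq_integrable (𝓕 u))).add (den_integrable s 1 hs one_pos)
  refine h1.mono' (Lp.aestronglyMeasurable _) (Eventually.of_forall fun ξ => ?_)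
  have hsy := sym_nonneg s ξ
  unfold den
  rw [Real.one_rpow]
  set v := ‖(𝓕 u : L2 E) ξ‖ with hv
  set m := sym s ξ + 1 with hm
  have hmpos : 0 < m := by positivity
  have h2 : 0 ≤ (m * v - 1) ^ 2 / m := by positivity
  have h3 : (m * v - 1) ^ 2 / m = m * v ^ 2 - 2 * v + 1 / m := by
    field_simp
    ring
  have h4 : 0 ≤ v := norm_nonneg _
  rw [h3] at h2
  have h5 : sym s ξ * v ^ 2 + v ^ 2 = m * v ^ 2 := by rw [hm]; ring
  rw [h5]
  linarith

/-- functions of finite kinetic energy are essentially bounded -/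
lemma bounded_ae (s : ℝ) (hs : dim E / 2 < s) (u : L2 E) (hk : Integrable (fun ξ => sym s ξ * ‖(𝓕 u : L2 E) ξ‖ ^ 2)) :
    ∃ B : ℝ, ∀ᵐ x, ‖u x‖ ≤ B := by
  have hF := F_integrable s hs u hk
  refine ⟨∫ ξ, ‖(𝓕 u : L2 E) ξ‖, ?_⟩
  filter_upwards [L2_inversion u hF] with x hx
  rw [hx, fInv_apply]
  refine (norm_integral_le_integral_norm _).trans (le_of_eq ?_)
  congr 1
  ext ξ
  rw [norm_mul, Complex.norm_exp_ofReal_mul_I, one_mul]

lemma W_integrable (s : ℝ) (hs : dim E / 2 < s) (W : E → ℝ) (hW : Integrable W) (u : L2 E)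
    (hk : Integrable (fun ξ => sym s ξ * ‖(𝓕 u : L2 E) ξ‖ ^ 2)) : Integrable (fun x => W x * ‖u x‖ ^ 2) := by
  obtain ⟨B, hB⟩ := bounded_ae s hs u hk
  apply hW.mul_bdd (c := B ^ 2)
  · exact ((Lp.aestronglyMeasurable u).norm.pow 2)
  · filter_upwards [hB] with x hx
    rw [Real.norm_of_nonneg (by positivity)]
    exact pow_le_pow_left₀ (norm_nonneg _) hx 2

/-- the measure W dx -/
noncomputable def rho (W : E → ℝ) : Measure E := volume.withDensity (fun x => ENNReal.ofReal (W x))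

lemma rho_ac (W : E → ℝ) : rho W ≪ volume := withDensity_absolutelyContinuous _ _

lemma rho_fin (W : E → ℝ) (hW : Integrable W) : IsFiniteMeasure (rho W) := by
  unfold rho
  apply isFiniteMeasure_withDensity_ofReal hW.2

lemma rho_integral (W : E → ℝ) (hW : Integrable W) (hW0 : ∀ x, 0 ≤ W x) (f : E → ℂ) :
    ∫ x, f x ∂(rho W) = ∫ x, (W x : ℂ) * f x := by
  unfold rho
  have hm : AEMeasurable (fun x => (W x).toNNReal) := hW.1.aemeasurable.real_toNNReal
  have h := integral_withDensity_eq_integral_smul₀ hm f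
  have e : (fun x => ENNReal.ofReal (W x)) = fun x => (((W x).toNNReal : NNReal) : ℝ≥0∞) := rfl
  rw [e, h]
  congr 1
  ext x
  rw [NNReal.smul_def, Real.coe_toNNReal _ (hW0 x), Complex.real_smul]

lemma rho_integral_real (W : E → ℝ) (hW : Integrable W) (hW0 : ∀ x, 0 ≤ W x) (f : E → ℝ) :
    ∫ x, f x ∂(rho W) = ∫ x, W x * f x := by
  unfold rho
  have hm : AEMeasurable (fun x => (W x).toNNReal) := hW.1.aemeasurable.real_toNNReal
  have h := integral_withDensity_eq_integral_smul₀ hm f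
  have e : (fun x => ENNReal.ofReal (W x)) = fun x => (((W x).toNNReal : NNReal) : ℝ≥0∞) := rfl
  rw [e, h]
  congr 1
  ext x
  rw [NNReal.smul_def, Real.coe_toNNReal _ (hW0 x), smul_eq_mul]

/-- the weighted transform of u -/
noncomputable def gT (W : E → ℝ) (u : E → ℂ) (ξ : E) : ℂ :=
  ∫ x, Complex.exp ((-(2 * π * ⟪ξ, x⟫_ℝ) : ℝ) * Complex.I) * u x ∂(rho W)

lemma mem_rho (s : ℝ) (hs : dim E / 2 < s) (W : E → ℝ) (hW : Integrable W) (u : L2 E)
    (hk : Integrable (fun ξ => sym s ξ * ‖(𝓕 u : L2 E) ξ‖ ^ 2)) (p : ℝ≥0∞) : MemLp (fun x => u x) p (rho W) := by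
  have := rho_fin W hW
  obtain ⟨B, hB⟩ := bounded_ae s hs u hk
  exact MemLp.of_bound ((Lp.aestronglyMeasurable u).mono_ac (rho_ac W)) B ((rho_ac W).ae_le hB)

/-- main analytic inequality -/
lemma key (s κ : ℝ) (hs : dim E / 2 < s) (hκ : 0 < κ) (W : E → ℝ) (hW : Integrable W) (hW0 : ∀ x, 0 ≤ W x) (u : L2 E)
    (hk : Integrable (fun ξ => sym s ξ * ‖(𝓕 u : L2 E) ξ‖ ^ 2))
    (hle : (∫ ξ, sym s ξ * ‖(𝓕 u : L2 E) ξ‖ ^ 2) + κ ^ (2 * s) * ∫ x, ‖u x‖ ^ 2 ≤ ∫ x, W x * ‖u x‖ ^ 2) :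
    ENNReal.ofReal (∫ x, W x * ‖u x‖ ^ 2) ≤ ∫⁻ ξ, ENNReal.ofReal (den s κ ξ) * ‖gT W u ξ‖ₑ ^ 2 := by
  have hfin := rho_fin W hW
  have hF := F_integrable s hs u hk
  have hinv := L2_inversion u hF
  have hu1 : Integrable (fun x => u x) (rho W) := memLp_one_iff_integrable.mp (mem_rho s hs W hW u hk 1)
  set h : E → ℂ := fun ξ => (𝓕 u : L2 E) ξ with hhd
  -- bound on gT
  set G := ∫ x, ‖u x‖ ∂(rho W) with hG
  have hgb : ∀ ξ, ‖gT W u ξ‖ ≤ G := by
    intro ξ
    unfold gT
    refine (norm_integral_le_integral_norm _).trans (le_of_eq ?_)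
    congr 1
    ext x
    rw [norm_mul, Complex.norm_exp_ofReal_mul_I, one_mul]
  have hgc : Continuous (gT W u) := by
    unfold gT
    apply continuous_of_dominated (bound := fun x => ‖u x‖)
    · intro x
      apply AEStronglyMeasurable.mul _ hu1.aestronglyMeasurable
      apply Continuous.aestronglyMeasurable
      fun_prop
    · intro x
      refine Eventually.of_forall fun ξ => ?_
      rw [norm_mul, Complex.norm_exp_ofReal_mul_I, one_mul]
    · exact hu1.norm
    · refine Eventually.of_forall fun ξ => ?_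
      fun_prop
  -- Parseval type identity
  set X := ∫ x, W x * ‖u x‖ ^ 2 with hX
  have hpar : (X : ℂ) = ∫ ξ, (starRingEnd ℂ) (h ξ) * gT W u ξ := by
    have e1 : (X : ℂ) = ∫ x, (starRingEnd ℂ) (u x) * u x ∂(rho W) := by
      rw [rho_integral W hW hW0, hX, ← integral_complex_ofReal]
      congr 1
      ext x
      rw [Complex.conj_mul']
      push_cast; rfl
    have e2 : ∫ x, (starRingEnd ℂ) (u x) * u x ∂(rho W)
        = ∫ x, (∫ ξ, (starRingEnd ℂ) (h ξ) * (Complex.exp ((-(2 * π * ⟪ξ, x⟫_ℝ) : ℝ) * Complex.I) * u x)) ∂(rho W) := by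
      apply integral_congr_ae
      filter_upwards [(rho_ac W).ae_le hinv] with x hx
      have : (starRingEnd ℂ) (u x) = ∫ ξ, (starRingEnd ℂ) (h ξ) * Complex.exp ((-(2 * π * ⟪ξ, x⟫_ℝ) : ℝ) * Complex.I) := by
        rw [hx, fInv_apply, ← integral_conj]
        congr 1
        ext ξ
        rw [map_mul, mul_comm]
        congr 1
        rw [← Complex.exp_conj, map_mul, Complex.conj_ofReal, Complex.conj_I]
        congr 1
        push_cast; ring
      rw [this, ← integral_mul_const]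
      congr 1
      ext ξ
      ring
    rw [e1, e2, integral_integral_swap]
    · congr 1
      ext ξ
      rw [integral_const_mul]
      rfl
    · have h0 : Integrable (fun p : E × E => ‖u p.1‖ * ‖h p.2‖) ((rho W).prod volume) := hu1.norm.mul_prod hF.norm
      refine h0.mono' ?_ ?_
      · apply AEStronglyMeasurable.mul
        · have : AEStronglyMeasurable (fun p : E × E => h p.2) ((rho W).prod volume) := hF.aestronglyMeasurable.comp_snd
          exact Complex.continuous_conj.comp_aestronglyMeasurable this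
        · apply AEStronglyMeasurable.mul
          · apply Continuous.aestronglyMeasurable
            fun_prop
          · exact hu1.aestronglyMeasurable.comp_fst
      · refine Eventually.of_forall fun p => ?_
        simp only [Function.uncurry]
        rw [norm_mul, norm_mul, Complex.norm_exp_ofReal_mul_I, one_mul, RCLike.norm_conj, mul_comm]
  -- real inequality
  have hsq := L2_sq_integrable (𝓕 u : L2 E)
  have hint1 : Integrable (fun ξ => (sym s ξ + κ ^ (2 * s)) * ‖h ξ‖ ^ 2) := by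
    refine (hk.add (hsq.const_mul (κ ^ (2 * s)))).congr (Eventually.of_forall fun ξ => ?_)
    simp only [Pi.add_apply]; ring
  have hden := den_integrable (E := E) s κ hs hκ
  have hint2 : Integrable (fun ξ => den s κ ξ * ‖gT W u ξ‖ ^ 2) := by
    apply hden.mul_bdd (c := G ^ 2)
    · exact (hgc.norm.pow 2).aestronglyMeasurable
    · refine Eventually.of_forall fun ξ => ?_
      rw [Real.norm_of_nonneg (by positivity)]
      exact pow_le_pow_left₀ (norm_nonneg _) (hgb ξ) 2
  have hXle : X ≤ ∫ ξ, (1 / 2 * ((sym s ξ + κ ^ (2 * s)) * ‖h ξ‖ ^ 2) + 1 / 2 * (den s κ ξ * ‖gT W u ξ‖ ^ 2)) := by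
    have hX0 : 0 ≤ X := integral_nonneg (fun x => by have := hW0 x; positivity)
    have h1 : X = ‖(X : ℂ)‖ := by rw [Complex.norm_real, Real.norm_of_nonneg hX0]
    rw [h1, hpar]
    refine (norm_integral_le_integral_norm _).trans ?_
    apply integral_mono_of_nonneg
    · exact Eventually.of_forall fun _ => norm_nonneg _
    · exact (hint1.const_mul _).add (hint2.const_mul _)
    · refine Eventually.of_forall fun ξ => ?_
      simp only
      rw [norm_mul, RCLike.norm_conj]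
      have hsy := sym_nonneg s ξ
      unfold den
      set m := sym s ξ + κ ^ (2 * s) with hm
      have hmpos : 0 < m := by positivity
      set a := ‖h ξ‖
      set b := ‖gT W u ξ‖
      have h3 : 1 / 2 * (m * a ^ 2) + 1 / 2 * (1 / m * b ^ 2) - a * b = (m * a - b) ^ 2 / (2 * m) := by
        field_simp
        ring
      have h4 : 0 ≤ (m * a - b) ^ 2 / (2 * m) := by positivity
      linarith
  rw [integral_add (hint1.const_mul _) (hint2.const_mul _), integral_const_mul, integral_const_mul] at hXle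
  have hsplit : ∫ ξ, (sym s ξ + κ ^ (2 * s)) * ‖h ξ‖ ^ 2 = (∫ ξ, sym s ξ * ‖(𝓕 u : L2 E) ξ‖ ^ 2) + κ ^ (2 * s) * ∫ x, ‖u x‖ ^ 2 := by
    have e : ∀ ξ, (sym s ξ + κ ^ (2 * s)) * ‖h ξ‖ ^ 2 = sym s ξ * ‖h ξ‖ ^ 2 + κ ^ (2 * s) * ‖h ξ‖ ^ 2 := fun ξ => by ring
    simp only [e]
    rw [integral_add hk (hsq.const_mul _), integral_const_mul]
    congr 2
    rw [← L2_norm_sq u, ← Lp.norm_fourier_eq u, L2_norm_sq]
  rw [hsplit] at hXle
  have hfinal : X ≤ ∫ ξ, den s κ ξ * ‖gT W u ξ‖ ^ 2 := by linarith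
  refine (ENNReal.ofReal_le_ofReal hfinal).trans (le_of_eq ?_)
  rw [ofReal_integral_eq_lintegral_ofReal hint2 (Eventually.of_forall fun ξ => by
    have := den_pos s κ ξ hκ
    simp only [Pi.zero_apply]; positivity)]
  congr 1
  ext ξ
  rw [ENNReal.ofReal_mul (den_pos s κ ξ hκ).le, ENNReal.ofReal_pow (norm_nonneg _), ofReal_norm]

end Pool.Agent.Helper209.GLT
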