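import Pool.Agent.Helper209.GLT5

set_option autoImplicit false
set_option linter.unusedSectionVars false
set_option linter.unusedVariables false
open MeasureTheory Filter Topology Real
open scoped ENNReal InnerProductSpace FourierTransform SchwartzMap ContDiff

namespace Pool.Agent.Helper209.GLT

variable {E : Type} [NormedAddCommGroup E] [InnerProductSpace ℝ E] [FiniteDimensional ℝ E] [MeasurableSpace E] [BorelSpace E]

/-- plane waves -/
noncomputable def ew (ξ : E) (x : E) : ℂ := Complex.exp (((2 * π * ⟪ξ, x⟫_ℝ) : ℝ) * Complex.I)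

lemma ew_cont (ξ : E) : Continuous (ew ξ) := by
  unfold ew; fun_prop

lemma ew_norm (ξ x : E) : ‖ew ξ x‖ = 1 := by
  unfold ew; rw [Complex.norm_exp_ofReal_mul_I]

lemma ew_conj (ξ x : E) : (starRingEnd ℂ) (ew ξ x) = Complex.exp (((-(2 * π * ⟪ξ, x⟫_ℝ)) : ℝ) * Complex.I) := by
  unfold ew
  rw [← Complex.exp_conj, map_mul, Complex.conj_ofReal, Complex.conj_I]
  congr 1
  push_cast; ring

lemma ew_mem (ρ : Measure E) [IsFiniteMeasure ρ] (ξ : E) : MemLp (ew ξ) 2 ρ :=
  MemLp.of_bound (ew_cont ξ).aestronglyMeasurable 1 (Eventually.of_forall fun x => (ew_norm ξ x).le)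

/-- plane waves as elements of L2 of a finite measure -/
noncomputable def vv (ρ : Measure E) [IsFiniteMeasure ρ] (ξ : E) : Lp ℂ 2 ρ := (ew_mem ρ ξ).toLp _

lemma vv_inner (ρ : Measure E) [IsFiniteMeasure ρ] (ξ : E) (f : Lp ℂ 2 ρ) :
    ⟪vv ρ ξ, f⟫_ℂ = ∫ x, (starRingEnd ℂ) (ew ξ x) * f x ∂ρ := by
  rw [L2.inner_def]
  apply integral_congr_ae
  filter_upwards [(ew_mem ρ ξ).coeFn_toLp] with x hx
  unfold vv
  rw [hx, RCLike.inner_apply, mul_comm]

lemma vv_norm (ρ : Measure E) [IsFiniteMeasure ρ] (ξ : E) : ‖vv ρ ξ‖ ^ 2 = ρ.real Set.univ := by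
  have h1 : ⟪vv ρ ξ, vv ρ ξ⟫_ℂ = ((‖vv ρ ξ‖ ^ 2 : ℝ) : ℂ) := by
    rw [inner_self_eq_norm_sq_to_K]; push_cast; rfl
  have h2 : ⟪vv ρ ξ, vv ρ ξ⟫_ℂ = ((ρ.real Set.univ : ℝ) : ℂ) := by
    rw [vv_inner]
    have : ∫ x, (starRingEnd ℂ) (ew ξ x) * (vv ρ ξ : Lp ℂ 2 ρ) x ∂ρ = ∫ x, (1:ℂ) ∂ρ := by
      apply integral_congr_ae
      filter_upwards [(ew_mem ρ ξ).coeFn_toLp] with x hx
      unfold vv
      rw [hx, Complex.conj_mul', ew_norm]; simp
    rw [this]
    simp
  rw [h1] at h2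
  exact_mod_cast h2

lemma mul_mem (ρ : Measure E) [IsFiniteMeasure ρ] (η : E) (f : Lp ℂ 2 ρ) :
    MemLp (fun x => (starRingEnd ℂ) (ew η x) * f x) 2 ρ := by
  have h := Lp.memLp f
  refine h.of_le ?_ ?_
  · apply AEStronglyMeasurable.mul
    · exact (Complex.continuous_conj.comp (ew_cont η)).aestronglyMeasurable
    · exact Lp.aestronglyMeasurable f
  · refine Eventually.of_forall fun x => ?_
    rw [norm_mul, RCLike.norm_conj, ew_norm, one_mul]

/-- modulation -/
noncomputable def UU (ρ : Measure E) [IsFiniteMeasure ρ] (η : E) (f : Lp ℂ 2 ρ) : Lp ℂ 2 ρ := (mul_mem ρ η f).toLp _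

lemma UU_inner (ρ : Measure E) [IsFiniteMeasure ρ] (η : E) (f g : Lp ℂ 2 ρ) :
    ⟪UU ρ η f, UU ρ η g⟫_ℂ = ⟪f, g⟫_ℂ := by
  rw [L2.inner_def, L2.inner_def]
  apply integral_congr_ae
  filter_upwards [(mul_mem ρ η f).coeFn_toLp, (mul_mem ρ η g).coeFn_toLp] with x hx hx'
  unfold UU
  rw [hx, hx', RCLike.inner_apply, RCLike.inner_apply, map_mul, Complex.conj_conj]
  have : (starRingEnd ℂ) (ew η x) * ew η x = 1 := by
    rw [Complex.conj_mul', ew_norm]; simp
  linear_combination ((g x : ℂ) * (starRingEnd ℂ) (f x)) * this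

lemma ew_add (η ξ x : E) : ew (η + ξ) x = ew η x * ew ξ x := by
  unfold ew
  rw [← Complex.exp_add, inner_add_left]
  congr 1
  push_cast; ring

lemma vv_shift (ρ : Measure E) [IsFiniteMeasure ρ] (ξ η : E) (f : Lp ℂ 2 ρ) :
    ⟪vv ρ (η + ξ), f⟫_ℂ = ⟪vv ρ ξ, UU ρ η f⟫_ℂ := by
  rw [vv_inner, vv_inner]
  apply integral_congr_ae
  filter_upwards [(mul_mem ρ η f).coeFn_toLp] with x hx
  unfold UU
  rw [hx, ew_add, map_mul]; ring

lemma vv_cont (ρ : Measure E) [IsFiniteMeasure ρ] (f : Lp ℂ 2 ρ) : Continuous (fun ξ => ⟪vv ρ ξ, f⟫_ℂ) := by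
  simp only [vv_inner]
  have hf : Integrable (fun x => f x) ρ := (Lp.memLp f).integrable (by norm_num)
  apply continuous_of_dominated (bound := fun x => ‖f x‖)
  · intro ξ
    apply AEStronglyMeasurable.mul _ hf.aestronglyMeasurable
    exact (Complex.continuous_conj.comp (ew_cont ξ)).aestronglyMeasurable
  · intro ξ
    refine Eventually.of_forall fun x => ?_
    rw [norm_mul, RCLike.norm_conj, ew_norm, one_mul]
  · exact hf.norm
  · refine Eventually.of_forall fun x => ?_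
    apply Continuous.mul _ continuous_const
    apply Complex.continuous_conj.comp
    unfold ew
    fun_prop

/-- the admissibility condition on trial functions -/
def Good (E : Type) [NormedAddCommGroup E] [InnerProductSpace ℝ E] [FiniteDimensional ℝ E] [MeasurableSpace E] [BorelSpace E] (s κ : ℝ) (W : E → ℝ) (u : L2 E) : Prop :=
  Integrable (fun ξ => sym s ξ * ‖(𝓕 u : L2 E) ξ‖ ^ 2) ∧
    (∫ ξ, sym s ξ * ‖(𝓕 u : L2 E) ξ‖ ^ 2) + κ ^ (2 * s) * ∫ x, ‖u x‖ ^ 2 ≤ ∫ x, W x * ‖u x‖ ^ 2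

/-- core inequality -/
theorem core (E : Type) [NormedAddCommGroup E] [InnerProductSpace ℝ E] [FiniteDimensional ℝ E] [MeasurableSpace E] [BorelSpace E] (s : ℝ) (hs : dim E / 2 < s) : ∃ C : ℝ, 0 < C ∧ ∀ (W : E → ℝ), Integrable W → (∀ x, 0 ≤ W x) →
    ∀ (N : ℕ) (κ : ℕ → ℝ) (lam : ℝ), 0 < lam → Antitone κ → (∀ j, lam ≤ κ j) →
    ∀ M : ℕ → Submodule ℂ (L2 E), (∀ j, j < N → Module.finrank ℂ (M j) = j + 1) →
      (∀ j, j < N → ∀ u ∈ M j, Good E s (κ j) W u) →
      ∑ j ∈ Finset.range N, (κ j) ^ (2 * s - dim E) ≤ C * ∫ x, W x := by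
  obtain ⟨c, hc, hdom⟩ := dom (E := E) s hs
  have hI := I1_pos (E := E) s hs
  refine ⟨I1 E s / c, by positivity, ?_⟩
  intro W hW hW0 N κ lam hl hanti hge M hMf hMg
  have hκpos : ∀ j, 0 < κ j := fun j => lt_of_lt_of_le hl (hge j)
  obtain ⟨ν, μ, hνp, hμp, hνμ, hlow⟩ := hdom κ lam hl hanti hge
  have hfin := rho_fin W hW
  set ρ := rho W with hρ
  have hmass : ρ.real Set.univ = ∫ x, W x := by
    have := rho_integral_real W hW hW0 (fun _ => 1)
    simpa using this
  -- apply the abstract lemma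
  have hmain := CLT.hlt (H := Lp ℂ 2 ρ) (E := E) (∫ x, W x) (vv ρ) (fun ξ => by rw [vv_norm, hmass])
    (fun f => (vv_cont ρ f).measurable) (UU ρ) (fun η f g => UU_inner ρ η f g) (fun ξ η f => vv_shift ρ ξ η f)
    N ν μ hνp hμp (fun j _ => hνμ j) (fun j => ENNReal.ofReal (c / I1 E s * (κ j) ^ (2 * s - dim E))) ?_
  · rw [← ENNReal.ofReal_sum_of_nonneg (fun j _ => by have := hκpos j; positivity)] at hmain
    have hW0' : 0 ≤ ∫ x, W x := integral_nonneg hW0
    rw [ENNReal.ofReal_le_ofReal_iff hW0', ← Finset.mul_sum] at hmain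
    have h1 : ∑ j ∈ Finset.range N, (κ j) ^ (2 * s - dim E) = I1 E s / c * (c / I1 E s * ∑ j ∈ Finset.range N, (κ j) ^ (2 * s - dim E)) := by
      field_simp
    rw [h1]
    exact mul_le_mul_of_nonneg_left hmain (by positivity)
  · intro j hj g
    -- linear map into L2(ρ)
    have hmem : ∀ u ∈ M j, MemLp (fun x => u x) 2 ρ := fun u hu => mem_rho s hs W hW u (hMg j hj u hu).1 2
    let ι : M j →ₗ[ℂ] Lp ℂ 2 ρ :=
      { toFun := fun u => (hmem u.1 u.2).toLp _
        map_add' := by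
          intro u w
          rw [← MemLp.toLp_add]
          apply (MemLp.toLp_eq_toLp_iff _ _).mpr
          filter_upwards [(rho_ac W).ae_le (Lp.coeFn_add u.1 w.1)] with x hx
          simpa using hx
        map_smul' := by
          intro a u
          rw [RingHom.id_apply, ← MemLp.toLp_const_smul]
          apply (MemLp.toLp_eq_toLp_iff _ _).mpr
          filter_upwards [(rho_ac W).ae_le (Lp.coeFn_smul a u.1)] with x hx
          simpa using hx }
    let Φ : M j →ₗ[ℂ] (Fin j → ℂ) := LinearMap.pi (fun i => (innerSL ℂ (g i)).toLinearMap ∘ₗ ι)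
    have hfinM : FiniteDimensional ℂ (M j) := by
      apply Module.finite_of_finrank_pos
      rw [hMf j hj]; omega
    have hker : LinearMap.ker Φ ≠ ⊥ := by
      apply LinearMap.ker_ne_bot_of_finrank_lt
      rw [hMf j hj]; simp
    obtain ⟨u, huk, hu0⟩ := Submodule.exists_mem_ne_zero_of_ne_bot hker
    have hgood := hMg j hj u.1 u.2
    set X := ∫ x, W x * ‖u.1 x‖ ^ 2 with hX
    have hXpos : 0 < X := by
      have h1 : 0 < ‖u.1‖ ^ 2 := by
        have : u.1 ≠ 0 := fun h => hu0 (Subtype.ext h)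
        positivity
      rw [L2_norm_sq] at h1
      have h2 : 0 ≤ ∫ ξ, sym s ξ * ‖(𝓕 u.1 : L2 E) ξ‖ ^ 2 :=
        integral_nonneg (fun ξ => by have := sym_nonneg s ξ; simp only [Pi.zero_apply]; positivity)
      have h3 : 0 < (κ j) ^ (2 * s) := by have := hκpos j; positivity
      have h4 := hgood.2
      have h5 : 0 < (κ j) ^ (2 * s) * ∫ x, ‖u.1 x‖ ^ 2 := mul_pos h3 h1
      linarith
    have hιnorm : ‖ι u‖ ^ 2 = X := by
      have h1 : ⟪ι u, ι u⟫_ℂ = ((‖ι u‖ ^ 2 : ℝ) : ℂ) := by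
        rw [inner_self_eq_norm_sq_to_K]; push_cast; rfl
      have h2 : ⟪ι u, ι u⟫_ℂ = (X : ℂ) := by
        rw [L2.inner_def]
        have e : ∫ x, ⟪(ι u : Lp ℂ 2 ρ) x, (ι u : Lp ℂ 2 ρ) x⟫_ℂ ∂ρ = ∫ x, ((‖u.1 x‖ ^ 2 : ℝ) : ℂ) ∂ρ := by
          apply integral_congr_ae
          filter_upwards [(hmem u.1 u.2).coeFn_toLp] with x hx
          have : (ι u : Lp ℂ 2 ρ) x = u.1 x := hx
          rw [this, inner_self_eq_norm_sq_to_K]; push_cast; rfl
        rw [e, rho_integral W hW hW0, hX, ← integral_complex_ofReal]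
        congr 1
        ext x
        push_cast; rfl
      rw [h1] at h2
      exact_mod_cast h2
    have hιpos : 0 < ‖ι u‖ := by
      have : ‖ι u‖ ≠ 0 := by
        intro h; rw [h] at hιnorm; simp at hιnorm; linarith
      positivity
    refine ⟨(((‖ι u‖)⁻¹ : ℝ) : ℂ) • ι u, ?_, ?_, ?_⟩
    · rw [norm_smul, Complex.norm_real, Real.norm_of_nonneg (by positivity)]
      field_simp
    · intro i
      rw [inner_smul_right]
      have : Φ u = 0 := huk
      have h2 : ⟪g i, ι u⟫_ℂ = 0 := congrFun this i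
      rw [h2, mul_zero]
    · -- the lower bound
      have hinner : ∀ ξ, ⟪vv ρ ξ, ι u⟫_ℂ = gT W u.1 ξ := by
        intro ξ
        rw [vv_inner]
        unfold gT
        apply integral_congr_ae
        filter_upwards [(hmem u.1 u.2).coeFn_toLp] with x hx
        have : (ι u : Lp ℂ 2 ρ) x = u.1 x := hx
        rw [this, ew_conj]
      have hgm : Measurable (fun ξ => ‖gT W u.1 ξ‖ₑ ^ 2) := by
        have := (vv_cont ρ (ι u)).measurable
        simp only [hinner] at this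
        exact this.enorm.pow_const 2
      have hkey := key s (κ j) hs (hκpos j) W hW hW0 u.1 hgood.1 hgood.2
      have hl1 := hlow j (fun ξ => ‖gT W u.1 ξ‖ₑ ^ 2) hgm
      have hQ : CLT.QF (vv ρ) (ν j) ((((‖ι u‖)⁻¹ : ℝ) : ℂ) • ι u) = ENNReal.ofReal (X⁻¹) * ∫⁻ ξ, ‖gT W u.1 ξ‖ₑ ^ 2 ∂(ν j) := by
        unfold CLT.QF
        rw [← lintegral_const_mul _ hgm]
        congr 1
        ext ξ
        rw [inner_smul_right, hinner, enorm_mul, mul_pow]
        congr 1
        rw [← ofReal_norm, Complex.norm_real, Real.norm_of_nonneg (by positivity), ← ENNReal.ofReal_pow (by positivity),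
          inv_pow, hιnorm]
      rw [hQ]
      have hD : ∫⁻ ξ, ENNReal.ofReal (D E s (κ j) ξ) * ‖gT W u.1 ξ‖ₑ ^ 2
          = ENNReal.ofReal ((κ j) ^ (2 * s - dim E) / I1 E s) * ∫⁻ ξ, ENNReal.ofReal (den s (κ j) ξ) * ‖gT W u.1 ξ‖ₑ ^ 2 := by
        rw [← lintegral_const_mul]
        · congr 1
          ext ξ
          unfold D
          rw [ENNReal.ofReal_mul (by have := hκpos j; positivity), mul_assoc]
        · apply Measurable.mul _ hgm
          have hn : (0:ℝ) ≤ dim E := Nat.cast_nonneg _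
          exact (den_cont s (κ j) (by linarith) (hκpos j)).measurable.ennreal_ofReal
      have hchain : ENNReal.ofReal c * (ENNReal.ofReal ((κ j) ^ (2 * s - dim E) / I1 E s) * ENNReal.ofReal X)
          ≤ ∫⁻ ξ, ‖gT W u.1 ξ‖ₑ ^ 2 ∂(ν j) := by
        refine le_trans ?_ hl1
        rw [hD]
        gcongr
      have hκj := hκpos j
      calc ENNReal.ofReal (c / I1 E s * (κ j) ^ (2 * s - dim E))
          = ENNReal.ofReal (X⁻¹) * (ENNReal.ofReal c * (ENNReal.ofReal ((κ j) ^ (2 * s - dim E) / I1 E s) * ENNReal.ofReal X)) := by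
            rw [← ENNReal.ofReal_mul (by positivity), ← ENNReal.ofReal_mul (by positivity), ← ENNReal.ofReal_mul (by positivity)]
            congr 1
            field_simp
        _ ≤ _ := by gcongr

end Pool.Agent.Helper209.GLT
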