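import Pool.Agent.Helper209.GLT6

set_option autoImplicit false
set_option linter.unusedSectionVars false
set_option linter.unusedVariables false
set_option linter.unusedSectionVars false
set_option linter.unusedVariables false
open MeasureTheory Filter Topology Real
open scoped ENNReal InnerProductSpace FourierTransform SchwartzMap ContDiff

namespace Pool.Agent.Helper209.GLT

variable {E : Type} [NormedAddCommGroup E] [InnerProductSpace ℝ E] [FiniteDimensional ℝ E] [MeasurableSpace E] [BorelSpace E]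

/-- maximal form domain -/
def FD (E : Type) [NormedAddCommGroup E] [InnerProductSpace ℝ E] [FiniteDimensional ℝ E] [MeasurableSpace E] [BorelSpace E] (s : ℝ) (V : E → ℝ) : Set (L2 E) :=
  {u | Integrable (fun ξ => (2 * π * ‖ξ‖) ^ (2 * s) * ‖(𝓕 u : L2 E) ξ‖ ^ 2) ∧
    Integrable (fun x => max (-(V x)) 0 * ‖u x‖ ^ 2)}

/-- the sesquilinear form -/
noncomputable def fm (E : Type) [NormedAddCommGroup E] [InnerProductSpace ℝ E] [FiniteDimensional ℝ E] [MeasurableSpace E] [BorelSpace E] (s : ℝ) (V : E → ℝ) (w u : L2 E) : ℂ :=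
  (∫ ξ, (((2 * π * ‖ξ‖) ^ (2 * s) : ℝ) : ℂ) * ((starRingEnd ℂ) ((𝓕 w : L2 E) ξ) * (𝓕 u : L2 E) ξ))
    - ∫ x, ((V x : ℝ) : ℂ) * ((starRingEnd ℂ) (w x) * u x)

lemma F_add (u w : L2 E) : (𝓕 (u + w) : L2 E) = 𝓕 u + 𝓕 w := FourierTransform.fourier_add u w

lemma F_smul (a : ℂ) (u : L2 E) : (𝓕 (a • u) : L2 E) = a • (𝓕 u : L2 E) := FourierTransform.fourier_smul a u

/-- weighted square integrability is linear -/
lemma wt_add (p : E → ℝ) (hp0 : ∀ x, 0 ≤ p x) (hpm : AEStronglyMeasurable p volume) (u w : L2 E)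
    (hu : Integrable (fun x => p x * ‖u x‖ ^ 2)) (hw : Integrable (fun x => p x * ‖w x‖ ^ 2)) :
    Integrable (fun x => p x * ‖(u + w : L2 E) x‖ ^ 2) := by
  refine ((hu.add hw).const_mul 2).mono' ?_ ?_
  · exact hpm.mul ((Lp.aestronglyMeasurable (u + w)).norm.pow 2)
  · filter_upwards [Lp.coeFn_add u w] with x hx
    have := hp0 x
    rw [Real.norm_of_nonneg (by positivity), hx]
    simp only [Pi.add_apply]
    have h1 : ‖u x + w x‖ ≤ ‖u x‖ + ‖w x‖ := norm_add_le _ _
    have h2 : ‖u x + w x‖ ^ 2 ≤ 2 * (‖u x‖ ^ 2 + ‖w x‖ ^ 2) := by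
      have h3 : ‖u x + w x‖ ^ 2 ≤ (‖u x‖ + ‖w x‖) ^ 2 := pow_le_pow_left₀ (norm_nonneg _) h1 2
      nlinarith [sq_nonneg (‖u x‖ - ‖w x‖)]
    nlinarith

lemma wt_smul (p : E → ℝ) (a : ℂ) (u : L2 E)
    (hu : Integrable (fun x => p x * ‖u x‖ ^ 2)) :
    Integrable (fun x => p x * ‖(a • u : L2 E) x‖ ^ 2) := by
  refine (hu.const_mul (‖a‖ ^ 2)).congr ?_
  filter_upwards [Lp.coeFn_smul a u] with x hx
  rw [hx, Pi.smul_apply, norm_smul]
  ring

lemma FD_add (s : ℝ) (hs : 0 ≤ s) (V : E → ℝ) (hVm : AEStronglyMeasurable (fun x => max (-(V x)) 0) volume)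
    (u w : L2 E) (hu : u ∈ FD E s V) (hw : w ∈ FD E s V) : u + w ∈ FD E s V := by
  constructor
  · rw [F_add]
    exact wt_add (sym s) (sym_nonneg s) (sym_cont s hs).aestronglyMeasurable _ _ hu.1 hw.1
  · exact wt_add _ (fun x => le_max_right _ _) hVm u w hu.2 hw.2

lemma FD_smul (s : ℝ) (V : E → ℝ) (a : ℂ) (u : L2 E) (hu : u ∈ FD E s V) : a • u ∈ FD E s V := by
  constructor
  · rw [F_smul]
    exact wt_smul (sym s) a _ hu.1
  · exact wt_smul _ a u hu.2

lemma zero_FD (s : ℝ) (V : E → ℝ) : (0 : L2 E) ∈ FD E s V := by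
  have h0 : (𝓕 (0 : L2 E) : L2 E) = 0 := by
    have := F_smul (0:ℂ) (0 : L2 E)
    rwa [zero_smul, zero_smul] at this
  constructor
  · rw [h0]
    refine (integrable_zero _ _ _).congr ?_
    filter_upwards [Lp.coeFn_zero ℂ 2 (volume : Measure E)] with x hx
    rw [hx]; simp
  · refine (integrable_zero _ _ _).congr ?_
    filter_upwards [Lp.coeFn_zero ℂ 2 (volume : Measure E)] with x hx
    rw [hx]; simp

/-- the form domain as a subspace -/
def FDS (E : Type) [NormedAddCommGroup E] [InnerProductSpace ℝ E] [FiniteDimensional ℝ E] [MeasurableSpace E] [BorelSpace E] (s : ℝ) (hs : 0 ≤ s) (V : E → ℝ) (hVm : AEStronglyMeasurable (fun x => max (-(V x)) 0) volume) :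
    Submodule ℂ (L2 E) where
  carrier := FD E s V
  add_mem' := fun {u w} hu hw => FD_add s hs V hVm u w hu hw
  zero_mem' := zero_FD s V
  smul_mem' := fun a u hu => FD_smul s V a u hu

/-- integrability of products under a weight -/
lemma prod_integrable (p : E → ℝ) (hpm : AEStronglyMeasurable p volume) (w u : L2 E)
    (hu : Integrable (fun x => |p x| * ‖u x‖ ^ 2)) (hw : Integrable (fun x => |p x| * ‖w x‖ ^ 2)) :
    Integrable (fun x => ((p x : ℝ) : ℂ) * ((starRingEnd ℂ) (w x) * u x)) := by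
  refine (hw.add hu).mono' ?_ ?_
  · apply AEStronglyMeasurable.mul
    · exact Complex.continuous_ofReal.comp_aestronglyMeasurable hpm
    · exact (Complex.continuous_conj.comp_aestronglyMeasurable (Lp.aestronglyMeasurable w)).mul (Lp.aestronglyMeasurable u)
  · refine Eventually.of_forall fun x => ?_
    rw [norm_mul, norm_mul, RCLike.norm_conj, Complex.norm_real, Real.norm_eq_abs]
    simp only [Pi.add_apply]
    have h0 := abs_nonneg (p x)
    have h1 : ‖w x‖ * ‖u x‖ ≤ ‖w x‖ ^ 2 + ‖u x‖ ^ 2 := by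
      nlinarith [sq_nonneg (‖w x‖ - ‖u x‖), sq_nonneg (‖w x‖), sq_nonneg ‖u x‖]
    nlinarith

section form
variable (s : ℝ) (hs : dim E / 2 < s) (V : E → ℝ) (hVp : Integrable (fun x => max (V x) 0))
  (hVm : AEStronglyMeasurable (fun x => max (-(V x)) 0) volume)
include hs hVp hVm

lemma V_meas : AEStronglyMeasurable V volume := by
  have := hVp.aestronglyMeasurable.sub hVm
  refine this.congr (Eventually.of_forall fun x => ?_)
  simp only [Pi.sub_apply]
  rcases le_total (V x) 0 with h | h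
  · rw [max_eq_right h, max_eq_left (by linarith)]; ring
  · rw [max_eq_left h, max_eq_right (by linarith)]; ring

lemma absV_integrable (u : L2 E) (hu : u ∈ FD E s V) : Integrable (fun x => |V x| * ‖u x‖ ^ 2) := by
  have h1 := W_integrable s hs (fun x => max (V x) 0) hVp u hu.1
  refine (h1.add hu.2).congr (Eventually.of_forall fun x => ?_)
  simp only [Pi.add_apply]
  rcases le_total (V x) 0 with h | h
  · rw [max_eq_right h, max_eq_left (by linarith), abs_of_nonpos h]; ring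
  · rw [max_eq_left h, max_eq_right (by linarith), abs_of_nonneg h]; ring

lemma kin_int (w u : L2 E) (hw : w ∈ FD E s V) (hu : u ∈ FD E s V) :
    Integrable (fun ξ => (((2 * π * ‖ξ‖) ^ (2 * s) : ℝ) : ℂ) * ((starRingEnd ℂ) ((𝓕 w : L2 E) ξ) * (𝓕 u : L2 E) ξ)) := by
  have hn : (0:ℝ) ≤ dim E := Nat.cast_nonneg _
  have e : ∀ ξ : E, |sym s ξ| = sym s ξ := fun ξ => abs_of_nonneg (sym_nonneg s ξ)
  apply prod_integrable (sym s) (sym_cont s (by linarith)).aestronglyMeasurable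
  · simp only [e]; exact hu.1
  · simp only [e]; exact hw.1

lemma pot_int (w u : L2 E) (hw : w ∈ FD E s V) (hu : u ∈ FD E s V) :
    Integrable (fun x => ((V x : ℝ) : ℂ) * ((starRingEnd ℂ) (w x) * u x)) :=
  prod_integrable V (V_meas s hs V hVp hVm) w u (absV_integrable s hs V hVp hVm u hu) (absV_integrable s hs V hVp hVm w hw)

lemma fm_add (w u v : L2 E) (hw : w ∈ FD E s V) (hu : u ∈ FD E s V) (hv : v ∈ FD E s V) :
    fm E s V w (u + v) = fm E s V w u + fm E s V w v := by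
  unfold fm
  have h1 : ∫ ξ, (((2 * π * ‖ξ‖) ^ (2 * s) : ℝ) : ℂ) * ((starRingEnd ℂ) ((𝓕 w : L2 E) ξ) * (𝓕 (u + v) : L2 E) ξ)
      = (∫ ξ, (((2 * π * ‖ξ‖) ^ (2 * s) : ℝ) : ℂ) * ((starRingEnd ℂ) ((𝓕 w : L2 E) ξ) * (𝓕 u : L2 E) ξ))
        + ∫ ξ, (((2 * π * ‖ξ‖) ^ (2 * s) : ℝ) : ℂ) * ((starRingEnd ℂ) ((𝓕 w : L2 E) ξ) * (𝓕 v : L2 E) ξ) := by
    rw [← integral_add (kin_int s hs V hVp hVm w u hw hu) (kin_int s hs V hVp hVm w v hw hv), F_add]
    apply integral_congr_ae
    filter_upwards [Lp.coeFn_add (𝓕 u : L2 E) (𝓕 v : L2 E)] with ξ hξ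
    rw [hξ, Pi.add_apply]; ring
  have h2 : ∫ x, ((V x : ℝ) : ℂ) * ((starRingEnd ℂ) (w x) * (u + v : L2 E) x)
      = (∫ x, ((V x : ℝ) : ℂ) * ((starRingEnd ℂ) (w x) * u x)) + ∫ x, ((V x : ℝ) : ℂ) * ((starRingEnd ℂ) (w x) * v x) := by
    rw [← integral_add (pot_int s hs V hVp hVm w u hw hu) (pot_int s hs V hVp hVm w v hw hv)]
    apply integral_congr_ae
    filter_upwards [Lp.coeFn_add u v] with ξ hξ
    rw [hξ, Pi.add_apply]; ring
  rw [h1, h2]; ring

omit hs hVp hVm in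
lemma fm_smul (w u : L2 E) (a : ℂ) : fm E s V w (a • u) = a * fm E s V w u := by
  unfold fm
  rw [mul_sub, F_smul]
  congr 1
  · rw [← integral_const_mul]
    apply integral_congr_ae
    filter_upwards [Lp.coeFn_smul a (𝓕 u : L2 E)] with ξ hξ
    rw [hξ, Pi.smul_apply, smul_eq_mul]; ring
  · rw [← integral_const_mul]
    apply integral_congr_ae
    filter_upwards [Lp.coeFn_smul a u] with ξ hξ
    rw [hξ, Pi.smul_apply, smul_eq_mul]; ring

lemma fm_self (u : L2 E) (hu : u ∈ FD E s V) :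
    fm E s V u u = (((∫ ξ, sym s ξ * ‖(𝓕 u : L2 E) ξ‖ ^ 2) - ∫ x, V x * ‖u x‖ ^ 2 : ℝ) : ℂ) := by
  unfold fm
  push_cast
  rw [← integral_complex_ofReal, ← integral_complex_ofReal]
  congr 1
  · congr 1
    ext ξ
    rw [Complex.conj_mul']
    unfold sym
    push_cast; rfl
  · congr 1
    ext x
    rw [Complex.conj_mul']
    push_cast; rfl

/-- if the form is below -κ^{2s} on u then u is Good -/
lemma good_of_form (κ : ℝ) (u : L2 E) (hu : u ∈ FD E s V) (hle : (fm E s V u u).re ≤ -κ ^ (2 * s) * ‖u‖ ^ 2) :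
    Good E s κ (fun x => max (V x) 0) u := by
  refine ⟨hu.1, ?_⟩
  rw [fm_self s hs V hVp hVm u hu, Complex.ofReal_re, L2_norm_sq] at hle
  have h1 : ∫ x, V x * ‖u x‖ ^ 2 ≤ ∫ x, max (V x) 0 * ‖u x‖ ^ 2 := by
    apply integral_mono_ae
    · have := absV_integrable s hs V hVp hVm u hu
      refine this.mono ((V_meas s hs V hVp hVm).mul ((Lp.aestronglyMeasurable u).norm.pow 2)) (Eventually.of_forall fun x => ?_)
      rw [norm_mul, norm_mul, Real.norm_eq_abs, Real.norm_eq_abs, Real.norm_eq_abs |V x|, abs_abs]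
    · exact W_integrable s hs (fun x => max (V x) 0) hVp u hu.1
    · refine Eventually.of_forall fun x => ?_
      simp only
      have := le_max_left (V x) 0
      gcongr
  linarith

/-- the span of orthonormal eigenfunctions -/
lemma eig_span (κ : ℝ) (k : ℕ) (w : Fin k → L2 E) (e : Fin k → ℝ) (hw : Orthonormal ℂ w)
    (hwd : ∀ i, w i ∈ FD E s V) (hwe : ∀ i, ∀ v ∈ FD E s V, fm E s V v (w i) = (e i : ℂ) * ⟪v, w i⟫_ℂ)
    (he : ∀ i, e i ≤ -κ ^ (2 * s)) :
    ∀ u ∈ Submodule.span ℂ (Set.range w), Good E s κ (fun x => max (V x) 0) u := by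
  intro u hu
  have hn : (0:ℝ) ≤ dim E := Nat.cast_nonneg _
  have hs0 : 0 ≤ s := by linarith
  obtain ⟨c, rfl⟩ := (Submodule.mem_span_range_iff_exists_fun ℂ).mp hu
  set u := ∑ i, c i • w i with hud
  have huFD : u ∈ FD E s V := by
    have : u ∈ FDS E s hs0 V hVm := Submodule.sum_mem _ (fun i _ => Submodule.smul_mem _ _ (hwd i))
    exact this
  apply good_of_form s hs V hVp hVm κ u huFD
  -- compute the form
  have hlin : ∀ t : Finset (Fin k), fm E s V u (∑ i ∈ t, c i • w i) = ∑ i ∈ t, c i * fm E s V u (w i) := by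
    intro t
    induction t using Finset.induction_on with
    | empty =>
      simp only [Finset.sum_empty]
      have := fm_smul s V u (0 : L2 E) (0 : ℂ)
      simpa using this
    | insert a t ha ih =>
      rw [Finset.sum_insert ha, Finset.sum_insert ha, fm_add s hs V hVp hVm, ih, fm_smul]
      · exact huFD
      · exact FD_smul s V _ _ (hwd a)
      · have : ∑ i ∈ t, c i • w i ∈ FDS E s hs0 V hVm := Submodule.sum_mem _ (fun i _ => Submodule.smul_mem _ _ (hwd i))
        exact this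
  have h1 : fm E s V u u = ∑ i, c i * fm E s V u (w i) := hlin Finset.univ
  have h2 : ∀ i, ⟪u, w i⟫_ℂ = (starRingEnd ℂ) (c i) := by
    intro i
    rw [hud]
    exact hw.inner_left_fintype c i
  have h3 : fm E s V u u = ((∑ i, e i * ‖c i‖ ^ 2 : ℝ) : ℂ) := by
    rw [h1]
    push_cast
    apply Finset.sum_congr rfl
    intro i _
    rw [hwe i u huFD, h2]
    have := Complex.mul_conj' (c i)
    linear_combination (e i : ℂ) * this
  have h4 : ‖u‖ ^ 2 = ∑ i, ‖c i‖ ^ 2 := by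
    have h5 : ⟪u, u⟫_ℂ = ((‖u‖ ^ 2 : ℝ) : ℂ) := by
      rw [inner_self_eq_norm_sq_to_K]; push_cast; rfl
    have h6 : ⟪u, u⟫_ℂ = ((∑ i, ‖c i‖ ^ 2 : ℝ) : ℂ) := by
      have h7 : ⟪u, ∑ i, c i • w i⟫_ℂ = ∑ i, c i * ⟪u, w i⟫_ℂ := by
        rw [inner_sum]
        apply Finset.sum_congr rfl
        intro i _
        rw [inner_smul_right]
      calc ⟪u, u⟫_ℂ = ⟪u, ∑ i, c i • w i⟫_ℂ := by rw [← hud]
        _ = ∑ i, c i * ⟪u, w i⟫_ℂ := h7
        _ = _ := by
          push_cast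
          apply Finset.sum_congr rfl
          intro i _
          rw [h2, Complex.mul_conj']
    rw [h5] at h6
    exact_mod_cast h6
  rw [h3, Complex.ofReal_re, h4, Finset.mul_sum]
  apply Finset.sum_le_sum
  intro i _
  have := he i
  have h8 : 0 ≤ ‖c i‖ ^ 2 := by positivity
  nlinarith

end form

end Pool.Agent.Helper209.GLT
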