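import Pool.Agent.Helper209.GLT7

set_option autoImplicit false
set_option linter.unusedSectionVars false
set_option linter.unusedVariables false
open MeasureTheory Filter Topology Real
open scoped ENNReal InnerProductSpace FourierTransform SchwartzMap ContDiff

namespace Pool.Agent.Helper209.GLT

theorem eig_main (E : Type) [NormedAddCommGroup E] [InnerProductSpace ℝ E] [FiniteDimensional ℝ E] [MeasurableSpace E] [BorelSpace E] (s : ℝ) (hs : dim E / 2 < s) : ∃ C : ℝ, 0 < C ∧ ∀ V : E → ℝ,
    Integrable (fun x => max (V x) 0) → AEStronglyMeasurable (fun x => max (-(V x)) 0) volume →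
    ∀ (N : ℕ) (ev : Fin N → ℝ) (u : Fin N → L2 E), Orthonormal ℂ u → (∀ i, ev i < 0) →
      (∀ i, u i ∈ FD E s V ∧ ∀ w ∈ FD E s V, fm E s V w (u i) = (ev i : ℂ) * ⟪w, u i⟫_ℂ) →
      ∑ i, |ev i| ^ (1 - dim E / (2 * s)) ≤ C * ∫ x, max (V x) 0 := by
  obtain ⟨C, hC, hcore⟩ := core E s hs
  refine ⟨C, hC, ?_⟩
  intro V hVp hVm N ev u hu hE hue
  have hn : (0:ℝ) ≤ dim E := Nat.cast_nonneg _
  have hs0 : 0 < s := by linarith
  have hW0 : ∀ x, 0 ≤ max (V x) 0 := fun x => le_max_right _ _
  rcases Nat.eq_zero_or_pos N with h0 | hN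
  · subst h0
    simp only [Finset.univ_eq_empty, Finset.sum_empty]
    have : 0 ≤ ∫ x, max (V x) 0 := integral_nonneg hW0
    positivity
  -- sort the eigenvalues
  set σ := Tuple.sort ev with hσ
  have hmono : Monotone (ev ∘ σ) := Tuple.monotone_sort ev
  -- index clipping
  let cl : ℕ → Fin N := fun j => ⟨min j (N - 1), by omega⟩
  have hcl : ∀ i j, i ≤ j → cl i ≤ cl j := by
    intro i j hij
    show min i (N - 1) ≤ min j (N - 1)
    omega
  have hcl2 : ∀ j, cl j ≤ cl (N - 1) := by
    intro j
    show min j (N - 1) ≤ min (N - 1) (N - 1)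
    omega
  set κ : ℕ → ℝ := fun j => |ev (σ (cl j))| ^ (1 / (2 * s)) with hκ
  have hκpos : ∀ j, 0 < κ j := by
    intro j
    have : ev (σ (cl j)) ≠ 0 := (hE _).ne
    have : 0 < |ev (σ (cl j))| := abs_pos.mpr this
    simp only [hκ]
    positivity
  have hanti0 : ∀ i j, cl i ≤ cl j → κ j ≤ κ i := by
    intro i j hij
    simp only [hκ]
    apply Real.rpow_le_rpow (abs_nonneg _) _ (by positivity)
    rw [abs_of_neg (hE _), abs_of_neg (hE _)]
    have := hmono hij
    simp only [Function.comp] at this
    linarith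
  have hanti : Antitone κ := fun i j hij => hanti0 i j (hcl i j hij)
  have hκE : ∀ j, κ j ^ (2 * s) = -ev (σ (cl j)) := by
    intro j
    simp only [hκ]
    rw [← Real.rpow_mul (abs_nonneg _)]
    have : 1 / (2 * s) * (2 * s) = 1 := by field_simp
    rw [this, Real.rpow_one, abs_of_neg (hE _)]
  -- subspaces
  let w : (j : ℕ) → Fin (j + 1) → L2 E := fun j i => u (σ (cl i))
  let M : ℕ → Submodule ℂ (L2 E) := fun j => Submodule.span ℂ (Set.range (w j))
  have hworth : ∀ j, j < N → Orthonormal ℂ (w j) := by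
    intro j hj
    apply hu.comp (fun i : Fin (j + 1) => σ (cl i))
    intro a b hab
    have h1 := σ.injective hab
    have h2 : min (a : ℕ) (N - 1) = min (b : ℕ) (N - 1) := congrArg Fin.val h1
    have ha := a.2
    have hb := b.2
    apply Fin.ext
    omega
  have hfr : ∀ j, j < N → Module.finrank ℂ (M j) = j + 1 := by
    intro j hj
    have := finrank_span_eq_card (hworth j hj).linearIndependent
    simpa using this
  have hgood : ∀ j, j < N → ∀ v ∈ M j, Good E s (κ j) (fun x => max (V x) 0) v := by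
    intro j hj
    apply eig_span s hs V hVp hVm (κ j) (j + 1) (w j) (fun i => ev (σ (cl i))) (hworth j hj)
    · intro i
      exact (hue _).1
    · intro i v hv
      exact (hue _).2 v hv
    · intro i
      rw [hκE j]
      have : cl i ≤ cl j := hcl i j (by have := i.2; omega)
      have := hmono this
      simp only [Function.comp] at this
      linarith
  have hfinal := hcore (fun x => max (V x) 0) hVp hW0 N κ (κ (N - 1)) (hκpos _) hanti
    (fun j => hanti0 j (N - 1) (hcl2 j)) M hfr hgood
  refine le_trans (le_of_eq ?_) hfinal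
  -- reindex
  have h1 : ∑ j ∈ Finset.range N, κ j ^ (2 * s - dim E) = ∑ j : Fin N, κ j ^ (2 * s - dim E) := by
    rw [Finset.sum_range]
  rw [h1, ← Equiv.sum_comp σ]
  apply Finset.sum_congr rfl
  intro j _
  simp only [hκ]
  have hclj : cl j = j := by
    apply Fin.ext
    show min (j : ℕ) (N - 1) = j
    have := j.2
    omega
  rw [hclj, ← Real.rpow_mul (abs_nonneg _)]
  congr 1
  field_simp

end Pool.Agent.Helper209.GLT
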