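import Pool.Agent.Helper209.GLT8

set_option autoImplicit false
set_option linter.unusedSectionVars false
set_option linter.unusedVariables false
open MeasureTheory Filter Topology Real
open scoped ENNReal InnerProductSpace FourierTransform SchwartzMap ContDiff

namespace Pool.Agent.Helper209.GLT

variable {E : Type} [NormedAddCommGroup E] [InnerProductSpace ℝ E] [FiniteDimensional ℝ E] [MeasurableSpace E] [BorelSpace E]

/-- g is the Fourier transform of the square integrable u -/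
def IsFT (u g : E → ℂ) : Prop :=
  MemLp u 2 ∧ MemLp g 2 ∧ ∀ φ : 𝓢(E, ℂ), ∫ ξ, g ξ * φ ξ = ∫ x, u x * (𝓕 (fun y => φ y)) x

lemma dual (W : L2 E) (φ : 𝓢(E, ℂ)) : ∫ ξ, (𝓕 W : L2 E) ξ * φ ξ = ∫ x, W x * (𝓕 φ) x := by
  have h := Lp.fourier_toTemperedDistribution_eq W
  have h1 := congrArg (fun T : 𝓢'(E, ℂ) => T φ) h
  simp only [TemperedDistribution.fourier_apply, Lp.toTemperedDistribution_apply, smul_eq_mul] at h1
  calc ∫ ξ, (𝓕 W : L2 E) ξ * φ ξ = ∫ x, φ x * (𝓕 W : L2 E) x := by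
        congr 1; ext x; ring
    _ = ∫ x, (𝓕 φ) x * W x := h1.symm
    _ = _ := by congr 1; ext x; ring

lemma isFT_of_L2 (W : L2 E) : IsFT (fun x => W x) (fun ξ => (𝓕 W : L2 E) ξ) :=
  ⟨Lp.memLp W, Lp.memLp _, fun φ => dual W φ⟩

lemma L2_of_isFT (u g : E → ℂ) (h : IsFT u g) : (𝓕 (h.1.toLp u) : L2 E) = h.2.1.toLp g := by
  have hinj := Lp.ker_toTemperedDistributionCLM_eq_bot (E := E) (F := ℂ) (μ := volume) (p := 2)
  rw [LinearMap.ker_eq_bot] at hinj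
  apply hinj
  show ((𝓕 (h.1.toLp u) : L2 E) : 𝓢'(E, ℂ)) = ((h.2.1.toLp g : L2 E) : 𝓢'(E, ℂ))
  ext φ
  rw [Lp.toTemperedDistribution_apply, Lp.toTemperedDistribution_apply]
  have h1 := dual (h.1.toLp u) φ
  have h2 := h.2.2 φ
  have e1 : ∫ x, (h.1.toLp u : L2 E) x * (𝓕 φ) x = ∫ x, u x * (𝓕 (fun y => φ y)) x := by
    apply integral_congr_ae
    filter_upwards [h.1.coeFn_toLp] with x hx
    rw [hx]; rfl
  have e2 : ∫ ξ, (h.2.1.toLp g : L2 E) ξ * φ ξ = ∫ ξ, g ξ * φ ξ := by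
    apply integral_congr_ae
    filter_upwards [h.2.1.coeFn_toLp] with x hx
    rw [hx]
  calc ∫ x, φ x • (𝓕 (h.1.toLp u) : L2 E) x = ∫ ξ, (𝓕 (h.1.toLp u) : L2 E) ξ * φ ξ := by
        congr 1; ext x; rw [smul_eq_mul]; ring
    _ = ∫ ξ, (h.2.1.toLp g : L2 E) ξ * φ ξ := by rw [h1, e1, ← h2, e2]
    _ = _ := by congr 1; ext x; rw [smul_eq_mul]; ring

/-- pairs (u, transform of u) in the form domain -/
def InFD (s : ℝ) (V : E → ℝ) (u g : E → ℂ) : Prop :=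
  IsFT u g ∧ Integrable (fun ξ => (2 * π * ‖ξ‖) ^ (2 * s) * ‖g ξ‖ ^ 2) ∧
    Integrable (fun x => max (-(V x)) 0 * ‖u x‖ ^ 2)

/-- the form on such pairs -/
noncomputable def fmp (s : ℝ) (V : E → ℝ) (w h u g : E → ℂ) : ℂ :=
  (∫ ξ, (((2 * π * ‖ξ‖) ^ (2 * s) : ℝ) : ℂ) * ((starRingEnd ℂ) (h ξ) * g ξ))
    - ∫ x, ((V x : ℝ) : ℂ) * ((starRingEnd ℂ) (w x) * u x)

/-- eigenfunctions -/
def IsEig (s : ℝ) (V : E → ℝ) (e : ℝ) (u : E → ℂ) : Prop :=
  ∃ g, InFD s V u g ∧ ∀ w h, InFD s V w h → fmp s V w h u g = (e : ℂ) * ∫ x, (starRingEnd ℂ) (w x) * u x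

lemma inFD_of_FD (s : ℝ) (V : E → ℝ) (W : L2 E) (hW : W ∈ FD E s V) :
    InFD s V (fun x => W x) (fun ξ => (𝓕 W : L2 E) ξ) :=
  ⟨isFT_of_L2 W, hW.1, hW.2⟩

theorem eig_fun (E : Type) [NormedAddCommGroup E] [InnerProductSpace ℝ E] [FiniteDimensional ℝ E] [MeasurableSpace E]
    [BorelSpace E] (s : ℝ) (hs : dim E / 2 < s) : ∃ C : ℝ, 0 < C ∧ ∀ V : E → ℝ,
    Integrable (fun x => max (V x) 0) → AEStronglyMeasurable (fun x => max (-(V x)) 0) volume →
    ∀ (N : ℕ) (e : Fin N → ℝ) (u : Fin N → E → ℂ),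
      (∀ i j, ∫ x, (starRingEnd ℂ) (u i x) * u j x = if i = j then 1 else 0) → (∀ i, e i < 0) →
      (∀ i, IsEig s V (e i) (u i)) →
      ∑ i, |e i| ^ (1 - dim E / (2 * s)) ≤ C * ∫ x, max (V x) 0 := by
  obtain ⟨C, hC, hmain⟩ := eig_main E s hs
  refine ⟨C, hC, ?_⟩
  intro V hVp hVm N e u hort he heig
  choose g hg1 hg2 using heig
  let U : Fin N → L2 E := fun i => (hg1 i).1.1.toLp (u i)
  have hUF : ∀ i, (𝓕 (U i) : L2 E) = (hg1 i).1.2.1.toLp (g i) := fun i => L2_of_isFT _ _ (hg1 i).1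
  have hUae : ∀ i, ∀ᵐ x, U i x = u i x := fun i => (hg1 i).1.1.coeFn_toLp
  have hFae : ∀ i, ∀ᵐ ξ, (𝓕 (U i) : L2 E) ξ = g i ξ := by
    intro i
    rw [hUF i]
    exact (hg1 i).1.2.1.coeFn_toLp
  apply hmain V hVp hVm N e U _ he
  · intro i
    refine ⟨⟨?_, ?_⟩, ?_⟩
    · refine (hg1 i).2.1.congr ?_
      filter_upwards [hFae i] with ξ hξ
      rw [hξ]
    · refine (hg1 i).2.2.congr ?_
      filter_upwards [hUae i] with x hx
      rw [hx]
    · intro W hW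
      have h1 := hg2 i (fun x => W x) (fun ξ => (𝓕 W : L2 E) ξ) (inFD_of_FD s V W hW)
      have h2 : fm E s V W (U i) = fmp s V (fun x => W x) (fun ξ => (𝓕 W : L2 E) ξ) (u i) (g i) := by
        unfold fm fmp
        congr 1
        · apply integral_congr_ae
          filter_upwards [hFae i] with ξ hξ
          rw [hξ]
        · apply integral_congr_ae
          filter_upwards [hUae i] with x hx
          rw [hx]
      have h3 : ⟪W, U i⟫_ℂ = ∫ x, (starRingEnd ℂ) (W x) * u i x := by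
        rw [L2.inner_def]
        apply integral_congr_ae
        filter_upwards [hUae i] with x hx
        rw [hx, RCLike.inner_apply, mul_comm]
      rw [h2, h3]
      exact h1
  · rw [orthonormal_iff_ite]
    intro i j
    rw [L2.inner_def, ← hort i j]
    apply integral_congr_ae
    filter_upwards [hUae i, hUae j] with x hx hx'
    rw [hx, hx', RCLike.inner_apply, mul_comm]

end Pool.Agent.Helper209.GLT
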